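import Pool.Agent.Helper7_PAR.Defs

/-!
# Parity-P: chains of a finite poset with an element comparable to all the others, coding of lists
-/

set_option autoImplicit false

namespace Pool.Agent.PAR

section chains

variable {α : Type} (S : Set α) (r : α → α → Prop)

/-- strictly increasing lists of elements of `S` -/
def Chains : Set (List α) := {l | (∀ u ∈ l, u ∈ S) ∧ l.Pairwise (fun u v => r u v ∧ u ≠ v)}

open Classical in
/-- insertion of `t` -/
noncomputable def ins (t : α) (l : List α) : List α :=
  l.takeWhile (fun u => decide (r u t)) ++ t :: l.dropWhile (fun u => decide (r u t))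

variable {S r}

theorem chain_split {t : α} (ht : t ∈ S)
    (htr : ∀ u ∈ S, ∀ v ∈ S, ∀ w ∈ S, r u v → r v w → r u w)
    (hc : ∀ u ∈ S, r u t ∨ r t u) {l : List α} (hl : l ∈ Chains S r) :
    (∀ u ∈ l.dropWhile (fun u => @decide (r u t) (Classical.propDecidable _)), r t u) := by
  classical
  intro u hu
  obtain ⟨hl1, hl2⟩ := hl
  generalize hd : l.dropWhile (fun u => @decide (r u t) (Classical.propDecidable _)) = d at hu
  have hsub : ∀ v ∈ d, v ∈ S := fun v hv => hl1 v (by
    have : d.Sublist l := hd ▸ List.dropWhile_sublist _
    exact this.subset hv)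
  have hpw : d.Pairwise (fun u v => r u v ∧ u ≠ v) := by
    have : d.Sublist l := hd ▸ List.dropWhile_sublist _
    exact hl2.sublist this
  rcases d with _ | ⟨a, d⟩
  · simp at hu
  · have ha : ¬ r a t := by
      have h1 := List.head?_dropWhile_not (fun u => @decide (r u t) (Classical.propDecidable _)) l
      rw [hd] at h1
      simpa using h1
    have haS := hsub a (by simp)
    have h2 : r t a := (hc a haS).resolve_left ha
    rcases List.mem_cons.1 hu with rfl | hu
    · exact h2
    · exact htr t ht a haS u (hsub u (by simp [hu])) h2 ((List.pairwise_cons.1 hpw).1 u hu).1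

theorem mem_chains_append {l₁ l₂ : List α} : l₁ ++ l₂ ∈ Chains S r ↔
    l₁ ∈ Chains S r ∧ l₂ ∈ Chains S r ∧ ∀ u ∈ l₁, ∀ v ∈ l₂, r u v ∧ u ≠ v := by
  unfold Chains
  simp only [Set.mem_ofPred_eq, List.mem_append, List.pairwise_append]
  constructor
  · rintro ⟨h1, h2, h3, h4⟩
    exact ⟨⟨fun u hu => h1 u (Or.inl hu), h2⟩, ⟨fun u hu => h1 u (Or.inr hu), h3⟩, h4⟩
  · rintro ⟨⟨h1, h2⟩, ⟨h3, h4⟩, h5⟩
    exact ⟨fun u hu => hu.elim (h1 u) (h3 u), h2, h4, h5⟩

theorem mem_chains_cons {t : α} {l : List α} : t :: l ∈ Chains S r ↔
    t ∈ S ∧ l ∈ Chains S r ∧ ∀ v ∈ l, r t v ∧ t ≠ v := by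
  unfold Chains
  simp only [Set.mem_ofPred_eq, List.mem_cons, List.pairwise_cons]
  constructor
  · rintro ⟨h1, h2, h3⟩
    exact ⟨h1 t (Or.inl rfl), ⟨fun u hu => h1 u (Or.inr hu), h3⟩, h2⟩
  · rintro ⟨h1, ⟨h2, h3⟩, h4⟩
    exact ⟨fun u hu => hu.elim (fun h => h ▸ h1) (h2 u), h4, h3⟩

theorem ins_mem {t : α} (ht : t ∈ S)
    (htr : ∀ u ∈ S, ∀ v ∈ S, ∀ w ∈ S, r u v → r v w → r u w)
    (hc : ∀ u ∈ S, r u t ∨ r t u) {l : List α} (hl : l ∈ Chains S r) (h : t ∉ l) :
    ins r t l ∈ Chains S r := by
  classical
  have h1 := chain_split ht htr hc hl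
  have h2 : ∀ u ∈ l.takeWhile (fun u => @decide (r u t) (Classical.propDecidable _)), r u t := by
    intro u hu
    simpa using List.mem_takeWhile_imp hu
  have e := List.takeWhile_append_dropWhile
    (p := fun u => @decide (r u t) (Classical.propDecidable _)) (l := l)
  unfold ins
  generalize l.takeWhile (fun u => @decide (r u t) (Classical.propDecidable _)) = a at *
  generalize l.dropWhile (fun u => @decide (r u t) (Classical.propDecidable _)) = b at *
  subst e
  obtain ⟨ha, hb, hab⟩ := mem_chains_append.1 hl
  rw [List.mem_append, not_or] at h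
  rw [mem_chains_append, mem_chains_cons]
  refine ⟨ha, ⟨ht, hb, fun v hv => ⟨h1 v hv, fun h' => h.2 (h' ▸ hv)⟩⟩, ?_⟩
  intro u hu v hv
  rcases List.mem_cons.1 hv with rfl | hv
  · exact ⟨h2 u hu, fun h' => h.1 (h' ▸ hu)⟩
  · exact hab u hu v hv

theorem mem_ins (t : α) (l : List α) : t ∈ ins r t l := by
  unfold ins
  simp

theorem filter_ne {t : α} {l : List α} [DecidableEq α] (h : t ∉ l) :
    l.filter (fun u => decide (u ≠ t)) = l := by
  rw [List.filter_eq_self]
  intro u hu
  simp only [decide_eq_true_eq]
  rintro rfl
  exact h hu

theorem filter_ins [DecidableEq α] {t : α} {l : List α} (h : t ∉ l) :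
    (ins r t l).filter (fun u => decide (u ≠ t)) = l := by
  classical
  have e := List.takeWhile_append_dropWhile
    (p := fun u => @decide (r u t) (Classical.propDecidable _)) (l := l)
  unfold ins
  generalize l.takeWhile (fun u => @decide (r u t) (Classical.propDecidable _)) = a at *
  generalize l.dropWhile (fun u => @decide (r u t) (Classical.propDecidable _)) = b at *
  subst e
  rw [List.mem_append, not_or] at h
  rw [List.filter_append, List.filter_cons]
  simp only [ne_eq, not_true_eq_false, decide_false, Bool.false_eq_true, if_false]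
  rw [filter_ne h.1, filter_ne h.2]

/-- **The number of nonempty chains is odd** if some element is comparable to all the others. -/
theorem odd_chains {t : α} (ht : t ∈ S)
    (has : ∀ u ∈ S, ∀ v ∈ S, r u v → r v u → u = v)
    (htr : ∀ u ∈ S, ∀ v ∈ S, ∀ w ∈ S, r u v → r v w → r u w)
    (hc : ∀ u ∈ S, r u t ∨ r t u) (hfin : (Chains S r).Finite) :
    Odd ({l | l ∈ Chains S r ∧ l ≠ []} : Set (List α)).ncard := by
  classical
  let A0 : Set (List α) := {l | l ∈ Chains S r ∧ t ∉ l}
  let A1 : Set (List α) := {l | l ∈ Chains S r ∧ t ∈ l}
  have hA0 : A0.Finite := hfin.subset fun l hl => hl.1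
  have hA1 : A1.Finite := hfin.subset fun l hl => hl.1
  have him : A1 = (ins r t) '' A0 := by
    ext l
    constructor
    · rintro ⟨hl, htl⟩
      obtain ⟨a, b, rfl⟩ := List.append_of_mem htl
      obtain ⟨ha, hb, hab⟩ := mem_chains_append.1 hl
      obtain ⟨-, hb2, hb3⟩ := mem_chains_cons.1 hb
      have hta : t ∉ a := fun h => (hab t h t (by simp)).2 rfl
      have htb : t ∉ b := fun h => (hb3 t h).2 rfl
      refine ⟨a ++ b, ⟨mem_chains_append.2 ⟨ha, hb2, fun u hu v hv => hab u hu v (by simp [hv])⟩,
        by simp [hta, htb]⟩, ?_⟩
      have h1 : ∀ u ∈ a, decide (r u t) = true := fun u hu => by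
        simpa using (hab u hu t (by simp)).1
      have h2 : ∀ u ∈ b, ¬ r u t := fun u hu h => by
        have h3 := hb3 u hu
        exact h3.2 (has t ht u (hb2.1 u hu) h3.1 h)
      have h3 : b.takeWhile (fun u => decide (r u t)) = [] := by
        rcases b with _ | ⟨c, b⟩
        · rfl
        · rw [List.takeWhile_cons_of_neg]
          simpa using h2 c (by simp)
      have h4 : b.dropWhile (fun u => decide (r u t)) = b := by
        rcases b with _ | ⟨c, b⟩
        · rfl
        · rw [List.dropWhile_cons_of_neg]
          simpa using h2 c (by simp)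
      have e1 : (a ++ b).takeWhile (fun u => decide (r u t)) = a := by
        rw [List.takeWhile_append_of_pos h1, h3, List.append_nil]
      have e2 : (a ++ b).dropWhile (fun u => decide (r u t)) = b := by
        rw [List.dropWhile_append_of_pos h1, h4]
      unfold ins
      rw [e1, e2]
    · rintro ⟨l, ⟨hl, htl⟩, rfl⟩
      exact ⟨ins_mem ht htr hc hl htl, mem_ins t l⟩
  have hinj : Set.InjOn (ins r t) A0 := by
    intro l hl l' hl' h
    rw [← filter_ins (r := r) hl.2, h, filter_ins hl'.2]
  have hcard : A1.ncard = A0.ncard := by
    rw [him]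
    exact Set.InjOn.ncard_image hinj
  have hun : Chains S r = A0 ∪ A1 := by
    ext l
    by_cases h : t ∈ l
    · simp [A0, A1, h]
    · simp [A0, A1, h]
  have hdis : Disjoint A0 A1 := by
    rw [Set.disjoint_left]
    intro l h1 h2
    exact h1.2 h2.2
  have h1 : (Chains S r).ncard = 2 * A0.ncard := by
    rw [hun, Set.ncard_union_eq hdis hA0 hA1, hcard]
    ring
  have hnil : ([] : List α) ∈ Chains S r := ⟨by simp, List.Pairwise.nil⟩
  have h2 : ({l | l ∈ Chains S r ∧ l ≠ []} : Set (List α)) = Chains S r \ {[]} := by
    ext l
    simp
  rw [h2, Set.ncard_sdiff_singleton_of_mem hnil, h1]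
  have h3 : 0 < A0.ncard := by
    rw [Set.ncard_pos hA0]
    exact ⟨[], hnil, by simp⟩
  exact ⟨A0.ncard - 1, by omega⟩

end chains

/-! ### Coding of lists of words -/

/-- the code of a list of words -/
def code (l : List Word) : List (Option Bool) := l.flatMap fun w => w.map some ++ [none]

/-- the bits after the last separator -/
def blk (d : List (Option Bool)) : Word :=
  d.foldl (fun w c => match c with
    | some b => w ++ [b]
    | none => []) []

theorem code_append (l l' : List Word) : code (l ++ l') = code l ++ code l' := by
  unfold code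
  rw [List.flatMap_append]

theorem code_singleton (w : Word) : code [w] = w.map some ++ [none] := by
  simp [code]

theorem blk_map (w u : Word) : (w.map some).foldl (fun w c => match c with
    | some b => w ++ [b]
    | none => []) u = u ++ w := by
  induction w generalizing u with
  | nil => simp
  | cons b w ih =>
    rw [List.map_cons, List.foldl_cons]
    simp only
    rw [ih]
    simp

theorem blk_code (l : List Word) (w : Word) : blk (code l ++ w.map some) = w := by
  unfold blk
  rw [List.foldl_append]
  have h : (code l).foldl (fun w c => match c with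
    | some b => w ++ [b]
    | none => []) [] = ([] : Word) := by
    rcases List.eq_nil_or_concat l with rfl | ⟨l, v, rfl⟩
    · rfl
    · rw [List.concat_eq_append, code_append, code_singleton, List.foldl_append,
        List.foldl_append]
      rfl
  rw [h, blk_map, List.nil_append]

theorem exists_code (c : List (Option Bool)) :
    ∃ (l : List Word) (w : Word), c = code l ++ w.map some := by
  induction c using List.reverseRecOn with
  | nil => exact ⟨[], [], rfl⟩
  | append_singleton c x ih =>
    obtain ⟨l, w, rfl⟩ := ih
    rcases x with _ | b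
    · exact ⟨l ++ [w], [], by rw [code_append, code_singleton]; simp⟩
    · exact ⟨l, w ++ [b], by simp⟩

theorem split_last (x d e : List (Option Bool)) (w : Word) :
    d ++ none :: e = x ++ none :: w.map some ↔
      (d = x ∧ e = w.map some) ∨ ∃ e', d ++ none :: e' = x ∧ e = e' ++ none :: w.map some := by
  constructor
  · intro h
    rcases List.append_eq_append_iff.1 h with ⟨a, h1, h2⟩ | ⟨a, h1, h2⟩
    · rcases a with _ | ⟨a0, a⟩
      · left
        simp only [List.append_nil, List.nil_append, List.cons.injEq, true_and] at h1 h2
        exact ⟨h1.symm, h2⟩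
      · right
        simp only [List.cons_append, List.cons.injEq] at h2
        obtain ⟨rfl, h2⟩ := h2
        exact ⟨a, h1.symm, h2⟩
    · rcases a with _ | ⟨a0, a⟩
      · left
        simp only [List.append_nil, List.nil_append, List.cons.injEq, true_and] at h1 h2
        exact ⟨h1, h2.symm⟩
      · exfalso
        simp only [List.cons_append, List.cons.injEq] at h2
        obtain ⟨rfl, h2⟩ := h2
        have h3 : (none : Option Bool) ∈ w.map some := by
          rw [h2]
          simp
        simp at h3
  · rintro (⟨rfl, rfl⟩ | ⟨e', rfl, rfl⟩)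
    · rfl
    · simp

theorem forall_blk (P : Word → Prop) (l : List Word) : ∀ w : Word,
    (∀ d e, d ++ none :: e = code l ++ w.map some → P (blk d)) ↔ ∀ u ∈ l, P u := by
  induction l using List.reverseRecOn with
  | nil =>
    intro w
    simp only [List.not_mem_nil, false_imp_iff, implies_true, iff_true]
    intro d e h
    exfalso
    have h3 : (none : Option Bool) ∈ code [] ++ w.map some := by
      rw [← h]
      simp
    simp [code] at h3
  | append_singleton l v ih =>
    intro w
    have e1 : code (l ++ [v]) ++ w.map some = (code l ++ v.map some) ++ none :: w.map some := by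
      rw [code_append, code_singleton]
      simp
    rw [e1]
    simp only [split_last, List.mem_append, List.mem_singleton]
    constructor
    · rintro h u (hu | rfl)
      · exact (ih v).1 (fun d e hd => h d _ (Or.inr ⟨e, hd, rfl⟩)) u hu
      · have := h _ _ (Or.inl ⟨rfl, rfl⟩)
        rwa [blk_code] at this
    · rintro h d e (⟨rfl, rfl⟩ | ⟨e', hd, rfl⟩)
      · rw [blk_code]
        exact h v (Or.inr rfl)
      · exact (ih v).2 (fun u hu => h u (Or.inl hu)) d e' hd

theorem pairwise_blk (Q : Word → Word → Prop) (l : List Word) : ∀ w : Word,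
    (∀ d e, d ++ none :: e = code l ++ w.map some →
      ∀ d' e', d' ++ none :: e' = d → Q (blk d') (blk d)) ↔ l.Pairwise Q := by
  induction l using List.reverseRecOn with
  | nil =>
    intro w
    simp only [List.Pairwise.nil, iff_true]
    intro d e h
    exfalso
    have h3 : (none : Option Bool) ∈ code [] ++ w.map some := by
      rw [← h]
      simp
    simp [code] at h3
  | append_singleton l v ih =>
    intro w
    have e1 : code (l ++ [v]) ++ w.map some = (code l ++ v.map some) ++ none :: w.map some := by
      rw [code_append, code_singleton]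
      simp
    rw [e1, List.pairwise_append]
    simp only [split_last, List.mem_singleton, List.pairwise_singleton, true_and]
    constructor
    · intro h
      refine ⟨(ih v).1 (fun d e hd => h d _ (Or.inr ⟨e, hd, rfl⟩)), ?_⟩
      intro u hu b hb
      subst hb
      have h1 := h _ _ (Or.inl ⟨rfl, rfl⟩)
      rw [blk_code] at h1
      exact (forall_blk (fun u => Q u b) l b).1 h1 u hu
    · rintro ⟨h1, h2⟩ d e (⟨rfl, rfl⟩ | ⟨e', hd, rfl⟩)
      · rw [blk_code]
        exact (forall_blk (fun u => Q u v) l v).2 (fun u hu => h2 u hu v rfl)
      · exact (ih v).2 h1 d e' hd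

theorem code_injective : Function.Injective code := by
  intro l
  induction l with
  | nil =>
    intro l' h
    rcases l' with _ | ⟨w, l'⟩
    · rfl
    · simp [code] at h
  | cons v l ih =>
    intro l' h
    rcases l' with _ | ⟨w, l'⟩
    · simp [code] at h
    · have e : ∀ (v : Word) (l : List Word), code (v :: l) = v.map some ++ none :: code l := by
        intro v l
        simp [code]
      rw [e, e] at h
      have key : ∀ (v w : Word) (a b : List (Option Bool)),
          v.map some ++ none :: a = w.map some ++ none :: b → v = w ∧ a = b := by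
        intro v
        induction v with
        | nil =>
          intro w a b h
          rcases w with _ | ⟨x, w⟩
          · simpa using h
          · simp at h
        | cons y v ih =>
          intro w a b h
          rcases w with _ | ⟨x, w⟩
          · simp at h
          · simp only [List.map_cons, List.cons_append, List.cons.injEq, Option.some.injEq] at h
            obtain ⟨rfl, h⟩ := h
            obtain ⟨rfl, rfl⟩ := ih w a b h
            exact ⟨rfl, rfl⟩
      obtain ⟨rfl, h2⟩ := key v w _ _ h
      rw [ih h2]

/-- the condition which is checked by the machine -/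
def Okc (P : Word → Prop) (Q : Word → Word → Prop) (c : List (Option Bool)) : Prop :=
  c.getLast? = some none ∧ (∀ d e, d ++ none :: e = c → P (blk d)) ∧
    ∀ d e, d ++ none :: e = c → ∀ d' e', d' ++ none :: e' = d → Q (blk d') (blk d)

theorem okc_iff (P : Word → Prop) (Q : Word → Word → Prop) (c : List (Option Bool)) :
    Okc P Q c ↔ ∃ l, l ≠ [] ∧ (∀ u ∈ l, P u) ∧ l.Pairwise Q ∧ code l = c := by
  constructor
  · rintro ⟨h1, h2, h3⟩
    obtain ⟨l, w, rfl⟩ := exists_code c
    have hw : w = [] := by
      rcases List.eq_nil_or_concat w with rfl | ⟨w, b, rfl⟩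
      · rfl
      · rw [List.concat_eq_append, List.map_append, ← List.append_assoc, List.map_singleton,
          List.getLast?_append] at h1
        simp at h1
    subst hw
    refine ⟨l, ?_, (forall_blk P l []).1 h2, (pairwise_blk Q l []).1 h3, by simp⟩
    rintro rfl
    simp [code] at h1
  · rintro ⟨l, hl, h1, h2, rfl⟩
    have e : code l = code l ++ List.map some ([] : Word) := by simp
    refine ⟨?_, ?_, ?_⟩
    · rcases List.eq_nil_or_concat l with rfl | ⟨l, v, rfl⟩
      · exact absurd rfl hl
      · rw [List.concat_eq_append, code_append, code_singleton, ← List.append_assoc,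
          List.getLast?_append]
        rfl
    · rw [e]
      exact (forall_blk P l []).2 h1
    · rw [e]
      exact (pairwise_blk Q l []).2 h2

/-- letters in binary -/
def bin (c : List (Option Bool)) : Word := c.flatMap fun o => match o with
  | none => [false, false]
  | some b => [true, b]

/-- decoding -/
def unb (w : Word) : List (Option Bool) := (List.range (w.length / 2)).map fun i =>
  if w.getD (2 * i) false then some (w.getD (2 * i + 1) false) else none

theorem length_bin (c : List (Option Bool)) : (bin c).length = 2 * c.length := by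
  unfold bin
  induction c with
  | nil => rfl
  | cons o c ih =>
    rw [List.flatMap_cons, List.length_append, ih, List.length_cons]
    rcases o with _ | b <;> simp <;> ring

theorem unb_bin (c : List (Option Bool)) : unb (bin c) = c := by
  induction c with
  | nil => rfl
  | cons o c ih =>
    unfold unb at ih ⊢
    rw [length_bin, Nat.mul_div_cancel_left _ (by norm_num)] at ih ⊢
    rw [List.length_cons, List.range_succ_eq_map, List.map_cons, List.map_map]
    have e : bin (o :: c) = (match o with
      | none => [false, false]
      | some b => [true, b]) ++ bin c := by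
      unfold bin
      rw [List.flatMap_cons]
    have h : ∀ i, (bin (o :: c)).getD (i + 2) false = (bin c).getD i false := by
      intro i
      rw [e]
      rcases o with _ | b <;> simp
    congr 1
    · rw [e]
      rcases o with _ | b <;> simp
    · conv_rhs => rw [← ih]
      refine List.map_congr_left fun i _ => ?_
      simp only [Function.comp_apply, Nat.succ_eq_add_one]
      have e1 : 2 * (i + 1) = 2 * i + 2 := by ring
      have e2 : 2 * (i + 1) + 1 = 2 * i + 1 + 2 := by ring
      rw [e2, e1, h, h]

end Pool.Agent.PAR
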