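import Pool.Agent.Helper7_PAR.Mach
import Pool.Agent.Helper7_PAR.Comb

/-!
# Parity-P: witness sets which are posets
-/

set_option autoImplicit false

namespace Pool.Agent.PAR

open Turing Computability Pool.Agent.UT.Num Pool.Agent.H2XG
open Pool.Agent.Helper53_CookLevin (size)

variable {m : ℕ}

/-- the bits after the last separator, for words of letters -/
def blkK (d : List K) : Word :=
  d.foldl (fun w c => match c with
    | .a b => w ++ [b]
    | .s => []
    | _ => w) []

theorem blkK_map (d : List (Option Bool)) : blkK (d.map oK) = blk d := by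
  unfold blkK blk
  rw [List.foldl_map]
  congr 1
  funext w c
  rcases c with _ | b <;> rfl

theorem FPW.blk {A : (Fin m → List K) → List K} (hA : FP m A) :
    FPW m (fun ρ => blkK (A ρ)) := by
  have key : ∀ d : List K, foldS (fun c _ w => match c with
      | K.a b => w ++ [K.a b]
      | K.s => []
      | _ => w) [] [] d = (blkK d).map K.a := by
    intro d
    induction d using List.reverseRecOn with
    | nil => rfl
    | append_singleton d c ih =>
      rw [foldS_append, ih]
      have e : blkK (d ++ [c]) = match c with
        | .a b => blkK d ++ [b]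
        | .s => []
        | _ => blkK d := by
        unfold blkK
        rw [List.foldl_append]
        rcases c with _ | _ | b | ⟨i, b⟩ <;> rfl
      rw [e]
      rcases c with _ | _ | b | ⟨i, b⟩ <;> simp [foldS]
  have hlen : ∀ d : List K, (blkK d).length ≤ d.length := by
    intro d
    induction d using List.reverseRecOn with
    | nil => simp [blkK]
    | append_singleton d c ih =>
      have e : blkK (d ++ [c]) = match c with
        | .a b => blkK d ++ [b]
        | .s => []
        | _ => blkK d := by
        unfold blkK
        rw [List.foldl_append]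
        rcases c with _ | _ | b | ⟨i, b⟩ <;> rfl
      rw [e, List.length_append]
      rcases c with _ | _ | b | ⟨i, b⟩ <;> simp <;> omega
  obtain ⟨b, hb⟩ := hA.bound
  have h := hA.foldOver (F := fun c σ => match c with
      | K.a b => σ 0 ++ [K.a b]
      | K.s => []
      | _ => σ 0) (fun c => by
      rcases c with _ | _ | b | ⟨i, b⟩
      · exact FP.var 0
      · exact FP.const []
      · exact (FP.var 0).append (FP.const [K.a b])
      · exact FP.var 0) (FP.const []) b (by
      intro ρ d l hd
      have h1 := hb ρ
      rw [← hd, List.length_append] at h1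
      have h2 := congrArg List.length (key d)
      rw [List.length_map] at h2
      have h3 := hlen d
      refine le_trans (le_of_eq h2) ?_
      omega)
  refine FP.congr h fun ρ => ?_
  exact (key (A ρ)).symm

open Classical in
/-- a property of all prefixes before a separator -/
theorem FPB.allSep {A : (Fin m → List K) → List K} (hA : FP m A)
    {b : (Fin (m + 1) → List K) → Bool} (hb : FPB (m + 1) b) :
    FPB m (fun ρ => decide (∀ d e, d ++ K.s :: e = A ρ → b (Matrix.vecCons d ρ) = true)) :=
  (FPB.any hA (b := fun c σ => if c = K.s then !b σ else false) (fun c => by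
    by_cases hc : c = K.s
    · subst hc
      exact FPB.congr hb.not fun ρ => by simp
    · exact FPB.congr (FPB.const false) fun ρ => by simp [hc])).not.congr fun ρ => by
    rw [Bool.eq_iff_iff]
    simp only [decide_eq_true_eq, Bool.not_eq_true', decide_eq_false_iff_not, not_exists, not_and]
    constructor
    · intro h d l c hd
      by_cases hc : c = K.s
      · subst hc
        simp [h d l hd]
      · simp [hc]
    · intro h d e hd
      have := h d e K.s hd
      simpa using this

open Classical in
/-- the check of a certificate -/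
theorem FPB.okc {A : (Fin m → List K) → List (Option Bool)} (hA : FPO m A)
    {P : (Fin m → List K) → Word → Bool} {Q : (Fin m → List K) → Word → Word → Bool}
    (hP : ∀ B : (Fin (m + 1) → List K) → Word, FPW (m + 1) B →
      FPB (m + 1) (fun σ => P (fun i => σ i.succ) (B σ)))
    (hQ : ∀ B D : (Fin (m + 1 + 1) → List K) → Word, FPW (m + 1 + 1) B → FPW (m + 1 + 1) D →
      FPB (m + 1 + 1) (fun σ => Q (fun i => σ i.succ.succ) (B σ) (D σ))) :
    FPB m (fun ρ => decide (Okc (fun w => P ρ w = true) (fun u w => Q ρ u w = true) (A ρ))) := by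
  have h1 : FPB m (fun ρ => decide (((A ρ).map oK).getLast? = some K.s)) :=
    FPB.last hA (fun o => decide (o = some K.s))
  have h2 := FPB.allSep hA (hP _ (FPW.blk (FP.var 0)))
  have h3 := FPB.allSep hA (b := fun σ => decide (∀ d e, d ++ K.s :: e = σ 0 →
    Q (fun i => σ i.succ) (blkK d) (blkK (σ 0)) = true))
    (FPB.allSep (FP.var 0) (hQ _ _ (FPW.blk (FP.var 0)) (FPW.blk (FP.var 1))))
  refine ((h1.and h2).and h3).congr fun ρ => ?_
  rw [Bool.eq_iff_iff]
  simp only [Bool.and_eq_true, decide_eq_true_eq]
  unfold Okc
  have e1 : ((A ρ).map oK).getLast? = some K.s ↔ (A ρ).getLast? = some none := by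
    rw [List.getLast?_map]
    rcases (A ρ).getLast? with _ | _ | b
    · simp
    · simp [oK]
    · simp [oK]
  have e2 : ∀ (A : List (Option Bool)) (d e : List K), d ++ K.s :: e = A.map oK ↔
      ∃ d' e', d' ++ none :: e' = A ∧ d = d'.map oK ∧ e = e'.map oK := by
    intro A d e
    rw [eq_comm, List.map_eq_append_iff]
    constructor
    · rintro ⟨a, b, rfl, rfl, h⟩
      obtain ⟨c, b', rfl, hc, rfl⟩ := List.map_eq_cons_iff.1 h
      rcases c with _ | c
      · exact ⟨a, b', rfl, rfl, rfl⟩
      · cases hc
    · rintro ⟨d', e', rfl, rfl, rfl⟩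
      exact ⟨d', none :: e', rfl, rfl, rfl⟩
  rw [e1, and_assoc]
  refine and_congr_right fun _ => and_congr ?_ ?_
  · constructor
    · intro h d e hd
      obtain ⟨d', e', h1, rfl, rfl⟩ := (e2 _ _ _).1 hd
      have := h d' e' h1
      simpa [blkK_map] using this
    · intro h d e hd
      have := h (d.map oK) (e.map oK) ((e2 _ _ _).2 ⟨d, e, hd, rfl, rfl⟩)
      simpa [blkK_map] using this
  · constructor
    · intro h d e hd f g hf
      obtain ⟨d', e', h1, rfl, rfl⟩ := (e2 _ _ _).1 hd
      obtain ⟨f', g', h2, rfl, rfl⟩ := (e2 _ _ _).1 hf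
      have := h d' e' h1 f' g' h2
      simpa [blkK_map] using this
    · intro h d e hd f g hf
      have := h (d.map oK) (e.map oK) ((e2 _ _ _).2 ⟨d, e, hd, rfl, rfl⟩) (f.map oK) (g.map oK)
        ((e2 _ _ _).2 ⟨f, g, hf, rfl, rfl⟩)
      simpa [blkK_map] using this

theorem FPW.bin {A : (Fin m → List K) → List (Option Bool)} (hA : FPO m A) :
    FPW m (fun ρ => bin (A ρ)) :=
  FP.congr (FP.flatMap hA (F := fun c _ => match c with
    | .a b => [K.a true, K.a b]
    | _ => [K.a false, K.a false]) (fun c => FP.const _)) fun ρ => by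
    unfold PAR.bin
    rw [List.map_flatMap, List.flatMap_map]
    refine List.flatMap_congr fun o _ => ?_
    rcases o with _ | b <;> rfl

theorem FPO.unb {A : (Fin m → List K) → Word} (hA : FPW m A) :
    FPO m (fun ρ => unb (A ρ)) :=
  FP.congr (FP.rangeFlatMap (hA.len.div (FPN.const 2)) (F := fun i ρ =>
    if (A ρ).getD (2 * i) false then
      (if (A ρ).getD (2 * i + 1) false then [K.a true] else [K.a false]) else [K.s])
    (FP.ite (FPW.getD hA.weak ((FPN.const 2).mul FPN.v0))
      (FP.ite (FPW.getD hA.weak (((FPN.const 2).mul FPN.v0).add (FPN.const 1)))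
        (FP.const _) (FP.const _)) (FP.const _))) fun ρ => by
    unfold PAR.unb
    rw [List.map_map, List.map_eq_flatMap]
    refine List.flatMap_congr fun i _ => ?_
    simp only [Function.comp_apply]
    split_ifs with h1 h2
    · rw [h2]; rfl
    · rw [Bool.not_eq_true] at h2
      rw [h2]; rfl
    · rfl

/-- a predicate which can be computed -/
def Good2 (g : Word → Word → Bool) : Prop :=
  ∀ (m : ℕ) (A B : (Fin m → List K) → Word), FPW m A → FPW m B → FPB m (fun ρ => g (A ρ) (B ρ))

/-- a predicate which can be computed -/
def Good3 (g : Word → Word → Word → Bool) : Prop :=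
  ∀ (m : ℕ) (A B D : (Fin m → List K) → Word), FPW m A → FPW m B → FPW m D →
    FPB m (fun ρ => g (A ρ) (B ρ) (D ρ))

theorem length_code_le (l : List Word) (n : ℕ) (h : ∀ u ∈ l, u.length ≤ n) :
    (code l).length ≤ l.length * (n + 1) := by
  induction l with
  | nil => simp [code]
  | cons w l ih =>
    have e : code (w :: l) = w.map some ++ none :: code l := by simp [code]
    have h1 := h w (by simp)
    have h2 := ih (fun u hu => h u (by simp [hu]))
    rw [e, List.length_append, List.length_map, List.length_cons, List.length_cons]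
    nlinarith

/-- **Witness sets which are posets**, in terms of computable predicates. -/
theorem core (L : Set Word) (v : Word → Word → Bool) (r : Word → Word → Word → Bool)
    (hv : Good2 v) (hr : Good3 r) (q : Polynomial ℕ)
    (W : Word → Set Word) (hW : ∀ x, W x = {y | y.length ≤ q.eval x.length ∧ v x y = true})
    (has : ∀ x, ∀ y ∈ W x, ∀ z ∈ W x, r x y z = true → r x z y = true → y = z)
    (htr : ∀ x, ∀ y ∈ W x, ∀ z ∈ W x, ∀ w ∈ W x, r x y z = true → r x z w = true →
      r x y w = true)
    (hch : ∀ x (l : List Word), (∀ y ∈ l, y ∈ W x) →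
      l.Pairwise (fun y z => r x y z = true ∧ y ≠ z) → l.length ≤ q.eval x.length)
    (hcone : ∀ x ∈ L, ∃ t ∈ W x, ∀ y ∈ W x, r x y t = true ∨ r x t y = true)
    (hout : ∀ x, x ∉ L → W x = ∅) : InParityP L := by
  classical
  let g : Word → Word → Bool := fun x c => decide (bin (unb c) = c) &&
    decide (Okc (fun y => (decide (y.length ≤ q.eval x.length) && v x y) = true)
      (fun y z => (r x y z && !decide (y = z)) = true) (unb c))
  have hg : PolyPair (fun z => g z.1 z.2) := by
    refine polyPair_of' fun m A B hA hB => ?_
    refine (FPW.eq (FPW.bin (FPO.unb hB)) hB).and ?_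
    refine FPB.okc (FPO.unb hB) (P := fun ρ y => decide (y.length ≤ q.eval (A ρ).length) &&
      v (A ρ) y) (Q := fun ρ y z => r (A ρ) y z && !decide (y = z)) ?_ ?_
    · intro D hD
      exact (FPB.leN hD.len (hA.weak.len.poly q)).and (hv _ _ _ hA.weak hD)
    · intro D E hD hE
      exact (hr _ _ _ _ hA.weak.weak hD hE).and (FPW.eq hD hE).not
  refine ⟨fun z => g z.1 z.2, 2 * (q * (q + 1)), hg, fun x => ?_⟩
  have key : witnesses (fun z => g z.1 z.2) (2 * (q * (q + 1))) x =
      (fun l => bin (code l)) '' {l | l ∈ Chains (W x) (fun y z => r x y z = true) ∧ l ≠ []} := by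
    ext c
    constructor
    · rintro ⟨hc1, hc2⟩
      simp only [g, Bool.and_eq_true, decide_eq_true_eq] at hc2
      obtain ⟨l, h1, h2, h3, h4⟩ := (okc_iff _ _ _).1 hc2.2
      refine ⟨l, ⟨⟨fun u hu => ?_, h3.imp fun {a b} h => ?_⟩, h1⟩, ?_⟩
      · rw [hW]
        have := h2 u hu
        simpa using this
      · simpa using h
      · show bin (code l) = c
        rw [h4]
        exact hc2.1
    · rintro ⟨l, ⟨⟨h1, h2⟩, h3⟩, rfl⟩
      refine ⟨?_, ?_⟩
      · have h4 := hch x l h1 h2
        have h5 : ∀ u ∈ l, u.length ≤ q.eval x.length := fun u hu => by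
          have := h1 u hu
          rw [hW] at this
          exact this.1
        have h6 := length_code_le l _ h5
        rw [length_bin]
        simp only [Polynomial.eval_mul, Polynomial.eval_add, Polynomial.eval_ofNat,
          Polynomial.eval_one]
        exact Nat.mul_le_mul_left _ (h6.trans (Nat.mul_le_mul_right _ h4))
      · show (decide (bin (unb (bin (code l))) = bin (code l)) && _) = true
        rw [unb_bin, Bool.and_eq_true]
        refine ⟨by simp, ?_⟩
        simp only [decide_eq_true_eq]
        rw [okc_iff]
        refine ⟨l, h3, fun u hu => ?_, h2.imp fun {a b} h => ?_, rfl⟩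
        · have := h1 u hu
          rw [hW] at this
          simpa using this
        · simpa using h
  have hinj : Function.Injective (fun l => bin (code l)) := by
    intro l l' h
    have h1 : code l = code l' := by
      rw [← unb_bin (code l), ← unb_bin (code l')]
      exact congrArg unb h
    exact code_injective h1
  rw [key, Set.ncard_image_of_injective _ hinj]
  constructor
  · intro hx
    obtain ⟨t, ht, hc⟩ := hcone x hx
    refine odd_chains ht (has x) (htr x) hc ?_
    have hWf : (W x).Finite := by
      rw [hW]
      exact (List.finite_length_le Bool (q.eval x.length)).subset fun y hy => hy.1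
    have h2 : (Chains (W x) (fun y z => r x y z = true)) ⊆
        {l : List Word | l.length ≤ q.eval x.length ∧ ∀ u ∈ l, u ∈ W x} :=
      fun l hl => ⟨hch x l hl.1 hl.2, hl.1⟩
    refine Set.Finite.subset ?_ h2
    have : Finite (W x) := hWf
    have h3 := List.finite_length_le (W x) (q.eval x.length)
    refine (h3.image (fun l => l.map Subtype.val)).subset ?_
    rintro l ⟨hl1, hl2⟩
    exact ⟨l.attach.map (fun u => ⟨u.1, hl2 _ u.2⟩), by simpa using hl1, by simp⟩
  · intro hodd
    by_contra hx
    have h1 : {l | l ∈ Chains (W x) (fun y z => r x y z = true) ∧ l ≠ []} = ∅ := by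
      rw [hout x hx]
      ext l
      simp only [Set.mem_ofPred_eq, Set.mem_empty_iff_false, iff_false, not_and, not_not]
      rintro ⟨h1, h2⟩
      rcases l with _ | ⟨a, l⟩
      · rfl
      · exact absurd (h1 a (by simp)) (by simp)
    rw [h1] at hodd
    simp at hodd

theorem good2_of {V : Word × Word → Bool} (hV : PolyPair V) : Good2 (fun x y => V (x, y)) :=
  fun _ _ _ hA hB => FPB.call2 hV hA hB

theorem good3_of {R : Word × Word × Word → Bool} (hR : PolyTriple R) :
    Good3 (fun x y z => R (x, y, z)) :=
  fun _ _ _ _ hA hB hD => FPB.call3 hR hA hB hD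

end Pool.Agent.PAR
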