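import Pool.Agent.Helper7_PAR.Defs
import Pool.Agent.Helper87_UT.Num
import Pool.Agent.Helper87_UT.Tnx

/-!
# Parity-P: words of bits in the calculus `FP`
-/

set_option autoImplicit false

namespace Pool.Agent.PAR

open Turing Computability Pool.Agent.UT.Num Pool.Agent.H2XG
open Pool.Agent.Common_CookLevin (PolyFn polyFn_flatMap)
open Pool.Agent.Helper53_CookLevin (size)

/-- letters: the default letter, a separator, bits and three tracks -/
inductive K
  | z
  | s
  | a (b : Bool)
  | t (i : Fin 3) (b : Bool)
  deriving DecidableEq, Fintype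

instance : Inhabited K := ⟨.z⟩

/-- functions whose values are words of bits -/
def FPW (m : ℕ) (A : (Fin m → List K) → Word) : Prop := FP m (fun ρ => (A ρ).map K.a)

/-- letters of a certificate -/
def oK : Option Bool → K
  | none => .s
  | some b => .a b

/-- functions whose values are words over `Option Bool` -/
def FPO (m : ℕ) (A : (Fin m → List K) → List (Option Bool)) : Prop :=
  FP m (fun ρ => (A ρ).map oK)

variable {m : ℕ}

theorem FPW.congr {A B : (Fin m → List K) → Word} (h : FPW m A) (e : ∀ ρ, B ρ = A ρ) :
    FPW m B := by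
  have : B = A := funext e
  rw [this]
  exact h

theorem FPO.congr {A B : (Fin m → List K) → List (Option Bool)} (h : FPO m A)
    (e : ∀ ρ, B ρ = A ρ) : FPO m B := by
  have : B = A := funext e
  rw [this]
  exact h

theorem FPW.weak {A : (Fin m → List K) → Word} (h : FPW m A) :
    FPW (m + 1) (fun σ => A (fun i => σ i.succ)) := FP.weak h

theorem FPO.weak {A : (Fin m → List K) → List (Option Bool)} (h : FPO m A) :
    FPO (m + 1) (fun σ => A (fun i => σ i.succ)) := FP.weak h

theorem FPW.const (w : Word) : FPW m (fun _ => w) := FP.const _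

theorem FPW.append {A B : (Fin m → List K) → Word} (h : FPW m A) (h' : FPW m B) :
    FPW m (fun ρ => A ρ ++ B ρ) :=
  FP.congr (FP.append h h') fun ρ => by rw [List.map_append]

theorem FPW.len {A : (Fin m → List K) → Word} (h : FPW m A) : FPN m (fun ρ => (A ρ).length) :=
  (FPN.len h).congr fun ρ => by rw [List.length_map]

theorem FPO.len {A : (Fin m → List K) → List (Option Bool)} (h : FPO m A) :
    FPN m (fun ρ => (A ρ).length) :=
  (FPN.len h).congr fun ρ => by rw [List.length_map]

theorem FPW.take {A : (Fin m → List K) → Word} (h : FPW m A)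
    {e : (Fin m → List K) → ℕ} (he : FPN m e) : FPW m (fun ρ => (A ρ).take (e ρ)) :=
  FP.congr (FP.takeNum h he) fun ρ => by rw [List.map_take]

theorem FPW.drop {A : (Fin m → List K) → Word} (h : FPW m A)
    {e : (Fin m → List K) → ℕ} (he : FPN m e) : FPW m (fun ρ => (A ρ).drop (e ρ)) :=
  FP.congr (FP.dropNum h he) fun ρ => by rw [List.map_drop]

/-- value of a letter -/
def lv : Option K → Bool
  | some (.a b) => b
  | _ => false

theorem FPW.getD {A : (Fin m → List K) → Word} (h : FPW m A)
    {e : (Fin m → List K) → ℕ} (he : FPN m e) : FPB m (fun ρ => (A ρ).getD (e ρ) false) :=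
  FPB.congr (FPB.getNum h he lv) fun ρ => by
    rw [List.getElem?_map, List.getD_eq_getElem?_getD]
    rcases (A ρ)[e ρ]? with _ | b <;> rfl

theorem FPW.eq {A B : (Fin m → List K) → Word} (hA : FPW m A) (hB : FPW m B) :
    FPB m (fun ρ => decide (A ρ = B ρ)) :=
  FPB.congr (FPB.eq hA hB) fun ρ => by
    rw [Bool.eq_iff_iff, decide_eq_true_iff, decide_eq_true_iff]
    refine ⟨fun h => by rw [h], fun h => ?_⟩
    exact List.map_injective_iff.2 (fun b b' hb => by cases hb; rfl) h

theorem FPB.bool {b : (Fin m → List K) → Bool} (hb : FPB m b) : FPW m (fun ρ => [b ρ]) :=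
  FP.congr (FP.ite hb (FP.const [K.a true]) (FP.const [K.a false])) fun ρ => by
    rcases h : b ρ <;> simp [h]

/-- a word given by its letters -/
theorem FPW.range {n : (Fin m → List K) → ℕ} (hn : FPN m n) {b : ℕ → (Fin m → List K) → Bool}
    (hb : FPB (m + 1) (fun σ => b (σ 0).length (fun i => σ i.succ))) :
    FPW m (fun ρ => (List.range (n ρ)).map fun i => b i ρ) :=
  FP.congr (FP.rangeFlatMap hn (F := fun i ρ => [K.a (b i ρ)])
    (FP.congr (FP.ite hb (FP.const [K.a true]) (FP.const [K.a false])) fun ρ => by
      rcases h : b (ρ 0).length (fun i => ρ i.succ) <;> simp [h])) fun ρ => by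
    rw [List.map_map, List.map_eq_flatMap]
    rfl

theorem FPB.all {n : (Fin m → List K) → ℕ} (hn : FPN m n) {b : ℕ → (Fin m → List K) → Bool}
    (hb : FPB (m + 1) (fun σ => b (σ 0).length (fun i => σ i.succ))) :
    FPB m (fun ρ => decide (∀ i < n ρ, b i ρ = true)) :=
  (FPB.exists hn (b := fun i ρ => !b i ρ) hb.not).not.congr fun ρ => by
    rw [Bool.eq_iff_iff]
    simp

/-! ### Calls of predicates of pairs and triples -/

/-- the bits on a track -/
def tr (i : Fin 3) (w : List K) : Word := w.flatMap fun c => match c with
  | .t j b => if j = i then [b] else []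
  | _ => []

/-- a word written on a track -/
def onTr (i : Fin 3) (w : Word) : List K := w.map (K.t i)

theorem tr_append (i : Fin 3) (u v : List K) : tr i (u ++ v) = tr i u ++ tr i v := by
  unfold tr
  rw [List.flatMap_append]

theorem tr_onTr (i j : Fin 3) (w : Word) : tr i (onTr j w) = if j = i then w else [] := by
  unfold tr onTr
  rw [List.flatMap_map]
  by_cases h : j = i
  · simp only [if_pos h]
    induction w with
    | nil => rfl
    | cons b w ih => rw [List.flatMap_cons, ih]; rfl
  · simp only [if_neg h]
    induction w with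
    | nil => rfl
    | cons b w ih => rw [List.flatMap_cons, ih]; rfl

theorem FPW.onTr {A : (Fin m → List K) → Word} (h : FPW m A) (i : Fin 3) :
    FP m (fun ρ => onTr i (A ρ)) :=
  FP.congr (FP.flatMap h (F := fun c _ => match c with
    | .a b => [K.t i b]
    | _ => []) (fun c => FP.const _)) fun ρ => by
    unfold PAR.onTr
    rw [List.flatMap_map, List.map_eq_flatMap]

/-- a predicate of words over a finite alphabet, read from a word of letters -/
theorem pt_pred {α A : Type} [Fintype A] {ea : α → List A} {V : α → Bool}
    (hV : Nonempty (TM2ComputableInPolyTime ea encodeBool V)) (g : K → List A)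
    (d : List K → α) (F : List K → List K) (hF : PT F)
    (hd : ∀ w, (F w).flatMap g = ea (d w)) :
    PT (fun w : List K => [K.a (V (d w))]) := by
  have h2 : PolyFn (fun w : List K => w.flatMap g) := polyFn_flatMap _
  have h3 : UT.PT (id : List K → List K) ea d := by
    refine (PolyFn.comp hF h2).computable _ _ _ ?_
    intro w
    exact (hd w).symm
  have h6 : PolyFn (fun w : List Bool => w.flatMap fun b => [K.a b]) := polyFn_flatMap _
  exact UT.H87.cps (UT.H87.cps h3 hV) (h6.computable encodeBool (id : List K → List K)
    (fun b => [K.a b]) (fun b => rfl))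

theorem pt_pair {V : Word × Word → Bool} (hV : PolyPair V) :
    PT (fun w : List K => [K.a (V (tr 0 w, tr 1 w))]) := by
  refine pt_pred hV (fun c => match c with
      | .t 0 b => [.inl b]
      | .t _ b => [.inr b]
      | _ => []) (fun w => (tr 0 w, tr 1 w)) (fun w => (w.flatMap fun c => match c with
      | .t 0 b => [K.t 0 b]
      | _ => []) ++ (w.flatMap fun c => match c with
      | .t 1 b => [K.t 1 b]
      | _ => [])) ?_ ?_
  · exact FP.pt (FP.append (FP.flatMap (C := K) (m := 1) (FP.var 0) (F := fun c _ => match c with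
      | .t 0 b => [K.t 0 b]
      | _ => []) (fun c => FP.const _)) (FP.flatMap (C := K) (m := 1) (FP.var 0)
        (F := fun c _ => match c with
      | .t 1 b => [K.t 1 b]
      | _ => []) (fun c => FP.const _)))
  · intro w
    unfold encPair tr
    simp only [List.flatMap_append, List.flatMap_assoc, List.map_flatMap]
    congr 1
    · refine List.flatMap_congr fun c _ => ?_
      rcases c with _ | _ | b | ⟨i, b⟩
      · rfl
      · rfl
      · rfl
      · fin_cases i <;> rfl
    · refine List.flatMap_congr fun c _ => ?_
      rcases c with _ | _ | b | ⟨i, b⟩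
      · rfl
      · rfl
      · rfl
      · fin_cases i <;> rfl

theorem pt_triple {V : Word × Word × Word → Bool} (hV : PolyTriple V) :
    PT (fun w : List K => [K.a (V (tr 0 w, tr 1 w, tr 2 w))]) := by
  refine pt_pred hV (fun c => match c with
      | .t 0 b => [.inl b]
      | .t 1 b => [.inr (.inl b)]
      | .t _ b => [.inr (.inr b)]
      | _ => []) (fun w => (tr 0 w, tr 1 w, tr 2 w)) (fun w => (w.flatMap fun c => match c with
      | .t 0 b => [K.t 0 b]
      | _ => []) ++ (w.flatMap fun c => match c with
      | .t 1 b => [K.t 1 b]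
      | _ => []) ++ (w.flatMap fun c => match c with
      | .t 2 b => [K.t 2 b]
      | _ => [])) ?_ ?_
  · exact FP.pt (FP.append (FP.append (FP.flatMap (C := K) (m := 1) (FP.var 0)
      (F := fun c _ => match c with
      | .t 0 b => [K.t 0 b]
      | _ => []) (fun c => FP.const _)) (FP.flatMap (C := K) (m := 1) (FP.var 0)
        (F := fun c _ => match c with
      | .t 1 b => [K.t 1 b]
      | _ => []) (fun c => FP.const _))) (FP.flatMap (C := K) (m := 1) (FP.var 0)
        (F := fun c _ => match c with
      | .t 2 b => [K.t 2 b]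
      | _ => []) (fun c => FP.const _)))
  · intro w
    unfold encTriple tr
    simp only [List.flatMap_append, List.flatMap_assoc, List.map_flatMap]
    congr 1
    · congr 1
      · refine List.flatMap_congr fun c _ => ?_
        rcases c with _ | _ | b | ⟨i, b⟩
        · rfl
        · rfl
        · rfl
        · fin_cases i <;> rfl
      · refine List.flatMap_congr fun c _ => ?_
        rcases c with _ | _ | b | ⟨i, b⟩
        · rfl
        · rfl
        · rfl
        · fin_cases i <;> rfl
    · refine List.flatMap_congr fun c _ => ?_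
      rcases c with _ | _ | b | ⟨i, b⟩
      · rfl
      · rfl
      · rfl
      · fin_cases i <;> rfl

theorem fpb_call {g : List K → Bool} (hg : PT (fun w : List K => [K.a (g w)]))
    {X : (Fin m → List K) → List K} (hX : FP m X) : FPB m (fun ρ => g (X ρ)) :=
  (FPB.last (FP.call hg hX) lv).congr fun ρ => rfl

/-- the call of a predicate of pairs -/
theorem FPB.call2 {V : Word × Word → Bool} (hV : PolyPair V) {A B : (Fin m → List K) → Word}
    (hA : FPW m A) (hB : FPW m B) : FPB m (fun ρ => V (A ρ, B ρ)) :=
  (fpb_call (pt_pair hV) (FP.append (hA.onTr 0) (hB.onTr 1))).congr fun ρ => by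
    simp [tr_append, tr_onTr]

/-- the call of a predicate of triples -/
theorem FPB.call3 {V : Word × Word × Word → Bool} (hV : PolyTriple V)
    {A B D : (Fin m → List K) → Word} (hA : FPW m A) (hB : FPW m B) (hD : FPW m D) :
    FPB m (fun ρ => V (A ρ, B ρ, D ρ)) :=
  (fpb_call (pt_triple hV) (FP.append (FP.append (hA.onTr 0) (hB.onTr 1)) (hD.onTr 2))).congr
    fun ρ => by simp [tr_append, tr_onTr]

/-- from the calculus to Turing machines -/
theorem polyPair_of {g : Word → Word → Bool}
    (h : FPB 1 (fun ρ : Fin 1 → List K => g (tr 0 (ρ 0)) (tr 1 (ρ 0)))) :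
    PolyPair (fun z => g z.1 z.2) := by
  have h1 : UT.PT encPair (id : List K → List K) (fun z => onTr 0 z.1 ++ onTr 1 z.2) := by
    have h : PolyFn (fun w : List (Bool ⊕ Bool) => w.flatMap fun c => match c with
      | .inl b => [K.t 0 b]
      | .inr b => [K.t 1 b]) := polyFn_flatMap _
    refine h.computable _ _ _ (fun z => ?_)
    unfold encPair onTr
    rw [id, List.flatMap_append, List.flatMap_map, List.flatMap_map, List.map_eq_flatMap,
      List.map_eq_flatMap]
  have h2 := FP.pt (FP.ite h (FP.const [K.a true]) (FP.const [K.a false]))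
  have h3 : PolyFn (fun w : List K => w.flatMap fun c => match c with
      | .a x => [x]
      | _ => []) := polyFn_flatMap _
  have h4 := UT.H87.cps (UT.H87.cps h1 h2) h3
  obtain ⟨c⟩ := h4
  refine ⟨⟨c.toTM2ComputableAux, c.time, fun z => ?_⟩⟩
  have h5 := c.outputsFun z
  have h6 : ∀ b : Bool, (id (((if b then [K.a true] else [K.a false]) : List K).flatMap
      fun c => match c with
      | .a x => [x]
      | _ => []) : List Bool) = encodeBool b := by
    intro b
    cases b <;> rfl
  have e1 : tr 0 (onTr 0 z.1 ++ onTr 1 z.2) = z.1 := by simp [tr_append, tr_onTr]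
  have e2 : tr 1 (onTr 0 z.1 ++ onTr 1 z.2) = z.2 := by simp [tr_append, tr_onTr]
  simp only [Matrix.cons_val_zero, e1, e2, h6] at h5
  exact h5

theorem FPW.tr {A : (Fin m → List K) → List K} (hA : FP m A) (i : Fin 3) :
    FPW m (fun ρ => tr i (A ρ)) :=
  FP.congr (FP.flatMap hA (F := fun c _ => match c with
      | .t j b => if j = i then [K.a b] else []
      | _ => []) (fun c => FP.const _)) fun ρ => by
    unfold PAR.tr
    rw [List.map_flatMap]
    refine List.flatMap_congr fun c _ => ?_
    rcases c with _ | _ | b | ⟨j, b⟩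
    · rfl
    · rfl
    · rfl
    · show List.map K.a (if j = i then [b] else []) = if j = i then [K.a b] else []
      split_ifs <;> rfl

/-- from a predicate which can be computed from any two words to Turing machines -/
theorem polyPair_of' {g : Word → Word → Bool}
    (h : ∀ (m : ℕ) (A B : (Fin m → List K) → Word), FPW m A → FPW m B →
      FPB m (fun ρ => g (A ρ) (B ρ))) : PolyPair (fun z => g z.1 z.2) :=
  polyPair_of (h 1 _ _ (FPW.tr (FP.var 0) 0) (FPW.tr (FP.var 0) 1))

end Pool.Agent.PAR
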