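import Pool.Agent.Helper7_PAR.Post

/-!
# Parity-P: tables (majority) and frames (minority)
-/

set_option autoImplicit false

namespace Pool.Agent.PAR

variable {n : ℕ}

/-! ### Literals -/

/-- the vector `y` contains the literal `u` (the literals `2 i`, `2 i + 1` mean: coordinate `i` is
false, true) -/
def Has (y : Fin n → Bool) (u : ℕ) : Prop := ∃ h : u / 2 < n, y ⟨u / 2, h⟩ = decide (u % 2 = 1)

theorem has_maj {a b c : Fin n → Bool} {u : ℕ}
    (h : (Has a u ∧ Has b u) ∨ (Has a u ∧ Has c u) ∨ (Has b u ∧ Has c u)) :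
    Has (fun i => maj (a i) (b i) (c i)) u := by
  rcases h with ⟨⟨h, h1⟩, ⟨_, h2⟩⟩ | ⟨⟨h, h1⟩, ⟨_, h2⟩⟩ | ⟨⟨h, h1⟩, ⟨_, h2⟩⟩ <;>
    refine ⟨h, ?_⟩ <;> simp only [h1, h2, maj]
  · generalize decide (u % 2 = 1) = d
    generalize c ⟨u / 2, h⟩ = e
    cases d <;> cases e <;> rfl
  · generalize decide (u % 2 = 1) = d
    generalize b ⟨u / 2, h⟩ = e
    cases d <;> cases e <;> rfl
  · generalize decide (u % 2 = 1) = d
    generalize a ⟨u / 2, h⟩ = e
    cases d <;> cases e <;> rfl

/-- Baker and Pixley -/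
theorem bp (W : Set (Fin n → Bool)) (hW : Cl3 maj W) (hne : W.Nonempty) : ∀ (N : ℕ)
    (S : Finset ℕ), S.card ≤ N → (∀ s ∈ S, ∀ s' ∈ S, ∃ y ∈ W, Has y s ∧ Has y s') →
    ∃ y ∈ W, ∀ s ∈ S, Has y s := by
  intro N
  induction N with
  | zero =>
    intro S hS _
    obtain ⟨y, hy⟩ := hne
    rw [Nat.le_zero, Finset.card_eq_zero] at hS
    subst hS
    exact ⟨y, hy, by simp⟩
  | succ N ih =>
    intro S hS h
    by_cases h3 : 2 < S.card
    · obtain ⟨a, b, c, ha, hb, hc, hab, hac, hbc⟩ := Finset.two_lt_card_iff.1 h3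
      have key : ∀ x ∈ S, ∃ y ∈ W, ∀ s ∈ S, s ≠ x → Has y s := by
        intro x hx
        obtain ⟨y, hy, hy'⟩ := ih (S.erase x) (by
          rw [Finset.card_erase_of_mem hx]
          omega) (fun s hs s' hs' => h s (Finset.mem_of_mem_erase hs) s'
            (Finset.mem_of_mem_erase hs'))
        exact ⟨y, hy, fun s hs hne => hy' s (Finset.mem_erase.2 ⟨hne, hs⟩)⟩
      obtain ⟨y1, h1, h1'⟩ := key a ha
      obtain ⟨y2, h2, h2'⟩ := key b hb
      obtain ⟨y3, h3, h3'⟩ := key c hc
      refine ⟨_, hW y1 h1 y2 h2 y3 h3, fun s hs => has_maj ?_⟩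
      by_cases hsa : s = a
      · subst hsa
        exact Or.inr (Or.inr ⟨h2' s hs hab, h3' s hs hac⟩)
      · by_cases hsb : s = b
        · subst hsb
          exact Or.inr (Or.inl ⟨h1' s hs hsa, h3' s hs hbc⟩)
        · exact Or.inl ⟨h1' s hs hsa, h2' s hs hsb⟩
    · rcases S.eq_empty_or_nonempty with rfl | ⟨a, ha⟩
      · obtain ⟨y, hy⟩ := hne
        exact ⟨y, hy, by simp⟩
      · by_cases hb : ∃ b ∈ S, b ≠ a
        · obtain ⟨b, hb, hba⟩ := hb
          obtain ⟨y, hy, hya, hyb⟩ := h a ha b hb
          refine ⟨y, hy, fun s hs => ?_⟩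
          by_cases hsa : s = a
          · subst hsa; exact hya
          · by_cases hsb : s = b
            · subst hsb; exact hyb
            · exfalso
              apply h3
              exact Finset.two_lt_card_iff.2 ⟨a, b, s, ha, hb, hs, fun h => hba h.symm,
                fun h => hsa h.symm, fun h => hsb h.symm⟩
        · push Not at hb
          obtain ⟨y, hy, hya, -⟩ := h a ha a ha
          refine ⟨y, hy, fun s hs => ?_⟩
          rw [hb s hs]
          exact hya

/-! ### Greedy completion -/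

/-- the literal `2 |w|` is compatible with `u`, `v` and the literals of `w` -/
def ok (n : ℕ) (T w : Word) (u v : ℕ) : Bool :=
  T.getD (u * (2 * n) + 2 * w.length) false && T.getD (v * (2 * n) + 2 * w.length) false &&
    decide (∀ j < w.length,
      T.getD ((2 * j + (w.getD j false).toNat) * (2 * n) + 2 * w.length) false = true)

/-- the greedy completion of the literals `u` and `v` -/
def greedy (n : ℕ) (T : Word) (u v : ℕ) : Word := (fun w => w ++ [!ok n T w u v])^[n] []

theorem length_iter (n : ℕ) (T : Word) (u v : ℕ) (l : ℕ) :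
    ((fun w => w ++ [!ok n T w u v])^[l] []).length = l := by
  induction l with
  | zero => rfl
  | succ l ih => rw [Function.iterate_succ_apply', List.length_append, ih]; rfl

open Classical in
/-- the table of the pairs of literals of elements of `W` -/
noncomputable def tab (W : Set (Fin n → Bool)) : Word :=
  (List.range (2 * n * (2 * n))).map fun m =>
    decide (∃ y ∈ W, Has y (m / (2 * n)) ∧ Has y (m % (2 * n)))

theorem length_tab (W : Set (Fin n → Bool)) : (tab W).length = 2 * n * (2 * n) := by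
  unfold tab
  simp

theorem pair_lt {N u v : ℕ} (hu : u < N) (hv : v < N) : u * N + v < N * N := by
  have : (u + 1) * N ≤ N * N := Nat.mul_le_mul_right _ hu
  rw [Nat.add_mul, Nat.one_mul] at this
  omega

theorem tab_get (W : Set (Fin n → Bool)) {u v : ℕ} (hu : u < 2 * n) (hv : v < 2 * n) :
    (tab W).getD (u * (2 * n) + v) false = true ↔ ∃ y ∈ W, Has y u ∧ Has y v := by
  have h := pair_lt hu hv
  have h0 : 0 < 2 * n := by omega
  have e1 : (u * (2 * n) + v) / (2 * n) = u := by
    rw [Nat.add_comm, Nat.add_mul_div_right _ _ h0, Nat.div_eq_of_lt hv, Nat.zero_add]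
  have e2 : (u * (2 * n) + v) % (2 * n) = v := by
    rw [Nat.add_comm, Nat.add_mul_mod_self_right, Nat.mod_eq_of_lt hv]
  unfold tab
  rw [List.getD_eq_getElem _ _ (by simpa using h)]
  simp [e1, e2]

theorem toNat_lt (b : Bool) : b.toNat < 2 := by cases b <;> simp

theorem has_lit (y : Fin n → Bool) (j : ℕ) (hj : j < n) (b : Bool) :
    Has y (2 * j + b.toNat) ↔ y ⟨j, hj⟩ = b := by
  have e1 : (2 * j + b.toNat) / 2 = j := by
    have := toNat_lt b
    omega
  have e2 : decide ((2 * j + b.toNat) % 2 = 1) = b := by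
    cases b
    · simp
    · simp
  unfold Has
  rw [e2]
  constructor
  · rintro ⟨h, h'⟩
    rw [← h']
    congr 1
    simp [e1]
  · intro h
    refine ⟨by rw [e1]; exact hj, Eq.trans ?_ h⟩
    congr 1
    simp [e1]

theorem greedy_inv (W : Set (Fin n → Bool)) (hW : Cl3 maj W) {u v : ℕ}
    (hu : u < 2 * n) (hv : v < 2 * n) (h : ∃ y ∈ W, Has y u ∧ Has y v) : ∀ l ≤ n,
    ∃ y ∈ W, Has y u ∧ Has y v ∧ ∀ (j : ℕ) (hj : j < n), j < l →
      y ⟨j, hj⟩ = ((fun w => w ++ [!ok n (tab W) w u v])^[l] []).getD j false := by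
  intro l
  induction l with
  | zero =>
    intro _
    obtain ⟨y, h1, h2, h3⟩ := h
    exact ⟨y, h1, h2, h3, fun j _ hj => absurd hj (by omega)⟩
  | succ l ih =>
    intro hl
    obtain ⟨y, hy, hyu, hyv, hyj⟩ := ih (by omega)
    have hlen := length_iter n (tab W) u v l
    rw [Function.iterate_succ_apply']
    generalize (fun w => w ++ [!ok n (tab W) w u v])^[l] [] = w at hlen hyj
    have hln : l < n := by omega
    have hget : ∀ j < l, (w ++ [!ok n (tab W) w u v]).getD j false = w.getD j false := by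
      intro j hj
      rw [List.getD_append _ _ _ _ (by omega)]
    have hlast : (w ++ [!ok n (tab W) w u v]).getD l false = !ok n (tab W) w u v := by
      rw [List.getD_append_right _ _ _ _ (by omega), hlen]
      simp
    have hlit : ∀ j < l, Has y (2 * j + (w.getD j false).toNat) := fun j hj =>
      (has_lit y j (by omega) _).2 (hyj j (by omega) hj)
    have hlt : ∀ j < l, 2 * j + (w.getD j false).toNat < 2 * n := fun j hj => by
      have := toNat_lt (w.getD j false)
      omega
    rcases (Bool.eq_false_or_eq_true (ok n (tab W) w u v)).symm with hok | hok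
    · -- the old vector has the value true
      refine ⟨y, hy, hyu, hyv, fun j hj hjl => ?_⟩
      rcases Nat.lt_succ_iff_lt_or_eq.1 hjl with hjl | rfl
      · rw [hget j hjl]
        exact hyj j hj hjl
      · rw [hlast, hok]
        by_contra hyf
        have hyf' : y ⟨j, hj⟩ = false := by simpa using hyf
        have h2l : Has y (2 * j) := by
          have := (has_lit y j hj false).2 hyf'
          simpa using this
        have : ok n (tab W) w u v = true := by
          unfold ok
          rw [hlen, Bool.and_eq_true, Bool.and_eq_true, decide_eq_true_iff]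
          exact ⟨⟨(tab_get W hu (by omega)).2 ⟨y, hy, hyu, h2l⟩,
            (tab_get W hv (by omega)).2 ⟨y, hy, hyv, h2l⟩⟩,
            fun i hi => (tab_get W (hlt i hi) (by omega)).2 ⟨y, hy, hlit i hi, h2l⟩⟩
        rw [hok] at this
        exact absurd this (by simp)
    · have hok' := hok
      unfold ok at hok'
      rw [hlen, Bool.and_eq_true, Bool.and_eq_true, decide_eq_true_iff] at hok'
      obtain ⟨⟨k1, k2⟩, k3⟩ := hok'
      rw [tab_get W hu (by omega)] at k1
      rw [tab_get W hv (by omega)] at k2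
      have k3' : ∀ j < l, ∃ y ∈ W, Has y (2 * j + (w.getD j false).toNat) ∧ Has y (2 * l) :=
        fun j hj => (tab_get W (hlt j hj) (by omega)).1 (k3 j hj)
      let S : Finset ℕ := insert (2 * l) (insert u (insert v
        ((Finset.range l).image fun j => 2 * j + (w.getD j false).toNat)))
      have hS : ∀ s ∈ S, s = 2 * l ∨ (Has y s ∧ ∃ y ∈ W, Has y s ∧ Has y (2 * l)) := by
        intro s hs
        simp only [S, Finset.mem_insert, Finset.mem_image, Finset.mem_range] at hs
        rcases hs with rfl | rfl | rfl | ⟨j, hj, rfl⟩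
        · exact Or.inl rfl
        · exact Or.inr ⟨hyu, k1⟩
        · exact Or.inr ⟨hyv, k2⟩
        · exact Or.inr ⟨hlit j hj, k3' j hj⟩
      obtain ⟨y', hy', hys⟩ := bp W hW ⟨y, hy⟩ S.card S le_rfl (by
        intro s hs s' hs'
        rcases hS s hs with rfl | ⟨h1, h2⟩
        · rcases hS s' hs' with rfl | ⟨h1', h2'⟩
          · obtain ⟨a, ha, -, ha'⟩ := k1
            exact ⟨a, ha, ha', ha'⟩
          · obtain ⟨a, ha, ha1, ha2⟩ := h2'
            exact ⟨a, ha, ha2, ha1⟩
        · rcases hS s' hs' with rfl | ⟨h1', h2'⟩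
          · exact h2
          · exact ⟨y, hy, h1, h1'⟩)
      refine ⟨y', hy', hys u (by simp [S]), hys v (by simp [S]), fun j hj hjl => ?_⟩
      rcases Nat.lt_succ_iff_lt_or_eq.1 hjl with hjl | rfl
      · rw [hget j hjl]
        refine (has_lit y' j hj _).1 (hys _ ?_)
        simp only [S, Finset.mem_insert, Finset.mem_image, Finset.mem_range]
        exact Or.inr (Or.inr (Or.inr ⟨j, hjl, rfl⟩))
      · rw [hlast, hok]
        have := hys (2 * j) (by simp [S])
        have h2 := (has_lit y' j hj false).1 (by simpa using this)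
        simpa using h2

theorem greedy_mem (W : Set (Fin n → Bool)) (hW : Cl3 maj W) {u v : ℕ}
    (hu : u < 2 * n) (hv : v < 2 * n) (h : ∃ y ∈ W, Has y u ∧ Has y v) :
    ∃ y ∈ W, Has y u ∧ Has y v ∧ List.ofFn y = greedy n (tab W) u v := by
  obtain ⟨y, h1, h2, h3, h4⟩ := greedy_inv W hW hu hv h n le_rfl
  refine ⟨y, h1, h2, h3, ?_⟩
  refine List.ext_getElem ?_ ?_
  · rw [List.length_ofFn]
    exact (length_iter n (tab W) u v n).symm
  · intro j hj hj'
    rw [List.getElem_ofFn]
    rw [List.length_ofFn] at hj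
    have := h4 j hj hj
    rw [this]
    rw [List.getD_eq_getElem]
    rfl

/-! ### Frames -/

/-- the pivots of `W` -/
def Piv (W : Set (Fin n → Bool)) (i : Fin n) : Prop :=
  ∃ s ∈ W, ∃ t ∈ W, (∀ j < i, s j = t j) ∧ s i ≠ t i

theorem piv_det {W : Set (Fin n → Bool)} {s t : Fin n → Bool} (hs : s ∈ W) (ht : t ∈ W)
    (h : ∀ i, Piv W i → s i = t i) : s = t := by
  by_contra hne
  have hex : ∃ i : ℕ, ∃ hi : i < n, s ⟨i, hi⟩ ≠ t ⟨i, hi⟩ := by
    by_contra hcon
    push Not at hcon
    exact hne (funext fun i => hcon i.1 i.2)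
  classical
  obtain ⟨hi, h1⟩ := Nat.find_spec hex
  refine h1 (h _ ⟨s, hs, t, ht, fun j hj => ?_, h1⟩)
  by_contra h2
  exact Nat.find_min hex hj ⟨j.2, h2⟩

theorem piv_ext {W : Set (Fin n → Bool)} (hW : Cl3 mino W) (hne : W.Nonempty)
    (a : Fin n → Bool) : ∃ w ∈ W, ∀ i, Piv W i → w i = a i := by
  have key : ∀ m : ℕ, ∃ w ∈ W, ∀ i : Fin n, i.1 < m → Piv W i → w i = a i := by
    intro m
    induction m with
    | zero =>
      obtain ⟨w, hw⟩ := hne
      exact ⟨w, hw, fun i hi => absurd hi (by omega)⟩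
    | succ m ih =>
      obtain ⟨w, hw, h⟩ := ih
      by_cases hm : ∃ hm : m < n, Piv W ⟨m, hm⟩ ∧ w ⟨m, hm⟩ ≠ a ⟨m, hm⟩
      · obtain ⟨hm, ⟨s, hs, t, ht, hst, hne'⟩, hwa⟩ := hm
        refine ⟨_, hW w hw s hs t ht, fun i hi hp => ?_⟩
        show mino (w i) (s i) (t i) = a i
        rcases Nat.lt_succ_iff_lt_or_eq.1 hi with hi | hi
        · rw [← h i hi hp, hst i hi]
          unfold mino
          rcases w i with _ | _ <;> rcases t i with _ | _ <;> rfl
        · have hi' : i = ⟨m, hm⟩ := Fin.ext hi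
          subst hi'
          unfold mino
          revert hne' hwa
          generalize w ⟨m, hm⟩ = p
          generalize s ⟨m, hm⟩ = q
          generalize t ⟨m, hm⟩ = r
          generalize a ⟨m, hm⟩ = e
          revert p q r e
          decide
      · push Not at hm
        refine ⟨w, hw, fun i hi hp => ?_⟩
        rcases Nat.lt_succ_iff_lt_or_eq.1 hi with hi | hi
        · exact h i hi hp
        · have hm' : m < n := hi ▸ i.2
          have hi' : i = ⟨m, hm'⟩ := Fin.ext hi
          subst hi'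
          exact hm hm' hp
  obtain ⟨w, hw, h⟩ := key n
  exact ⟨w, hw, fun i hp => h i i.2 hp⟩

/-- frames -/
structure Frame (W : Set (Fin n → Bool)) (Q y : Fin n → Bool) (z : Fin n → Fin n → Bool) :
    Prop where
  mem : y ∈ W
  row : ∀ i, Q i = true → z i ∈ W
  one : ∀ i, Q i = true → z i i = true
  zer : ∀ i, Q i = true → y i = false
  pre : ∀ i, Q i = true → ∀ j < i, z i j = y j
  red : ∀ i, Q i = true → ∀ j, j ≠ i → Q j = true → z i j = false
  out : ∀ i, Q i = false → ∀ j, z i j = false

theorem Frame.piv {W : Set (Fin n → Bool)} {Q y : Fin n → Bool} {z : Fin n → Fin n → Bool}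
    (h : Frame W Q y z) {i : Fin n} (hi : Q i = true) : Piv W i :=
  ⟨z i, h.row i hi, y, h.mem, h.pre i hi, by rw [h.one i hi, h.zer i hi]; simp⟩

theorem Frame.unique {W : Set (Fin n → Bool)} {Q y y' : Fin n → Bool}
    {z z' : Fin n → Fin n → Bool} (h : Frame W Q y z) (h' : Frame W Q y' z')
    (hQ : ∀ i, Piv W i → Q i = true) : y = y' ∧ z = z' := by
  refine ⟨piv_det h.mem h'.mem fun i hi => by rw [h.zer i (hQ i hi), h'.zer i (hQ i hi)], ?_⟩
  funext i
  rcases hQi : Q i with _ | _
  · funext j
    rw [h.out i hQi, h'.out i hQi]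
  · refine piv_det (h.row i hQi) (h'.row i hQi) fun j hj => ?_
    by_cases hji : j = i
    · subst hji
      rw [h.one j hQi, h'.one j hQi]
    · rw [h.red i hQi j hji (hQ j hj), h'.red i hQi j hji (hQ j hj)]

open Classical in
theorem exists_frame {W : Set (Fin n → Bool)} (hW : Cl3 mino W) (hne : W.Nonempty) :
    ∃ y z, Frame W (fun i => decide (Piv W i)) y z := by
  obtain ⟨y, hy, hy'⟩ := piv_ext hW hne (fun _ => false)
  choose r hr hr' using fun i : Fin n => piv_ext hW hne (fun j => decide (j = i))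
  refine ⟨y, fun i => if Piv W i then r i else fun _ => false, hy, ?_, ?_, ?_, ?_, ?_, ?_⟩
  · intro i hi
    simp only [decide_eq_true_eq] at hi
    rw [if_pos hi]
    exact hr i
  · intro i hi
    simp only [decide_eq_true_eq] at hi
    rw [if_pos hi, hr' i i hi]
    simp
  · intro i hi
    simp only [decide_eq_true_eq] at hi
    exact hy' i hi
  · intro i hi
    simp only [decide_eq_true_eq] at hi
    rw [if_pos hi]
    intro j
    induction' hj : j.1 using Nat.strong_induction_on with m ih generalizing j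
    intro hji
    by_contra hne'
    have hp : Piv W j := ⟨r i, hr i, y, hy, fun l hl => ih l.1 (by rw [← hj]; exact hl) l rfl
      (hl.trans hji), hne'⟩
    rw [hr' i j hp, hy' j hp] at hne'
    simp only [decide_eq_false_iff_not, not_not] at hne'
    have : j = i := by simpa using hne'
    exact absurd hji (by rw [this]; exact lt_irrefl i)
  · intro i hi j hji hj
    simp only [decide_eq_true_eq] at hi hj
    rw [if_pos hi, hr' i j hj]
    simpa using hji
  · intro i hi j
    simp only [decide_eq_false_iff_not] at hi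
    rw [if_neg hi]

end Pool.Agent.PAR
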