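import Pool.Agent.Helper7_PAR.Key
import Pool.Agent.Helper7_PAR.Tab

/-!
# Parity-P: witness sets closed under a Boolean operation
-/

set_option autoImplicit false

namespace Pool.Agent.PAR

open Turing Computability Pool.Agent.UT.Num Pool.Agent.H2XG
open Pool.Agent.Helper53_CookLevin (size)

/-! ### The certificates -/

/-- a word of one letter -/
abbrev rep (n : ℕ) (b : Bool) : Word := List.replicate n b

/-- first kind -/
def c1 (n : ℕ) (a : Word) : Word := [false, false] ++ (a ++ (rep (2 * n * (2 * n)) false ++
  rep n false))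

/-- second kind -/
def c2 (n : ℕ) (T : Word) : Word := [false, true] ++ (rep n true ++ (T ++ rep n false))

/-- third kind -/
def c3 (n : ℕ) (Q y z : Word) : Word := [true, true] ++ (rep n true ++
  (rep (2 * n * (2 * n)) true ++ (Q ++ (y ++ z))))

/-- does the word contain the literal? -/
def hasW (w : Word) (u : ℕ) : Bool := !(xor (w.getD (u / 2) false) (decide (u % 2 = 1)))

/-- check of a table -/
def val2 (V : Word × Word → Bool) (n : ℕ) (x T : Word) : Bool :=
  decide (T.length = 2 * n * (2 * n)) && decide (∃ m < 2 * n * (2 * n), T.getD m false = true) &&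
    decide (∀ u < 2 * n, decide (∀ v < 2 * n, (!T.getD (u * (2 * n) + v) false ||
      (V (x, greedy n T u v) && hasW (greedy n T u v) u && hasW (greedy n T u v) v)) = true)
        = true)

/-- check of a frame -/
def val3 (V : Word × Word → Bool) (n : ℕ) (x Q y z : Word) : Bool :=
  decide (Q.length = n) && decide (y.length = n) && decide (z.length = n * n) && V (x, y) &&
    decide (∀ i < n, (if Q.getD i false then
      V (x, (z.drop (i * n)).take n) && z.getD (i * n + i) false && !y.getD i false &&
        decide (∀ j < i, (!(xor (z.getD (i * n + j) false) (y.getD j false))) = true) &&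
        decide (∀ j < n, (decide (j = i) || !Q.getD j false || !z.getD (i * n + j) false) = true)
      else decide (∀ j < n, (!z.getD (i * n + j) false) = true)) = true)

/-- the verifier -/
def ver (V : Word × Word → Bool) (p : Polynomial ℕ) (x c : Word) : Bool :=
  (decide (c = c1 (p.eval x.length) ((c.drop 2).take (p.eval x.length))) &&
    decide (((c.drop 2).take (p.eval x.length)).length = p.eval x.length) &&
    V (x, (c.drop 2).take (p.eval x.length))) ||
  (decide (c = c2 (p.eval x.length) ((c.drop (2 + p.eval x.length)).take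
      (2 * p.eval x.length * (2 * p.eval x.length)))) &&
    val2 V (p.eval x.length) x ((c.drop (2 + p.eval x.length)).take
      (2 * p.eval x.length * (2 * p.eval x.length)))) ||
  (decide (c = c3 (p.eval x.length)
      ((c.drop (2 + p.eval x.length + 2 * p.eval x.length * (2 * p.eval x.length))).take
        (p.eval x.length))
      ((c.drop (2 + p.eval x.length + 2 * p.eval x.length * (2 * p.eval x.length) +
        p.eval x.length)).take (p.eval x.length))
      (c.drop (2 + p.eval x.length + 2 * p.eval x.length * (2 * p.eval x.length) +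
        p.eval x.length + p.eval x.length))) &&
    val3 V (p.eval x.length) x
      ((c.drop (2 + p.eval x.length + 2 * p.eval x.length * (2 * p.eval x.length))).take
        (p.eval x.length))
      ((c.drop (2 + p.eval x.length + 2 * p.eval x.length * (2 * p.eval x.length) +
        p.eval x.length)).take (p.eval x.length))
      (c.drop (2 + p.eval x.length + 2 * p.eval x.length * (2 * p.eval x.length) +
        p.eval x.length + p.eval x.length)))

section machine

variable {m : ℕ}

theorem FPW.rep {e : (Fin m → List K) → ℕ} (he : FPN m e) (b : Bool) :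
    FPW m (fun ρ => rep (e ρ) b) :=
  FP.congr (FP.rep he (K.a b)) fun ρ => by rw [List.map_replicate]

theorem FPB.ok {N u v : (Fin m → List K) → ℕ} {T w : (Fin m → List K) → Word}
    (hN : FPN m N) (hu : FPN m u) (hv : FPN m v) (hT : FPW m T) (hw : FPW m w) :
    FPB m (fun ρ => ok (N ρ) (T ρ) (w ρ) (u ρ) (v ρ)) := by
  have h2N := (FPN.const 2).mul hN
  have h2w := (FPN.const 2).mul hw.len
  refine ((FPW.getD hT ((hu.mul h2N).add h2w)).and (FPW.getD hT ((hv.mul h2N).add h2w))).and
    (FPB.all hw.len (b := fun j ρ => (T ρ).getD ((2 * j + ((w ρ).getD j false).toNat) *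
      (2 * N ρ) + 2 * (w ρ).length) false) ?_)
  refine FPW.getD hT.weak (((((FPN.const 2).mul FPN.v0).add ?_).mul h2N.weak).add h2w.weak)
  exact (FPN.ite (FPW.getD hw.weak FPN.v0) (FPN.const 1) (FPN.const 0)).congr fun ρ => by
    rcases (w fun i => ρ i.succ).getD (ρ 0).length false with _ | _ <;> rfl

theorem iter_map {N u v : ℕ} {T : Word} (l : ℕ) :
    (fun w : List K => w ++ [K.a (!PAR.ok N T (w.flatMap fun c => match c with
      | .a b => [b]
      | _ => []) u v)])^[l] [] = ((fun w => w ++ [!PAR.ok N T w u v])^[l] []).map K.a := by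
  induction l with
  | zero => rfl
  | succ l ih =>
    rw [Function.iterate_succ_apply', ih, Function.iterate_succ_apply', List.map_append]
    congr 3
    congr 3
    rw [List.flatMap_map]
    simp

theorem FPW.bits {A : (Fin m → List K) → List K} (hA : FP m A) :
    FPW m (fun ρ => (A ρ).flatMap fun c => match c with
      | .a b => [b]
      | _ => []) :=
  FP.congr (FP.flatMap hA (F := fun c _ => match c with
    | .a b => [K.a b]
    | _ => []) (fun c => FP.const _)) fun ρ => by
    rw [List.map_flatMap]
    refine List.flatMap_congr fun c _ => ?_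
    rcases c with _ | _ | b | ⟨i, b⟩ <;> rfl

theorem FPW.greedy {N u v : (Fin m → List K) → ℕ} {T : (Fin m → List K) → Word}
    (hN : FPN m N) (hu : FPN m u) (hv : FPN m v) (hT : FPW m T) :
    FPW m (fun ρ => greedy (N ρ) (T ρ) (u ρ) (v ρ)) := by
  have hstep : FP (m + 1) (fun σ : Fin (m + 1) → List K => σ 0 ++
      [K.a (!PAR.ok (N fun i => σ i.succ) (T fun i => σ i.succ) ((σ 0).flatMap fun c => match c with
      | .a b => [b]
      | _ => []) (u fun i => σ i.succ) (v fun i => σ i.succ))]) := by
    refine FP.append (FP.var 0) ?_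
    have h := FPB.ok hN.weak hu.weak hv.weak hT.weak (FPW.bits (FP.var 0))
    refine FP.congr (FP.ite h (FP.const [K.a false]) (FP.const [K.a true])) fun σ => ?_
    generalize PAR.ok (N fun i => σ i.succ) (T fun i => σ i.succ) _ (u fun i => σ i.succ)
      (v fun i => σ i.succ) = d
    cases d <;> rfl
  obtain ⟨B, hB⟩ := FP.bound hN
  have h := FP.iterate (N := fun ρ => List.replicate (N ρ) (default : K)) hN (FP.const [])
    hstep B (by
    intro ρ n hn
    simp only [Matrix.cons_val_zero, Matrix.cons_val_succ]
    rw [iter_map, List.length_map, length_iter]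
    exact hn.trans (hB ρ))
  refine FP.congr h fun ρ => ?_
  simp only [Matrix.cons_val_zero, Matrix.cons_val_succ]
  rw [iter_map, List.length_replicate]
  rfl

theorem FPB.hasW {A : (Fin m → List K) → Word} (hA : FPW m A) {u : (Fin m → List K) → ℕ}
    (hu : FPN m u) : FPB m (fun ρ => hasW (A ρ) (u ρ)) :=
  ((FPW.getD hA (hu.div (FPN.const 2))).xor (FPB.eqN (hu.mod (FPN.const 2)) (FPN.const 1))).not

theorem FPB.val2 {V : Word × Word → Bool} (hV : PolyPair V) {N : (Fin m → List K) → ℕ}
    {x T : (Fin m → List K) → Word} (hN : FPN m N) (hx : FPW m x) (hT : FPW m T) :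
    FPB m (fun ρ => val2 V (N ρ) (x ρ) (T ρ)) := by
  have h2N := (FPN.const 2).mul hN
  refine ((FPB.eqN hT.len (h2N.mul h2N)).and (FPB.exists (h2N.mul h2N)
    (b := fun j ρ => (T ρ).getD j false) (FPW.getD hT.weak FPN.v0))).and
    (FPB.all h2N (b := fun u ρ => decide (∀ v < 2 * N ρ, (!(T ρ).getD (u * (2 * N ρ) + v) false ||
      (V (x ρ, greedy (N ρ) (T ρ) u v) && PAR.hasW (greedy (N ρ) (T ρ) u v) u &&
        PAR.hasW (greedy (N ρ) (T ρ) u v) v)) = true))
      (FPB.all h2N.weak (b := fun v σ => !(T fun i => σ i.succ).getD ((σ 0).length *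
        (2 * N fun i => σ i.succ) + v) false ||
      (V (x fun i => σ i.succ, greedy (N fun i => σ i.succ) (T fun i => σ i.succ) (σ 0).length v) &&
        PAR.hasW (greedy (N fun i => σ i.succ) (T fun i => σ i.succ) (σ 0).length v)
          (σ 0).length &&
        PAR.hasW (greedy (N fun i => σ i.succ) (T fun i => σ i.succ) (σ 0).length v) v)) ?_))
  have hu : FPN (m + 1 + 1) (fun σ : Fin (m + 1 + 1) → List K => (σ 1).length) := FPN.v1
  have hv : FPN (m + 1 + 1) (fun σ : Fin (m + 1 + 1) → List K => (σ 0).length) := FPN.v0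
  have hg := FPW.greedy hN.weak.weak hu hv hT.weak.weak
  exact (FPW.getD hT.weak.weak ((hu.mul h2N.weak.weak).add hv)).not.or
    (((FPB.call2 hV hx.weak.weak hg).and (FPB.hasW hg hu)).and (FPB.hasW hg hv))

theorem FPB.val3 {V : Word × Word → Bool} (hV : PolyPair V) {N : (Fin m → List K) → ℕ}
    {x Q y z : (Fin m → List K) → Word} (hN : FPN m N) (hx : FPW m x) (hQ : FPW m Q)
    (hy : FPW m y) (hz : FPW m z) :
    FPB m (fun ρ => val3 V (N ρ) (x ρ) (Q ρ) (y ρ) (z ρ)) := by
  refine ((((FPB.eqN hQ.len hN).and (FPB.eqN hy.len hN)).and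
    (FPB.eqN hz.len (hN.mul hN))).and (FPB.call2 hV hx hy)).and
    (FPB.all hN (b := fun i ρ => if (Q ρ).getD i false then
      V (x ρ, ((z ρ).drop (i * N ρ)).take (N ρ)) && (z ρ).getD (i * N ρ + i) false &&
        !(y ρ).getD i false &&
        decide (∀ j < i, (!(xor ((z ρ).getD (i * N ρ + j) false) ((y ρ).getD j false))) = true) &&
        decide (∀ j < N ρ, (decide (j = i) || !(Q ρ).getD j false ||
          !(z ρ).getD (i * N ρ + j) false) = true)
      else decide (∀ j < N ρ, (!(z ρ).getD (i * N ρ + j) false) = true)) ?_)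
  have hi : FPN (m + 1) (fun σ : Fin (m + 1) → List K => (σ 0).length) := FPN.v0
  have hiN := hi.mul hN.weak
  have hzij : FPB (m + 1 + 1) (fun σ : Fin (m + 1 + 1) → List K =>
      (z fun i => σ i.succ.succ).getD ((σ 1).length * (N fun i => σ i.succ.succ) +
        (σ 0).length) false) :=
    FPW.getD hz.weak.weak ((FPN.v1.mul hN.weak.weak).add FPN.v0)
  refine FPB.ite (FPW.getD hQ.weak hi) (((((FPB.call2 hV hx.weak
    ((hz.weak.drop hiN).take hN.weak)).and (FPW.getD hz.weak (hiN.add hi))).and
    (FPW.getD hy.weak hi).not).and (FPB.all hi (b := fun j σ =>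
      !(xor ((z fun i => σ i.succ).getD ((σ 0).length * (N fun i => σ i.succ) + j) false)
        ((y fun i => σ i.succ).getD j false))) ?_)).and (FPB.all hN.weak (b := fun j σ =>
          decide (j = (σ 0).length) || !(Q fun i => σ i.succ).getD j false ||
          !(z fun i => σ i.succ).getD ((σ 0).length * (N fun i => σ i.succ) + j) false) ?_))
    (FPB.all hN.weak (b := fun j σ =>
      !(z fun i => σ i.succ).getD ((σ 0).length * (N fun i => σ i.succ) + j) false) ?_)
  · exact (hzij.xor (FPW.getD hy.weak.weak FPN.v0)).not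
  · exact ((FPB.eqN FPN.v0 FPN.v1).or (FPW.getD hQ.weak.weak FPN.v0).not).or hzij.not
  · exact hzij.not

theorem good_ver {V : Word × Word → Bool} (hV : PolyPair V) (p : Polynomial ℕ) :
    Good2 (ver V p) := by
  intro m A B hA hB
  have hn := hA.len.poly p
  have h2n := (FPN.const 2).mul hn
  have h4 := h2n.mul h2n
  have ha := (hB.drop (FPN.const 2)).take hn
  have hT := (hB.drop ((FPN.const 2).add hn)).take h4
  have hk := ((FPN.const 2).add hn).add h4
  have hQ := (hB.drop hk).take hn
  have hy := (hB.drop (hk.add hn)).take hn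
  have hz := hB.drop ((hk.add hn).add hn)
  refine ((((FPW.eq hB ?_).and (FPB.eqN ha.len hn)).and (FPB.call2 hV hA ha)).or
    ((FPW.eq hB ?_).and (FPB.val2 hV hn hA hT))).or
    ((FPW.eq hB ?_).and (FPB.val3 hV hn hA hQ hy hz))
  · exact (FPW.const _).append (ha.append ((FPW.rep h4 false).append (FPW.rep hn false)))
  · exact (FPW.const _).append ((FPW.rep hn true).append (hT.append (FPW.rep hn false)))
  · exact (FPW.const _).append ((FPW.rep hn true).append ((FPW.rep h4 true).append
      (hQ.append (hy.append hz))))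

end machine

/-! ### Which certificates are accepted -/

section words

variable {n : ℕ}

/-- the vector of a word -/
def vec (n : ℕ) (w : Word) : Fin n → Bool := fun i => w.getD i false

theorem ofFn_vec {w : Word} (h : w.length = n) : List.ofFn (vec n w) = w := by
  refine ext_getD (by simp [h]) fun i hi => ?_
  rw [List.length_ofFn] at hi
  rw [List.getD_eq_getElem _ _ (by simpa using hi), List.getElem_ofFn]
  rfl

theorem getD_ofFn (y : Fin n → Bool) {i : ℕ} (hi : i < n) :
    (List.ofFn y).getD i false = y ⟨i, hi⟩ := by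
  rw [List.getD_eq_getElem _ _ (by simpa using hi), List.getElem_ofFn]

theorem vec_ofFn (y : Fin n → Bool) : vec n (List.ofFn y) = y := by
  funext i
  exact getD_ofFn y i.2

theorem hasW_iff {w : Word} {u : ℕ} (hu : u < 2 * n) : hasW w u = true ↔ Has (vec n w) u := by
  unfold hasW Has vec
  rw [Bool.not_eq_true', bne_eq_false_iff_eq]
  constructor
  · intro h
    exact ⟨by omega, h⟩
  · rintro ⟨_, h⟩
    exact h

theorem length_greedy (T : Word) (u v : ℕ) : (greedy n T u v).length = n :=
  length_iter n T u v n

variable (V : Word × Word → Bool) (x : Word)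

/-- the witness set -/
def wit (n : ℕ) : Set (Fin n → Bool) := {y | V (x, List.ofFn y) = true}

variable {V x}

theorem val2_le {T : Word} (h : val2 V n x T = true) :
    T.length = 2 * n * (2 * n) ∧ (wit V x n).Nonempty ∧ le T (tab (wit V x n)) = true := by
  unfold val2 at h
  simp only [Bool.and_eq_true, decide_eq_true_eq] at h
  obtain ⟨⟨h1, m, hm, hm'⟩, h3⟩ := h
  have key : ∀ u < 2 * n, ∀ v < 2 * n, T.getD (u * (2 * n) + v) false = true →
      ∃ y ∈ wit V x n, Has y u ∧ Has y v := by
    intro u hu v hv huv
    have h4 := h3 u hu v hv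
    rw [huv] at h4
    simp only [Bool.not_true, Bool.false_or, Bool.and_eq_true] at h4
    refine ⟨vec n (greedy n T u v), ?_, (hasW_iff hu).1 h4.1.2, (hasW_iff hv).1 h4.2⟩
    show V (x, List.ofFn _) = true
    rw [ofFn_vec (length_greedy T u v)]
    exact h4.1.1
  have hdm : ∀ m < 2 * n * (2 * n), m / (2 * n) < 2 * n ∧ m % (2 * n) < 2 * n ∧
      m / (2 * n) * (2 * n) + m % (2 * n) = m := by
    intro m hm
    have h0 : 0 < 2 * n := by
      rcases Nat.eq_zero_or_pos (2 * n) with h | h
      · rw [h] at hm
        omega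
      · exact h
    exact ⟨Nat.div_lt_of_lt_mul hm, Nat.mod_lt _ h0, Nat.div_add_mod' m (2 * n)⟩
  refine ⟨h1, ?_, ?_⟩
  · obtain ⟨a, b, c⟩ := hdm m hm
    rw [← c] at hm'
    obtain ⟨y, hy, -⟩ := key _ a _ b hm'
    exact ⟨y, hy⟩
  · rw [le_iff]
    intro i hi hT
    rw [h1] at hi
    obtain ⟨a, b, c⟩ := hdm i hi
    rw [← c] at hT ⊢
    exact (tab_get _ a b).2 (key _ a _ b hT)

theorem val2_tab (hW : Cl3 maj (wit V x n)) (hne : (wit V x n).Nonempty) (hn : 0 < n) :
    val2 V n x (tab (wit V x n)) = true := by
  unfold val2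
  simp only [Bool.and_eq_true, decide_eq_true_eq]
  refine ⟨⟨length_tab _, ?_⟩, ?_⟩
  · obtain ⟨y, hy⟩ := hne
    have hh : Has y (2 * 0 + (y ⟨0, hn⟩).toNat) := (has_lit y 0 hn _).2 rfl
    have hlt : 2 * 0 + (y ⟨0, hn⟩).toNat < 2 * n := by
      have := toNat_lt (y ⟨0, hn⟩)
      omega
    exact ⟨_, pair_lt hlt hlt, (tab_get _ hlt hlt).2 ⟨y, hy, hh, hh⟩⟩
  · intro u hu v hv
    rcases ht : (tab (wit V x n)).getD (u * (2 * n) + v) false with _ | _
    · simp
    · obtain ⟨y, hy, hyu, hyv, he⟩ := greedy_mem (wit V x n) hW hu hv ((tab_get _ hu hv).1 ht)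
      rw [← he]
      simp only [Bool.not_true, Bool.false_or, Bool.and_eq_true]
      refine ⟨⟨hy, ?_⟩, ?_⟩
      · rw [hasW_iff hu, vec_ofFn]
        exact hyu
      · rw [hasW_iff hv, vec_ofFn]
        exact hyv

theorem row_eq {z : Word} (hz : z.length = n * n) {i : ℕ} (hi : i < n) :
    (z.drop (i * n)).take n = List.ofFn (fun j : Fin n => z.getD (i * n + j) false) := by
  have h1 : i * n + n ≤ n * n := by
    have : (i + 1) * n ≤ n * n := Nat.mul_le_mul_right _ hi
    rw [Nat.add_mul, Nat.one_mul] at this
    exact this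
  refine ext_getD ?_ fun j hj => ?_
  · rw [List.length_take, List.length_drop, List.length_ofFn, hz]
    omega
  · rw [List.length_take, List.length_drop, hz] at hj
    have hjn : j < n := by omega
    rw [getD_ofFn _ hjn, List.getD_eq_getElem?_getD, List.getElem?_take_of_lt hjn,
      List.getElem?_drop, ← List.getD_eq_getElem?_getD]

/-- the frame of words -/
theorem val3_iff {Q y z : Word} : val3 V n x Q y z = true ↔
    Q.length = n ∧ y.length = n ∧ z.length = n * n ∧
      Frame (wit V x n) (vec n Q) (vec n y) (fun i j => z.getD (i * n + j) false) := by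
  unfold val3
  simp only [Bool.and_eq_true, decide_eq_true_eq]
  constructor
  · rintro ⟨⟨⟨⟨h1, h2⟩, h3⟩, h4⟩, h5⟩
    refine ⟨h1, h2, h3, ?_, ?_, ?_, ?_, ?_, ?_, ?_⟩
    · show V (x, List.ofFn _) = true
      rw [ofFn_vec h2]
      exact h4
    · intro i hi
      have h6 := h5 i i.2
      rw [if_pos (show Q.getD (i : ℕ) false = true from hi)] at h6
      simp only [Bool.and_eq_true] at h6
      show V (x, List.ofFn _) = true
      rw [← row_eq h3 i.2]
      exact h6.1.1.1.1
    · intro i hi
      have h6 := h5 i i.2
      rw [if_pos (show Q.getD (i : ℕ) false = true from hi)] at h6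
      simp only [Bool.and_eq_true] at h6
      exact h6.1.1.1.2
    · intro i hi
      have h6 := h5 i i.2
      rw [if_pos (show Q.getD (i : ℕ) false = true from hi)] at h6
      simp only [Bool.and_eq_true] at h6
      have h7 := h6.1.1.2
      show y.getD i false = false
      simpa using h7
    · intro i hi j hj
      have h6 := h5 i i.2
      rw [if_pos (show Q.getD (i : ℕ) false = true from hi)] at h6
      simp only [Bool.and_eq_true, decide_eq_true_eq] at h6
      have h7 := h6.1.2 j hj
      show z.getD (i * n + j) false = y.getD j false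
      simpa using h7
    · intro i hi j hji hj
      have h6 := h5 i i.2
      rw [if_pos (show Q.getD (i : ℕ) false = true from hi)] at h6
      simp only [Bool.and_eq_true, decide_eq_true_eq] at h6
      have h7 := h6.2 j j.2
      have h8 : ¬ (j : ℕ) = i := fun h => hji (Fin.ext h)
      have h9 : Q.getD (j : ℕ) false = true := hj
      show z.getD (i * n + j) false = false
      rw [h9] at h7
      simpa [h8] using h7
    · intro i hi j
      have h6 := h5 i i.2
      have hi' : Q.getD (i : ℕ) false = false := hi
      rw [hi'] at h6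
      simp only [Bool.false_eq_true, if_false, decide_eq_true_eq] at h6
      have h7 := h6 j j.2
      show z.getD (i * n + j) false = false
      simpa using h7
  · rintro ⟨h1, h2, h3, hF⟩
    refine ⟨⟨⟨⟨h1, h2⟩, h3⟩, ?_⟩, ?_⟩
    · have := hF.mem
      have h4 : V (x, List.ofFn (vec n y)) = true := this
      rwa [ofFn_vec h2] at h4
    · intro i hi
      rcases hQ : Q.getD i false with _ | _
      · simp only [Bool.false_eq_true, if_false, decide_eq_true_eq]
        intro j hj
        have := hF.out ⟨i, hi⟩ hQ ⟨j, hj⟩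
        simpa using this
      · simp only [if_true, Bool.and_eq_true, decide_eq_true_eq]
        refine ⟨⟨⟨⟨?_, ?_⟩, ?_⟩, ?_⟩, ?_⟩
        · have h4 : V (x, List.ofFn _) = true := hF.row ⟨i, hi⟩ hQ
          rw [row_eq h3 hi]
          exact h4
        · exact hF.one ⟨i, hi⟩ hQ
        · have := hF.zer ⟨i, hi⟩ hQ
          have h4 : y.getD i false = false := this
          rw [h4]
          rfl
        · intro j hj
          have := hF.pre ⟨i, hi⟩ hQ ⟨j, hj.trans hi⟩ (by exact hj)
          have h4 : z.getD (i * n + j) false = y.getD j false := this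
          rw [h4]
          simp
        · intro j hj
          by_cases hji : j = i
          · simp [hji]
          · rcases hQj : Q.getD j false with _ | _
            · simp
            · have := hF.red ⟨i, hi⟩ hQ ⟨j, hj⟩ (fun h => hji (congrArg Fin.val h)) hQj
              have h4 : z.getD (i * n + j) false = false := this
              rw [h4]
              simp

/-- the word of a matrix -/
def zw (z : Fin n → Fin n → Bool) : Word := (List.range (n * n)).map fun m =>
  if h : m / n < n ∧ m % n < n then z ⟨m / n, h.1⟩ ⟨m % n, h.2⟩ else false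

theorem zw_get (z : Fin n → Fin n → Bool) (i j : Fin n) :
    (zw z).getD (i * n + j) false = z i j := by
  have h := pair_lt i.2 j.2
  have h0 : 0 < n := i.pos
  have e1 : (i * n + j : ℕ) / n = i := by
    rw [Nat.add_comm, Nat.add_mul_div_right _ _ h0, Nat.div_eq_of_lt j.2, Nat.zero_add]
  have e2 : (i * n + j : ℕ) % n = j := by
    rw [Nat.add_comm, Nat.add_mul_mod_self_right, Nat.mod_eq_of_lt j.2]
  unfold zw
  rw [List.getD_eq_getElem _ _ (by simpa using h)]
  simp [e1, e2]

theorem frame_word_ext {z z' : Word} (hz : z.length = n * n) (hz' : z'.length = n * n)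
    (h : (fun i j : Fin n => z.getD (i * n + j) false) =
      fun i j : Fin n => z'.getD (i * n + j) false) : z = z' := by
  refine ext_getD (hz.trans hz'.symm) fun m hm => ?_
  rw [hz] at hm
  have h0 : 0 < n := by
    rcases Nat.eq_zero_or_pos n with h | h
    · rw [h] at hm
      omega
    · exact h
  have h1 : m / n < n := Nat.div_lt_of_lt_mul hm
  have h2 : m % n < n := Nat.mod_lt _ h0
  have h3 := congrFun (congrFun h ⟨m / n, h1⟩) ⟨m % n, h2⟩
  simp only [Nat.div_add_mod'] at h3
  exact h3

end words

end Pool.Agent.PAR
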