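import Pool.Agent.Helper7_PAR.Comb

/-!
# Parity-P: the number of the nonempty cliques of a dismantlable graph is odd
-/

set_option autoImplicit false

namespace Pool.Agent.PAR

section cliques

variable {α : Type}

/-- The graph with adjacency `A` on the set `S` is dismantlable: it has a vertex `m` and a rank
function such that every other vertex `v` has a neighbour `u` of smaller rank with the property that
every neighbour of `v` whose rank is at most the rank of `v` is equal or adjacent to `u`. -/
def Dismantlable (S : Set α) (A : α → α → Prop) : Prop :=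
  ∃ (m : α) (rank : α → ℕ), m ∈ S ∧ ∀ v ∈ S, v ≠ m → ∃ u ∈ S, rank u < rank v ∧ A v u ∧
    ∀ y ∈ S, rank y ≤ rank v → A v y → y ≠ u → A y u

/-- finite cliques -/
def Clq (S : Set α) (A : α → α → Prop) : Set (Finset α) :=
  {s | (∀ a ∈ s, a ∈ S) ∧ ∀ a ∈ s, ∀ b ∈ s, a ≠ b → A a b}

theorem clq_finite {S : Set α} (hS : S.Finite) (A : α → α → Prop) : (Clq S A).Finite := by
  classical
  refine (hS.toFinset.powerset.finite_toSet).subset ?_
  intro s hs
  simp only [Finset.coe_powerset, Set.mem_preimage, Set.mem_powerset_iff]
  intro a ha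
  simpa using hs.1 a ha

theorem even_of_toggle {T : Set (Finset α)} (hT : T.Finite) [DecidableEq α] (u : α)
    (h1 : ∀ s ∈ T, insert u s ∈ T) (h2 : ∀ s ∈ T, s.erase u ∈ T) : Even T.ncard := by
  let T0 : Set (Finset α) := {s | s ∈ T ∧ u ∉ s}
  let T1 : Set (Finset α) := {s | s ∈ T ∧ u ∈ s}
  have hT0 : T0.Finite := hT.subset fun l hl => hl.1
  have hT1 : T1.Finite := hT.subset fun l hl => hl.1
  have him : T1 = (insert u) '' T0 := by
    ext s
    constructor
    · rintro ⟨hs, hus⟩
      exact ⟨s.erase u, ⟨h2 s hs, by simp⟩, Finset.insert_erase hus⟩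
    · rintro ⟨s, ⟨hs, hus⟩, rfl⟩
      exact ⟨h1 s hs, by simp⟩
  have hinj : Set.InjOn (insert u) T0 := by
    intro s hs t ht h
    have := congrArg (fun z : Finset α => z.erase u) h
    simpa [Finset.erase_insert hs.2, Finset.erase_insert ht.2] using this
  have hun : T = T0 ∪ T1 := by
    ext s
    by_cases h : u ∈ s
    · simp [T0, T1, h]
    · simp [T0, T1, h]
  have hdis : Disjoint T0 T1 := by
    rw [Set.disjoint_left]
    intro s h1 h2
    exact h1.2 h2.2
  have hc : T1.ncard = T0.ncard := by
    rw [him]
    exact Set.InjOn.ncard_image hinj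
  rw [hun, Set.ncard_union_eq hdis hT0 hT1, hc]
  exact ⟨_, rfl⟩

theorem clq_aux (A : α → α → Prop) (hsym : ∀ a b, A a b → A b a) (m : α) (rank : α → ℕ) :
    ∀ (n : ℕ) (S : Set α), S.Finite → S.ncard = n → m ∈ S →
      (∀ v ∈ S, v ≠ m → ∃ u ∈ S, rank u < rank v ∧ A v u ∧
        ∀ y ∈ S, rank y ≤ rank v → A v y → y ≠ u → A y u) → Even (Clq S A).ncard := by
  classical
  intro n
  induction n with
  | zero =>
    intro S hS hn hm
    rw [Set.ncard_eq_zero hS] at hn
    simp [hn] at hm
  | succ n ih =>
    intro S hS hn hm hdis
    by_cases hone : ∀ v ∈ S, v = m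
    · have hSm : S = {m} := by
        ext v
        constructor
        · exact fun hv => hone v hv
        · rintro rfl
          exact hm
      have hC : Clq S A = {∅, {m}} := by
        ext s
        constructor
        · rintro ⟨h1, -⟩
          rw [Set.mem_insert_iff, Set.mem_singleton_iff]
          rcases s.eq_empty_or_nonempty with h | ⟨a, ha⟩
          · exact Or.inl h
          · right
            ext b
            rw [Finset.mem_singleton]
            constructor
            · exact fun hb => hone b (h1 b hb)
            · rintro rfl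
              rwa [← hone a (h1 a ha)]
        · rintro (rfl | rfl)
          · exact ⟨by simp, by simp⟩
          · refine ⟨by simpa using hm, ?_⟩
            intro a ha b hb hab
            rw [Finset.mem_singleton] at ha hb
            exact absurd (ha.trans hb.symm) hab
      rw [hC, Set.ncard_pair (by
        intro h
        have : m ∈ (∅ : Finset α) := h ▸ Finset.mem_singleton_self m
        simp at this)]
      exact ⟨1, rfl⟩
    · push Not at hone
      obtain ⟨w, hw, hwm⟩ := hone
      obtain ⟨v, hvS, hvmax⟩ := Set.exists_max_image S rank hS ⟨m, hm⟩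
      -- the rank of m is minimal
      obtain ⟨z, hzS, hzmin⟩ := Set.exists_min_image S rank hS ⟨m, hm⟩
      have hzm : z = m := by
        by_contra h
        obtain ⟨u, hu, hlt, -⟩ := hdis z hzS h
        exact absurd (hzmin u hu) (by omega)
      subst hzm
      have hvm : v ≠ z := by
        rintro rfl
        obtain ⟨u, hu, hlt, -⟩ := hdis w hw hwm
        have h1 := hvmax w hw
        have h2 := hzmin u hu
        omega
      obtain ⟨u, hu, hlt, hvu, hdom⟩ := hdis v hvS hvm
      have huv : u ≠ v := by
        rintro rfl
        omega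
      -- cliques without v
      have e0 : Even (Clq (S \ {v}) A).ncard := by
        refine ih (S \ {v}) (hS.subset Set.sdiff_subset) ?_ ⟨hm, by simpa using hvm.symm⟩ ?_
        · rw [Set.ncard_sdiff_singleton_of_mem hvS, hn]
          rfl
        · rintro a ⟨ha, hav⟩ ham
          obtain ⟨b, hb, hlt', hab, hdom'⟩ := hdis a ha ham
          refine ⟨b, ⟨hb, ?_⟩, hlt', hab, fun y hy => hdom' y hy.1⟩
          rintro rfl
          have := hvmax a ha
          omega
      have hC := clq_finite hS A
      let T1 : Set (Finset α) := {s | s ∈ Clq S A ∧ v ∈ s}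
      have hT1 : T1.Finite := hC.subset fun s hs => hs.1
      have e1 : Even T1.ncard := by
        refine even_of_toggle hT1 u ?_ ?_
        · rintro s ⟨⟨h1, h2⟩, h3⟩
          refine ⟨⟨?_, ?_⟩, by simp [h3]⟩
          · intro a ha
            rcases Finset.mem_insert.1 ha with rfl | ha
            · exact hu
            · exact h1 a ha
          · have key : ∀ y ∈ s, y ≠ u → A y u := by
              intro y hy hyu
              by_cases hyv : y = v
              · subst hyv
                exact hvu
              · exact hdom y (h1 y hy) (hvmax y (h1 y hy)) (h2 v h3 y hy (Ne.symm hyv)) hyu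
            intro a ha b hb hab
            rcases Finset.mem_insert.1 ha with ha' | ha'
            · rcases Finset.mem_insert.1 hb with hb' | hb'
              · exact absurd (ha'.trans hb'.symm) hab
              · rw [ha']
                exact hsym _ _ (key b hb' (fun h => hab (ha'.trans h.symm)))
            · rcases Finset.mem_insert.1 hb with hb' | hb'
              · rw [hb']
                exact key a ha' (fun h => hab (h.trans hb'.symm))
              · exact h2 a ha' b hb' hab
        · rintro s ⟨⟨h1, h2⟩, h3⟩
          refine ⟨⟨fun a ha => h1 a (Finset.mem_of_mem_erase ha), fun a ha b hb =>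
            h2 a (Finset.mem_of_mem_erase ha) b (Finset.mem_of_mem_erase hb)⟩, ?_⟩
          exact Finset.mem_erase.2 ⟨Ne.symm huv, h3⟩
      have hun : Clq S A = Clq (S \ {v}) A ∪ T1 := by
        ext s
        constructor
        · intro hs
          by_cases h : v ∈ s
          · exact Or.inr ⟨hs, h⟩
          · refine Or.inl ⟨fun a ha => ⟨hs.1 a ha, ?_⟩, hs.2⟩
            rintro rfl
            exact h ha
        · rintro (hs | hs)
          · exact ⟨fun a ha => (hs.1 a ha).1, hs.2⟩
          · exact hs.1
      have hdis2 : Disjoint (Clq (S \ {v}) A) T1 := by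
        rw [Set.disjoint_left]
        intro s h1 h2
        exact (h1.1 v h2.2).2 rfl
      rw [hun, Set.ncard_union_eq hdis2 (clq_finite (hS.subset Set.sdiff_subset) A) hT1]
      exact e0.add e1

/-- **The number of the cliques of a dismantlable graph, the empty one included, is even.** -/
theorem even_clq {S : Set α} (hS : S.Finite) {A : α → α → Prop} (hsym : ∀ a b, A a b → A b a)
    (h : Dismantlable S A) : Even (Clq S A).ncard := by
  obtain ⟨m, rank, hm, h⟩ := h
  exact clq_aux A hsym m rank _ S hS rfl hm h

/-- **Lists**: cliques written in increasing order. -/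
theorem odd_chains_of_dismantlable {β : Type} [LinearOrder β] {S : Set α} (hS : S.Finite)
    {r : α → α → Prop} (f : α → β)
    (hf : ∀ u ∈ S, ∀ v ∈ S, r u v → u ≠ v → f u < f v)
    (h : Dismantlable S (fun u v => (r u v ∨ r v u) ∧ u ≠ v)) :
    Odd ({l | l ∈ Chains S r ∧ l ≠ []} : Set (List α)).ncard := by
  classical
  set A : α → α → Prop := fun u v => (r u v ∨ r v u) ∧ u ≠ v with hA
  have hsym : ∀ a b, A a b → A b a := fun a b h => ⟨h.1.symm, h.2.symm⟩
  have hev := even_clq hS hsym h
  have him : Clq S A = (fun l : List α => l.toFinset) '' Chains S r := by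
    ext s
    constructor
    · rintro ⟨h1, h2⟩
      let l := s.toList.insertionSort (fun a b => f a ≤ f b)
      have hmem : ∀ a, a ∈ l ↔ a ∈ s := by
        intro a
        simp [l, (List.perm_insertionSort _ _).mem_iff]
      have hnd : l.Nodup := (List.perm_insertionSort _ _).nodup_iff.2 s.nodup_toList
      refine ⟨l, ⟨fun u hu => h1 u ((hmem u).1 hu), ?_⟩, ?_⟩
      · have hs : l.Pairwise (fun a b => f a ≤ f b) := by
          have : Std.Total (fun a b : α => f a ≤ f b) := ⟨fun a b => le_total _ _⟩
          have : IsTrans α (fun a b : α => f a ≤ f b) := ⟨fun a b c => le_trans⟩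
          exact List.pairwise_insertionSort _ _
        have hp := List.pairwise_iff_getElem.1 hs
        refine List.pairwise_iff_getElem.2 ?_
        intro i j hi hj hij
        have h3 := hp i j hi hj hij
        have hne : l[i] ≠ l[j] := by
          intro h
          have := (List.Nodup.getElem_inj_iff hnd).1 h
          omega
        have hiS := (hmem l[i]).1 (List.getElem_mem hi)
        have hjS := (hmem l[j]).1 (List.getElem_mem hj)
        refine ⟨?_, hne⟩
        rcases (h2 _ hiS _ hjS hne).1 with h4 | h4
        · exact h4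
        · exfalso
          have := hf _ (h1 _ hjS) _ (h1 _ hiS) h4 (Ne.symm hne)
          exact absurd h3 (not_le.2 this)
      · ext a
        simp [hmem]
    · rintro ⟨l, ⟨h1, h2⟩, rfl⟩
      refine ⟨fun a ha => h1 a (by simpa using ha), ?_⟩
      intro a ha b hb hab
      simp only [List.mem_toFinset] at ha hb
      obtain ⟨i, hi, rfl⟩ := List.mem_iff_getElem.1 ha
      obtain ⟨j, hj, rfl⟩ := List.mem_iff_getElem.1 hb
      have h3 := List.pairwise_iff_getElem.1 h2
      rcases lt_trichotomy i j with hij | hij | hij
      · exact ⟨Or.inl (h3 i j hi hj hij).1, hab⟩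
      · subst hij
        exact absurd rfl hab
      · exact ⟨Or.inr (h3 j i hj hi hij).1, hab⟩
  have hinj : Set.InjOn (fun l : List α => l.toFinset) (Chains S r) := by
    intro l hl l' hl' h
    have nd : ∀ l ∈ Chains S r, l.Nodup := fun l hl => hl.2.imp fun {a b} h => h.2
    have hp : l.Perm l' := (List.perm_ext_iff_of_nodup (nd l hl) (nd l' hl')).2 fun a => by
      have h' : l.toFinset = l'.toFinset := h
      have := Finset.ext_iff.1 h' a
      simpa using this
    have srt : ∀ l ∈ Chains S r, l.Pairwise (fun a b => f a < f b) := by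
      intro l hl
      refine List.pairwise_iff_getElem.2 fun i j hi hj hij => ?_
      have h3 := List.pairwise_iff_getElem.1 hl.2 i j hi hj hij
      exact hf _ (hl.1 _ (List.getElem_mem hi)) _ (hl.1 _ (List.getElem_mem hj)) h3.1 h3.2
    exact hp.eq_of_pairwise (fun a b _ _ h1 h2 => absurd h2 (not_lt.2 h1.le)) (srt l hl) (srt l' hl')
  have hCf : (Chains S r).Finite := by
    refine Set.Finite.of_finite_image ?_ hinj
    rw [← him]
    exact clq_finite hS A
  have hc : (Clq S A).ncard = (Chains S r).ncard := by
    rw [him]
    exact Set.InjOn.ncard_image hinj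
  have hnil : ([] : List α) ∈ Chains S r := ⟨by simp, List.Pairwise.nil⟩
  have h2 : ({l | l ∈ Chains S r ∧ l ≠ []} : Set (List α)) = Chains S r \ {[]} := by
    ext l
    simp
  rw [h2, Set.ncard_sdiff_singleton_of_mem hnil, ← hc]
  have h3 : 0 < (Clq S A).ncard := by
    rw [Set.ncard_pos (clq_finite hS A)]
    exact ⟨∅, by simp, by simp⟩
  obtain ⟨k, hk⟩ := hev
  exact ⟨k - 1, by omega⟩

/-- **Joins with one element.** In a finite partially ordered set with an element `t` such that
all joins `u ⊔ t` exist the number of the nonempty chains is odd. -/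
theorem odd_chains_join {S : Set α} (hS : S.Finite) {r : α → α → Prop}
    (has : ∀ u ∈ S, ∀ v ∈ S, r u v → r v u → u = v)
    (htr : ∀ u ∈ S, ∀ v ∈ S, ∀ w ∈ S, r u v → r v w → r u w)
    (t : α) (ht : t ∈ S) (g : α → α)
    (hg : ∀ u ∈ S, g u ∈ S ∧ (u = g u ∨ r u (g u)) ∧ (t = g u ∨ r t (g u)) ∧
      ∀ v ∈ S, (u = v ∨ r u v) → (t = v ∨ r t v) → (g u = v ∨ r (g u) v)) :
    Odd ({l | l ∈ Chains S r ∧ l ≠ []} : Set (List α)).ncard := by
  classical
  let cnt : α → ℕ := fun u => ({w | w ∈ S ∧ r w u ∧ w ≠ u} : Set α).ncard
  have hfin : ∀ u, ({w | w ∈ S ∧ r w u ∧ w ≠ u} : Set α).Finite := fun u =>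
    hS.subset fun w hw => hw.1
  have hcnt : ∀ u ∈ S, ∀ v ∈ S, r u v → u ≠ v → cnt u < cnt v := by
    intro u hu v hv huv hne
    refine Set.ncard_lt_ncard ?_ (hfin v)
    refine ⟨?_, fun h => ?_⟩
    · rintro w ⟨hw, hwu, hwne⟩
      refine ⟨hw, htr w hw u hu v hv hwu huv, ?_⟩
      rintro rfl
      exact hne (has u hu w hw huv hwu)
    · exact (h ⟨hu, huv, hne⟩).2.2 rfl
  refine odd_chains_of_dismantlable hS cnt hcnt ?_
  let rank : α → ℕ := fun v => if v = t then 0 else if r t v then 1 else 2 + cnt v
  refine ⟨t, rank, ht, ?_⟩
  intro v hv hvt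
  by_cases h1 : r t v
  · refine ⟨t, ht, ?_, ⟨Or.inr h1, hvt⟩, ?_⟩
    · have e1 : rank t = 0 := if_pos rfl
      have e2 : rank v = 1 := by
        show (if v = t then 0 else if r t v then 1 else 2 + cnt v) = 1
        rw [if_neg hvt, if_pos h1]
      omega
    · intro y hy hyr hvy hyt
      refine ⟨Or.inr ?_, hyt⟩
      by_contra h2
      have e2 : rank v = 1 := by
        show (if v = t then 0 else if r t v then 1 else 2 + cnt v) = 1
        rw [if_neg hvt, if_pos h1]
      have e3 : rank y = 2 + cnt y := by
        show (if y = t then 0 else if r t y then 1 else 2 + cnt y) = 2 + cnt y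
        rw [if_neg hyt, if_neg h2]
      omega
  · obtain ⟨hgS, hug, htg, hmin⟩ := hg v hv
    have hne : v ≠ g v := by
      intro h
      rcases htg with h2 | h2
      · exact hvt (h.trans h2.symm)
      · exact h1 (h ▸ h2)
    have hvg : r v (g v) := by
      rcases hug with h | h
      · exact absurd h hne
      · exact h
    have ev : rank v = 2 + cnt v := by
      show (if v = t then 0 else if r t v then 1 else 2 + cnt v) = 2 + cnt v
      rw [if_neg hvt, if_neg h1]
    refine ⟨g v, hgS, ?_, ⟨Or.inl hvg, hne⟩, ?_⟩
    · rw [ev]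
      show (if g v = t then 0 else if r t (g v) then 1 else 2 + cnt (g v)) < 2 + cnt v
      split_ifs with h2 h3
      · omega
      · omega
      · rcases htg with h4 | h4
        · exact absurd h4.symm h2
        · exact absurd h4 h3
    · intro y hy hyr hvy hyg
      refine ⟨?_, hyg⟩
      rcases hvy.1 with h2 | h2
      · -- v < y
        have h3 : t = y ∨ r t y := by
          by_contra h4
          push Not at h4
          have ey : rank y = 2 + cnt y := by
            show (if y = t then 0 else if r t y then 1 else 2 + cnt y) = 2 + cnt y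
            rw [if_neg (Ne.symm h4.1), if_neg h4.2]
          have := hcnt v hv y hy h2 hvy.2
          omega
        rcases hmin y hy (Or.inr h2) h3 with h4 | h4
        · exact absurd h4.symm hyg
        · exact Or.inr h4
      · -- y < v
        exact Or.inl (htr y hy v hv (g v) hgS h2 hvg)

end cliques

end Pool.Agent.PAR
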