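import Mathlib

/-!
# Parity-P and structured witness sets: definitions (MP_0fc649_lc)

* binary words, polynomial-time decidable predicates of pairs and triples of words, the class
  parity-P and NP verifiers, in terms of Mathlib's `Turing.TM2ComputableInPolyTime`;
* sets of Boolean vectors closed under a Boolean operation, delta-matroids.
-/

namespace Pool.Agent.PAR

open Turing Computability

/-- A binary word. -/
abbrev Word := List Bool

/-- The encoding of a pair of binary words: the first word, with its letters marked by `inl`,
followed by the second word, with its letters marked by `inr`. -/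
def encPair (z : Word × Word) : List (Bool ⊕ Bool) := z.1.map Sum.inl ++ z.2.map Sum.inr

/-- The encoding of a triple of binary words: the three words one after the other, with their
letters marked by `inl`, `inr ∘ inl` and `inr ∘ inr`. -/
def encTriple (z : Word × Word × Word) : List (Bool ⊕ Bool ⊕ Bool) :=
  z.1.map Sum.inl ++ z.2.1.map (fun b => Sum.inr (Sum.inl b)) ++
    z.2.2.map (fun b => Sum.inr (Sum.inr b))

/-- The predicate `V` of pairs of binary words is decidable in polynomial time. -/
def PolyPair (V : Word × Word → Bool) : Prop :=
  Nonempty (TM2ComputableInPolyTime encPair encodeBool V)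

/-- The predicate `R` of triples of binary words is decidable in polynomial time. -/
def PolyTriple (R : Word × Word × Word → Bool) : Prop :=
  Nonempty (TM2ComputableInPolyTime encTriple encodeBool R)

/-- The words `y` of length at most `q |x|` which are accepted by `V` together with `x`. -/
def witnesses (V : Word × Word → Bool) (q : Polynomial ℕ) (x : Word) : Set Word :=
  {y | y.length ≤ q.eval x.length ∧ V (x, y) = true}

/-- The class parity-P: for some predicate `V` decidable in polynomial time and some polynomial
`q`, a word `x` is in `L` if and only if the number of the words `y` with `|y| ≤ q |x|` and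
`V (x, y)` is odd. -/
def InParityP (L : Set Word) : Prop :=
  ∃ (V : Word × Word → Bool) (q : Polynomial ℕ), PolyPair V ∧
    ∀ x, x ∈ L ↔ Odd (witnesses V q x).ncard

/-- The set of the Boolean vectors `y` of length exactly `p |x|` which are accepted by `V`
together with `x`. -/
def sols (V : Word × Word → Bool) (p : Polynomial ℕ) (x : Word) :
    Set (Fin (p.eval x.length) → Bool) :=
  {y | V (x, List.ofFn y) = true}

/-- `V` is an NP verifier for the language `L` with witnesses of length `p |x|`: it is decidable
in polynomial time, and `x` is in `L` if and only if `V (x, y)` holds for some binary word `y` of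
length `p |x|`. -/
def IsVerifier (L : Set Word) (V : Word × Word → Bool) (p : Polynomial ℕ) : Prop :=
  PolyPair V ∧ ∀ x, x ∈ L ↔ (sols V p x).Nonempty

/-- The set `W` of Boolean vectors is closed under the Boolean operation `f` of arity `k`, applied
coordinate by coordinate. -/
def ClosedUnder {n k : ℕ} (f : (Fin k → Bool) → Bool) (W : Set (Fin n → Bool)) : Prop :=
  ∀ Y : Fin k → Fin n → Bool, (∀ j, Y j ∈ W) → (fun i => f (fun j => Y j i)) ∈ W

/-- The Boolean operation `f` is a projection or a negated projection. -/
def IsProj {k : ℕ} (f : (Fin k → Bool) → Bool) : Prop :=
  ∃ j, (∀ b, f b = b j) ∨ ∀ b, f b = !(b j)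

end Pool.Agent.PAR
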