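import Pool.Agent.Helper7_PAR.Ops

/-!
# Parity-P: witness sets which are delta-matroids
-/

set_option autoImplicit false

namespace Pool.Agent.PAR

open Turing Computability Pool.Agent.UT.Num Pool.Agent.H2XG
open Pool.Agent.Helper53_CookLevin (size)

/-- The set `W` of Boolean vectors is a delta-matroid (the empty set is allowed): if `y` and `z` are
in `W` and differ at the coordinate `i`, then there is a coordinate `j`, possibly `j = i`, at which
`y` and `z` differ, such that the vector obtained from `y` by changing the coordinates `i` and `j`
is in `W`. -/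
def IsDeltaMatroid {n : ℕ} (W : Set (Fin n → Bool)) : Prop :=
  ∀ y ∈ W, ∀ z ∈ W, ∀ i, y i ≠ z i → ∃ j, y j ≠ z j ∧
    (fun l => if l = i ∨ l = j then !(y l) else y l) ∈ W

/-- change the letters with the numbers `i` and `j` -/
def chg (y : Word) (i j : ℕ) : Word := (List.range y.length).map fun l =>
  xor (y.getD l false) (decide (l = i) || decide (l = j))

theorem FPW.chg {m : ℕ} {A : (Fin m → List K) → Word} (hA : FPW m A)
    {i j : (Fin m → List K) → ℕ} (hi : FPN m i) (hj : FPN m j) :
    FPW m (fun ρ => chg (A ρ) (i ρ) (j ρ)) :=
  FPW.range hA.len (b := fun l ρ => xor ((A ρ).getD l false)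
    (decide (l = i ρ) || decide (l = j ρ)))
    ((FPW.getD hA.weak FPN.v0).xor ((FPB.eqN FPN.v0 hi.weak).or (FPB.eqN FPN.v0 hj.weak)))

/-- the verifier: no change of a false letter, and of another one after it, is accepted -/
def dver (V : Word × Word → Bool) (p : Polynomial ℕ) (x y : Word) : Bool :=
  decide (y.length = p.eval x.length) && V (x, y) &&
    decide (∀ i < y.length, decide (∀ j < y.length, (y.getD i false || decide (j < i) ||
      !V (x, chg y i j)) = true) = true)

theorem good_dver {V : Word × Word → Bool} (hV : PolyPair V) (p : Polynomial ℕ) :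
    Good2 (dver V p) := by
  intro m A B hA hB
  refine ((FPB.eqN hB.len (hA.len.poly p)).and (FPB.call2 hV hA hB)).and
    (FPB.all hB.len (b := fun i ρ => decide (∀ j < (B ρ).length, ((B ρ).getD i false ||
      decide (j < i) || !V (A ρ, PAR.chg (B ρ) i j)) = true))
      (FPB.all hB.weak.len (b := fun j σ => (B fun i => σ i.succ).getD (σ 0).length false ||
      decide (j < (σ 0).length) || !V (A fun i => σ i.succ,
        PAR.chg (B fun i => σ i.succ) (σ 0).length j)) ?_))
  have hu : FPN (m + 1 + 1) (fun σ : Fin (m + 1 + 1) → List K => (σ 1).length) := FPN.v1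
  have hv : FPN (m + 1 + 1) (fun σ : Fin (m + 1 + 1) → List K => (σ 0).length) := FPN.v0
  exact ((FPW.getD hB.weak.weak hu).or (FPB.ltN hv hu)).or
    (FPB.call2 hV hA.weak.weak (hB.weak.weak.chg hu hv)).not

theorem chg_get {y : Word} {i j l : ℕ} (hl : l < y.length) :
    (chg y i j).getD l false = xor (y.getD l false) (decide (l = i) || decide (l = j)) := by
  unfold chg
  rw [List.getD_eq_getElem _ _ (by simpa using hl), List.getElem_map, List.getElem_range]

/-- at most one accepted word for a delta-matroid -/
theorem dver_unique {V : Word × Word → Bool} {p : Polynomial ℕ} {x : Word}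
    (hD : IsDeltaMatroid (sols V p x)) {y z : Word} (hy : dver V p x y = true)
    (hz : dver V p x z = true) : y = z := by
  have key : ∀ {y z : Word}, dver V p x y = true → dver V p x z = true → ∀ i,
      (∀ l < i, y.getD l false = z.getD l false) → y.getD i false = false →
      z.getD i false = false := by
    intro y z hy hz i hlt hyi
    unfold dver at hy hz
    simp only [Bool.and_eq_true, decide_eq_true_eq] at hy hz
    obtain ⟨⟨hy1, hy2⟩, hy3⟩ := hy
    obtain ⟨⟨hz1, hz2⟩, -⟩ := hz
    by_contra hzi
    have hzi' : z.getD i false = true := by simpa using hzi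
    have hi : i < p.eval x.length := by
      by_contra h
      rw [List.getD_eq_default _ _ (by omega)] at hzi'
      exact absurd hzi' (by simp)
    have m1 : vec (p.eval x.length) y ∈ sols V p x := by
      show V (x, List.ofFn _) = true
      rw [ofFn_vec hy1]
      exact hy2
    have m2 : vec (p.eval x.length) z ∈ sols V p x := by
      show V (x, List.ofFn _) = true
      rw [ofFn_vec hz1]
      exact hz2
    obtain ⟨j, hj, hjm⟩ := hD _ m1 _ m2 ⟨i, hi⟩ (by
      show y.getD i false ≠ z.getD i false
      rw [hyi, hzi']
      simp)
    have hji : ¬ j.1 < i := fun h => hj (hlt j.1 h)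
    have h4 := hy3 i (by omega) j.1 (by rw [hy1]; exact j.2)
    rw [hyi] at h4
    simp only [hji, decide_false, Bool.false_or, Bool.not_eq_true'] at h4
    have e : List.ofFn (fun l : Fin (p.eval x.length) => if l = ⟨i, hi⟩ ∨ l = j then
        !(vec (p.eval x.length) y l) else vec (p.eval x.length) y l) = chg y i j.1 := by
      refine ext_getD (by simp [chg, hy1]) fun l hl => ?_
      rw [List.length_ofFn] at hl
      rw [getD_ofFn _ hl, chg_get (hy1 ▸ hl)]
      have e1 : ((⟨l, hl⟩ : Fin (p.eval x.length)) = ⟨i, hi⟩) ↔ l = i := by simp
      have e2 : ((⟨l, hl⟩ : Fin (p.eval x.length)) = j) ↔ l = j.1 := by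
        rw [Fin.ext_iff]
      simp only [e1, e2]
      show (if l = i ∨ l = j.1 then !(y.getD l false) else y.getD l false) = _
      by_cases h1 : l = i
      · simp [h1]
      · by_cases h2 : l = j.1
        · simp [h2]
        · simp [h1, h2]
    have h5 : V (x, List.ofFn _) = true := hjm
    rw [e, h4] at h5
    exact absurd h5 (by simp)
  have hly : y.length = z.length := by
    unfold dver at hy hz
    simp only [Bool.and_eq_true, decide_eq_true_eq] at hy hz
    rw [hy.1.1, hz.1.1]
  refine ext_getD hly fun i hi => ?_
  clear hi
  induction i using Nat.strong_induction_on with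
  | _ i ih =>
    rcases h1 : y.getD i false with _ | _
    · exact (key hy hz i (fun l hl => ih l hl) h1).symm
    · rcases h2 : z.getD i false with _ | _
      · rw [key hz hy i (fun l hl => (ih l hl).symm) h2] at h1
        exact absurd h1 (by simp)
      · rfl

/-- at least one accepted word -/
theorem dver_exists {V : Word × Word → Bool} {p : Polynomial ℕ} {x : Word}
    (h : (sols V p x).Nonempty) : ∃ y, dver V p x y = true := by
  classical
  -- the value of a vector, most significant coordinate first
  let val : (Fin (p.eval x.length) → Bool) → ℕ := fun y =>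
    ∑ i, if y i = true then 2 ^ (p.eval x.length - 1 - i.1) else 0
  obtain ⟨y, hy, hmax⟩ := Set.exists_max_image (sols V p x) val (Set.toFinite _) h
  refine ⟨List.ofFn y, ?_⟩
  unfold dver
  simp only [Bool.and_eq_true, decide_eq_true_eq, List.length_ofFn, true_and]
  refine ⟨hy, fun i hi j hj => ?_⟩
  rw [getD_ofFn y hi]
  rcases hyi : y ⟨i, hi⟩ with _ | _
  · by_cases hji : j < i
    · simp [hji]
    · simp only [hji, decide_false, Bool.false_or, Bool.not_eq_true']
      by_contra hcon
      rw [Bool.not_eq_false] at hcon
      let y' : Fin (p.eval x.length) → Bool := vec _ (chg (List.ofFn y) i j)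
      have hy' : y' ∈ sols V p x := by
        show V (x, List.ofFn _) = true
        rw [ofFn_vec (by simp [chg])]
        exact hcon
      have hval : ∀ l : Fin (p.eval x.length), y' l =
          xor (y l) (decide (l.1 = i) || decide (l.1 = j)) := by
        intro l
        show (chg (List.ofFn y) i j).getD l.1 false = _
        rw [chg_get (by simp), getD_ofFn y l.2]
      have h1 := hmax y' hy'
      -- comparison of the values
      have hlt : val y < val y' := by
        have hsplit : ∀ w : Fin (p.eval x.length) → Bool, val w =
            (∑ l ∈ Finset.univ.filter (fun l : Fin (p.eval x.length) => l.1 < i),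
              if w l = true then 2 ^ (p.eval x.length - 1 - l.1) else 0) +
            (if w ⟨i, hi⟩ = true then 2 ^ (p.eval x.length - 1 - i) else 0) +
            (∑ l ∈ Finset.univ.filter (fun l : Fin (p.eval x.length) => i < l.1),
              if w l = true then 2 ^ (p.eval x.length - 1 - l.1) else 0) := by
          intro w
          show (∑ l, if w l = true then 2 ^ (p.eval x.length - 1 - l.1) else 0) = _
          rw [← Finset.sum_filter_add_sum_filter_not Finset.univ
            (fun l : Fin (p.eval x.length) => l.1 < i), add_assoc]
          congr 1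
          have e : Finset.univ.filter (fun l : Fin (p.eval x.length) => ¬ l.1 < i) =
              insert ⟨i, hi⟩ (Finset.univ.filter
                (fun l : Fin (p.eval x.length) => i < l.1)) := by
            ext l
            simp only [Finset.mem_filter, Finset.mem_univ, true_and, Finset.mem_insert,
              Fin.ext_iff]
            omega
          rw [e, Finset.sum_insert (by simp)]
        rw [hsplit y, hsplit y']
        have e1 : y' ⟨i, hi⟩ = true := by
          rw [hval, hyi]
          simp
        have e2 : (∑ l ∈ Finset.univ.filter (fun l : Fin (p.eval x.length) => l.1 < i),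
              if y' l = true then 2 ^ (p.eval x.length - 1 - l.1) else 0) =
            (∑ l ∈ Finset.univ.filter (fun l : Fin (p.eval x.length) => l.1 < i),
              if y l = true then 2 ^ (p.eval x.length - 1 - l.1) else 0) := by
          refine Finset.sum_congr rfl fun l hl => ?_
          simp only [Finset.mem_filter, Finset.mem_univ, true_and] at hl
          rw [hval]
          have a1 : ¬ l.1 = i := by omega
          have a2 : ¬ l.1 = j := by omega
          simp [a1, a2]
        have e3 : (∑ l ∈ Finset.univ.filter (fun l : Fin (p.eval x.length) => i < l.1),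
              if y l = true then 2 ^ (p.eval x.length - 1 - l.1) else 0) <
            2 ^ (p.eval x.length - 1 - i) := by
          have hle : (∑ l ∈ Finset.univ.filter (fun l : Fin (p.eval x.length) => i < l.1),
              if y l = true then 2 ^ (p.eval x.length - 1 - l.1) else 0) ≤
              ∑ s ∈ Finset.range (p.eval x.length - 1 - i), 2 ^ s := by
            calc _ ≤ ∑ l ∈ Finset.univ.filter (fun l : Fin (p.eval x.length) => i < l.1),
                2 ^ (p.eval x.length - 1 - l.1) := Finset.sum_le_sum fun l _ => by
                  split_ifs
                  · exact le_rfl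
                  · exact Nat.zero_le _
              _ = ∑ s ∈ (Finset.univ.filter (fun l : Fin (p.eval x.length) => i < l.1)).image
                  (fun l => p.eval x.length - 1 - l.1), 2 ^ s := by
                  rw [Finset.sum_image]
                  intro a ha b hb hab
                  have h1 := a.2
                  have h2 := b.2
                  simp only at hab
                  exact Fin.ext (by omega)
              _ ≤ _ := Finset.sum_le_sum_of_subset (by
                  intro s hs
                  simp only [Finset.mem_image, Finset.mem_filter, Finset.mem_univ, true_and] at hs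
                  obtain ⟨l, hl, rfl⟩ := hs
                  have := l.2
                  rw [Finset.mem_range]
                  omega)
          have hg := Nat.geomSum_eq (m := 2) (le_refl 2) (p.eval x.length - 1 - i)
          have hpos : 0 < 2 ^ (p.eval x.length - 1 - i) := Nat.pos_of_ne_zero (by simp)
          omega
        rw [e1, e2, hyi]
        simp only [Bool.false_eq_true, if_false, if_true]
        omega
      omega
  · simp

/-- **Delta-matroids.** -/
theorem delta_main (L : Set Word) (V : Word × Word → Bool) (p : Polynomial ℕ)
    (h : IsVerifier L V p) (hD : ∀ x ∈ L, IsDeltaMatroid (sols V p x)) :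
    ∃ (V' : Word × Word → Bool) (q : Polynomial ℕ), PolyPair V' ∧
      (∀ x ∈ L, (witnesses V' q x).ncard = 1) ∧ ∀ x, x ∉ L → witnesses V' q x = ∅ := by
  obtain ⟨hV, hL⟩ := h
  refine ⟨fun z => dver V p z.1 z.2, p, polyPair_of' (good_dver hV p), fun x hx => ?_,
    fun x hx => ?_⟩
  · obtain ⟨y, hy⟩ := dver_exists ((hL x).1 hx)
    rw [Set.ncard_eq_one]
    refine ⟨y, ?_⟩
    ext z
    constructor
    · rintro ⟨-, hz⟩
      exact dver_unique (hD x hx) hz hy
    · intro hz
      rw [Set.mem_singleton_iff] at hz
      subst hz
      refine ⟨?_, hy⟩
      unfold dver at hy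
      simp only [Bool.and_eq_true, decide_eq_true_eq] at hy
      exact hy.1.1.le
  · ext z
    simp only [Set.mem_empty_iff_false, iff_false]
    rintro ⟨-, hz⟩
    apply hx
    rw [hL x]
    have hz' : dver V p x z = true := hz
    unfold dver at hz'
    simp only [Bool.and_eq_true, decide_eq_true_eq] at hz'
    refine ⟨vec _ z, ?_⟩
    show V (x, List.ofFn _) = true
    rw [ofFn_vec hz'.1.1]
    exact hz'.1.2

end Pool.Agent.PAR
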