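import Pool.Agent.Helper7_PAR.Vec

/-!
# Parity-P: witness sets which are jump systems
-/

set_option autoImplicit false

namespace Pool.Agent.PAR

open Turing Computability Pool.Agent.UT.Num Pool.Agent.H2XG Pool.Agent.LATM

/-- One step from the number `a` towards the number `b`. -/
def stepTo (a b : ℕ) : ℕ := if a < b then a + 1 else if b < a then a - 1 else a

/-- The vector obtained from `v` by one step of the coordinate `i` towards `w`. -/
def toward {n : ℕ} (v w : Fin n → ℕ) (i : Fin n) : Fin n → ℕ :=
  fun l => if l = i then stepTo (v i) (w i) else v l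

/-- The set `W` of vectors of natural numbers is a jump system (the empty set is allowed): if `v`
and `w` are in `W` and differ at the coordinate `i`, then the vector obtained from `v` by one step
of the coordinate `i` towards `w` is in `W`, or a vector obtained from it by one more step towards
`w` is in `W`. -/
def IsJumpSystem {n : ℕ} (W : Set (Fin n → ℕ)) : Prop :=
  ∀ v ∈ W, ∀ w ∈ W, ∀ i, v i ≠ w i → toward v w i ∈ W ∨
    ∃ j, toward v w i j ≠ w j ∧ toward (toward v w i) w j ∈ W

/-- the code of the vector with the code `y`, with `a` added to the coordinate `i` and `b` added to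
the coordinate `j` (modulo `2 ^ Q`) -/
def add2 (P Q : ℕ) (y : Word) (i a j b : ℕ) : Word :=
  cat P (fun l => dig Q (nval (blk' Q y l) + ((if l = i then a else 0) + if l = j then b else 0)))

open Classical in
/-- the verifier: no local move which increases the vector lexicographically is accepted -/
noncomputable def jvb (V : Word × Word → Bool) (P Q : ℕ) (x y : Word) : Bool :=
  decide (y.length = P * Q ∧ V (x, y) = true ∧ ∀ i < P,
    (nval (blk' Q y i) + 1 < 2 ^ Q → ¬ V (x, add2 P Q y i 1 i 0) = true) ∧
    (nval (blk' Q y i) + 2 < 2 ^ Q → ¬ V (x, add2 P Q y i 2 i 0) = true) ∧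
    ∀ j < P, i < j → nval (blk' Q y i) + 1 < 2 ^ Q →
      (nval (blk' Q y j) + 1 < 2 ^ Q → ¬ V (x, add2 P Q y i 1 j 1) = true) ∧
      (0 < nval (blk' Q y j) → ¬ V (x, add2 P Q y i 1 j (2 ^ Q - 1)) = true))

theorem FPV.iteP {m : ℕ} {P : (Fin m → List K) → Prop} [∀ ρ, Decidable (P ρ)] (hP : FPP m P)
    {f g : (Fin m → List K) → ℕ} (hf : FPV m f) (hg : FPV m g) :
    FPV m (fun ρ => if P ρ then f ρ else g ρ) := by
  obtain ⟨b, hb, h⟩ := hP
  refine (FPV.ite hb hf hg).congr fun ρ => ?_
  by_cases hp : P ρ
  · rw [if_pos hp, if_pos ((h ρ).2 hp)]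
  · rw [if_neg hp, if_neg (fun hb => hp ((h ρ).1 hb))]

theorem FPV.ones {m : ℕ} {n : (Fin m → List K) → ℕ} (hn : FPN m n) :
    FPV m (fun ρ => 2 ^ n ρ - 1) := by
  refine ⟨n, fun _ _ => 1, hn, FPN.const 1, fun ρ => ?_⟩
  have h := Nat.geomSum_eq (m := 2) (le_refl 2) (n ρ)
  simp only [one_mul]
  rw [h]
  simp

theorem FPW.add2 {m : ℕ} {P Q i j : (Fin m → List K) → ℕ} {B : (Fin m → List K) → Word}
    (hP : FPN m P) (hQ : FPN m Q) (hB : FPW m B) (hi : FPN m i) {a : (Fin m → List K) → ℕ}
    (ha : FPV m a) (hj : FPN m j) {b : (Fin m → List K) → ℕ} (hb : FPV m b) :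
    FPW m (fun ρ => PAR.add2 (P ρ) (Q ρ) (B ρ) (i ρ) (a ρ) (j ρ) (b ρ)) :=
  FPW.vcode' hP hQ (c := fun l ρ => nval (blk' (Q ρ) (B ρ) l) +
    ((if l = i ρ then a ρ else 0) + if l = j ρ then b ρ else 0))
    ((FPV.blkV hB.weak hQ.weak FPN.v0).add
      ((FPV.iteP (FPP.eqN FPN.v0 hi.weak) ha.weak (FPV.const 0)).add
        (FPV.iteP (FPP.eqN FPN.v0 hj.weak) hb.weak (FPV.const 0))))

theorem good_jvb {V : Word × Word → Bool} (hV : PolyPair V) (p q : Polynomial ℕ) :
    Good2 (fun x y => jvb V (p.eval x.length) (q.eval x.length) x y) := by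
  intro m A B hA hB
  have hP := hA.len.poly p
  have hQ := hA.len.poly q
  have h2 : FPV m (fun ρ => 2 ^ q.eval (A ρ).length) := FPV.pow2 hQ
  have h : FPP m (fun ρ => (B ρ).length = p.eval (A ρ).length * q.eval (A ρ).length ∧
      V (A ρ, B ρ) = true ∧ ∀ i < p.eval (A ρ).length,
    (nval (blk' (q.eval (A ρ).length) (B ρ) i) + 1 < 2 ^ q.eval (A ρ).length →
      ¬ V (A ρ, add2 (p.eval (A ρ).length) (q.eval (A ρ).length) (B ρ) i 1 i 0) = true) ∧
    (nval (blk' (q.eval (A ρ).length) (B ρ) i) + 2 < 2 ^ q.eval (A ρ).length →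
      ¬ V (A ρ, add2 (p.eval (A ρ).length) (q.eval (A ρ).length) (B ρ) i 2 i 0) = true) ∧
    ∀ j < p.eval (A ρ).length, i < j →
      nval (blk' (q.eval (A ρ).length) (B ρ) i) + 1 < 2 ^ q.eval (A ρ).length →
      (nval (blk' (q.eval (A ρ).length) (B ρ) j) + 1 < 2 ^ q.eval (A ρ).length →
        ¬ V (A ρ, add2 (p.eval (A ρ).length) (q.eval (A ρ).length) (B ρ) i 1 j 1) = true) ∧
      (0 < nval (blk' (q.eval (A ρ).length) (B ρ) j) →
        ¬ V (A ρ, add2 (p.eval (A ρ).length) (q.eval (A ρ).length) (B ρ) i 1 j
          (2 ^ q.eval (A ρ).length - 1)) = true)) := by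
    refine (FPP.eqN hB.len (hP.mul hQ)).and ((FPP.of (FPB.call2 hV hA hB)).and
      (FPP.all hP (FPP.and ?_ (FPP.and ?_ (FPP.all hP.weak ?_)))))
    · exact FPP.imp (FPP.ltV ((FPV.blkV hB.weak hQ.weak FPN.v0).add (FPV.const 1)) h2.weak)
        (FPP.of (FPB.call2 hV hA.weak (FPW.add2 hP.weak hQ.weak hB.weak FPN.v0 (FPV.const 1)
          FPN.v0 (FPV.const 0)))).not
    · exact FPP.imp (FPP.ltV ((FPV.blkV hB.weak hQ.weak FPN.v0).add (FPV.const 2)) h2.weak)
        (FPP.of (FPB.call2 hV hA.weak (FPW.add2 hP.weak hQ.weak hB.weak FPN.v0 (FPV.const 2)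
          FPN.v0 (FPV.const 0)))).not
    · have hv : FPN (m + 1 + 1) (fun σ : Fin (m + 1 + 1) → List K => (σ 1).length) := FPN.v1
      have hw : FPN (m + 1 + 1) (fun σ : Fin (m + 1 + 1) → List K => (σ 0).length) := FPN.v0
      refine FPP.imp (FPP.ltN hv hw) (FPP.imp (FPP.ltV ((FPV.blkV hB.weak.weak hQ.weak.weak
        hv).add (FPV.const 1)) h2.weak.weak) (FPP.and ?_ ?_))
      · exact FPP.imp (FPP.ltV ((FPV.blkV hB.weak.weak hQ.weak.weak hw).add (FPV.const 1))
          h2.weak.weak) (FPP.of (FPB.call2 hV hA.weak.weak (FPW.add2 hP.weak.weak hQ.weak.weak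
          hB.weak.weak hv (FPV.const 1) hw (FPV.const 1)))).not
      · exact FPP.imp (FPP.ltV (FPV.const 0) (FPV.blkV hB.weak.weak hQ.weak.weak hw))
          (FPP.of (FPB.call2 hV hA.weak.weak (FPW.add2 hP.weak.weak hQ.weak.weak
          hB.weak.weak hv (FPV.const 1) hw (FPV.ones hQ.weak.weak)))).not
  exact FPP.decide' h fun ρ => by simp [jvb]

/-! ### Codes of moved vectors -/

theorem dig_add (Q n : ℕ) : dig Q (n + 2 ^ Q) = dig Q n := by
  refine List.ext_getElem (by simp [length_dig]) fun i h1 h2 => ?_
  rw [length_dig] at h1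
  simp only [dig, List.getElem_ofFn]
  rw [add_comm]
  exact Nat.testBit_two_pow_add_gt h1 n

theorem add2_eq {P Q : ℕ} {y : Word} {i a j b : ℕ} {v' : Fin P → ℕ}
    (h : ∀ l : Fin P, v' l = dec P Q y l + ((if l.1 = i then a else 0) + if l.1 = j then b else 0) ∨
      v' l + 2 ^ Q = dec P Q y l + ((if l.1 = i then a else 0) + if l.1 = j then b else 0)) :
    add2 P Q y i a j b = vcode Q v' := by
  rw [vcode_eq]
  refine cat_congr fun l hl => ?_
  rw [dif_pos hl]
  have e : dec P Q y ⟨l, hl⟩ = nval (blk' Q y l) := rfl
  rcases h ⟨l, hl⟩ with h | h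
  · rw [h, e]
  · rw [← dig_add Q (v' ⟨l, hl⟩), h, e]

/-- at most one accepted word for a jump system -/
theorem jvb_unique {V : Word × Word → Bool} {p q : Polynomial ℕ} {x : Word}
    (hD : IsJumpSystem (vsols V p q x)) {y z : Word}
    (hy : jvb V (p.eval x.length) (q.eval x.length) x y = true)
    (hz : jvb V (p.eval x.length) (q.eval x.length) x z = true) : y = z := by
  classical
  set P := p.eval x.length with hP
  set Q := q.eval x.length with hQ
  have mem : ∀ {y : Word}, jvb V P Q x y = true → y.length = P * Q ∧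
      dec P Q y ∈ vsols V p q x := by
    intro y hy
    unfold jvb at hy
    rw [decide_eq_true_iff] at hy
    refine ⟨hy.1, fun i => dec_lt _ _, ?_⟩
    rw [vcode_dec hy.1]
    exact hy.2.1
  have key : ∀ {y z : Word}, jvb V P Q x y = true → jvb V P Q x z = true → ∀ i : Fin P,
      (∀ l < i, dec P Q y l = dec P Q z l) → ¬ dec P Q y i < dec P Q z i := by
    intro y z hy hz i hlt hi
    have hy1 := mem hy
    have hz1 := mem hz
    have hyy := hy
    unfold jvb at hyy
    rw [decide_eq_true_iff] at hyy
    obtain ⟨-, -, hyy⟩ := hyy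
    obtain ⟨ha, hb, hc⟩ := hyy i.1 i.2
    have hzi : dec P Q z i < 2 ^ Q := hz1.2.1 i
    have hst : stepTo (dec P Q y i) (dec P Q z i) = dec P Q y i + 1 := by
      unfold stepTo
      rw [if_pos hi]
    have hei : nval (blk' Q y i.1) = dec P Q y i := rfl
    rcases hD _ hy1.2 _ hz1.2 i hi.ne with h | ⟨j, hj, h⟩
    · refine ha (by rw [hei]; omega) ?_
      rw [add2_eq (v' := toward (dec P Q y) (dec P Q z) i)]
      · exact h.2
      · intro l
        left
        unfold toward
        by_cases hl : l = i
        · subst hl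
          simp [hst]
        · have : ¬ l.1 = i.1 := fun h => hl (Fin.ext h)
          simp [hl, this]
    · have htj : ∀ l, l ≠ i → toward (dec P Q y) (dec P Q z) i l = dec P Q y l := by
        intro l hl
        unfold toward
        rw [if_neg hl]
      have hti : toward (dec P Q y) (dec P Q z) i i = dec P Q y i + 1 := by
        unfold toward
        rw [if_pos rfl, hst]
      rcases lt_trichotomy j i with hji | hji | hji
      · rw [htj j hji.ne] at hj
        exact hj (hlt j hji)
      · subst hji
        rw [hti] at hj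
        refine hb (by rw [hei]; omega) ?_
        rw [add2_eq (v' := toward (toward (dec P Q y) (dec P Q z) j) (dec P Q z) j)]
        · exact h.2
        · intro l
          left
          by_cases hl : l = j
          · subst hl
            show (if l = l then stepTo (toward (dec P Q y) (dec P Q z) l l) (dec P Q z l) else _) = _
            rw [if_pos rfl, hti]
            unfold stepTo
            rw [if_pos (by omega)]
            simp
          · have h0 : ¬ l.1 = j.1 := fun h => hl (Fin.ext h)
            show (if l = j then _ else toward (dec P Q y) (dec P Q z) j l) = _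
            rw [if_neg hl, htj l hl]
            simp [h0]
      · obtain ⟨h1, h2⟩ := hc j.1 j.2 hji (by rw [hei]; omega)
        have hej : nval (blk' Q y j.1) = dec P Q y j := rfl
        have hne : j ≠ i := hji.ne'
        rw [htj j hne] at hj
        have hval : ∀ l, toward (toward (dec P Q y) (dec P Q z) i) (dec P Q z) j l =
            if l = j then stepTo (dec P Q y j) (dec P Q z j) else
              if l = i then dec P Q y i + 1 else dec P Q y l := by
          intro l
          show (if l = j then stepTo (toward (dec P Q y) (dec P Q z) i j) (dec P Q z j)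
            else toward (dec P Q y) (dec P Q z) i l) = _
          rw [htj j hne]
          by_cases hl : l = j
          · rw [if_pos hl, if_pos hl]
          · rw [if_neg hl, if_neg hl]
            by_cases hl' : l = i
            · subst hl'
              rw [hti, if_pos rfl]
            · rw [htj l hl', if_neg hl']
        rcases lt_or_gt_of_ne hj with hlt' | hgt
        · have hzj : dec P Q z j < 2 ^ Q := hz1.2.1 j
          refine h1 (by rw [hej]; omega) ?_
          rw [add2_eq (v' := toward (toward (dec P Q y) (dec P Q z) i) (dec P Q z) j)]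
          · exact h.2
          · intro l
            left
            rw [hval]
            by_cases hl : l = j
            · subst hl
              have h0 : ¬ l.1 = i.1 := fun h => hne (Fin.ext h)
              rw [if_pos rfl, if_neg h0, if_pos rfl]
              unfold stepTo
              rw [if_pos hlt', zero_add]
            · have h0 : ¬ l.1 = j.1 := fun h => hl (Fin.ext h)
              rw [if_neg hl, if_neg h0, add_zero]
              by_cases hl' : l = i
              · subst hl'
                rw [if_pos rfl, if_pos rfl]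
              · have h0' : ¬ l.1 = i.1 := fun h => hl' (Fin.ext h)
                rw [if_neg hl', if_neg h0', add_zero]
        · refine h2 (by rw [hej]; omega) ?_
          rw [add2_eq (v' := toward (toward (dec P Q y) (dec P Q z) i) (dec P Q z) j)]
          · exact h.2
          · intro l
            rw [hval]
            by_cases hl : l = j
            · subst hl
              right
              have h0 : ¬ l.1 = i.1 := fun h => hne (Fin.ext h)
              rw [if_pos rfl, if_neg h0, if_pos rfl]
              unfold stepTo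
              have h3 : 0 < 2 ^ Q := by positivity
              rw [if_neg (by omega), if_pos hgt]
              omega
            · left
              have h0 : ¬ l.1 = j.1 := fun h => hl (Fin.ext h)
              rw [if_neg hl, if_neg h0, add_zero]
              by_cases hl' : l = i
              · subst hl'
                rw [if_pos rfl, if_pos rfl]
              · have h0' : ¬ l.1 = i.1 := fun h => hl' (Fin.ext h)
                rw [if_neg hl', if_neg h0', add_zero]
  have heq : dec P Q y = dec P Q z := by
    by_contra hne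
    have hex : ∃ i, dec P Q y i ≠ dec P Q z i := by
      by_contra h
      push Not at h
      exact hne (funext h)
    obtain ⟨i, hi, hmin⟩ : ∃ i : Fin P, dec P Q y i ≠ dec P Q z i ∧
        ∀ l < i, dec P Q y l = dec P Q z l := by
      have hs : ({i : Fin P | dec P Q y i ≠ dec P Q z i} : Set (Fin P)).Nonempty := hex
      obtain ⟨i, hi, hmin⟩ := Set.exists_min_image _ id (Set.toFinite _) hs
      refine ⟨i, hi, fun l hl => ?_⟩
      by_contra h
      exact absurd (hmin l h) (not_le.2 hl)
    rcases lt_or_gt_of_ne hi with h | h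
    · exact key hy hz i hmin h
    · exact key hz hy i (fun l hl => (hmin l hl).symm) h
  rw [← vcode_dec (mem hy).1, ← vcode_dec (mem hz).1, heq]

theorem lex_lt {P : ℕ} {v w : Fin P → ℕ} (i : Fin P) (h : ∀ l < i, v l = w l) (hi : v i < w i) :
    toLex v < toLex w := ⟨i, h, hi⟩

theorem vsols_finite' (V : Word × Word → Bool) (p q : Polynomial ℕ) (x : Word) :
    (vsols V p q x).Finite := by
  have h := Set.Finite.pi' (ι := Fin (p.eval x.length))
    (t := fun _ => {a : ℕ | a < 2 ^ q.eval x.length}) fun _ => Set.finite_lt_nat _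
  exact h.subset fun v hv i => hv.1 i

/-- at least one accepted word -/
theorem jvb_exists {V : Word × Word → Bool} {p q : Polynomial ℕ} {x : Word}
    (h : (vsols V p q x).Nonempty) :
    ∃ y, jvb V (p.eval x.length) (q.eval x.length) x y = true := by
  classical
  set P := p.eval x.length with hP
  set Q := q.eval x.length with hQ
  obtain ⟨v, hv, hmax⟩ := Set.exists_max_image (vsols V p q x) (fun v => toLex v)
    (vsols_finite' V p q x) h
  have hdv : dec P Q (vcode Q v) = v := dec_vcode hv.1
  have hval : ∀ i (hi : i < P), nval (blk' Q (vcode Q v) i) = v ⟨i, hi⟩ := by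
    intro i hi
    exact congrFun hdv ⟨i, hi⟩
  -- moved vectors
  have key : ∀ (i a j b : ℕ) (hi : i < P) (v' : Fin P → ℕ),
      (∀ l : Fin P, v' l = v l + ((if l.1 = i then a else 0) + if l.1 = j then b else 0) ∨
        v' l + 2 ^ Q = v l + ((if l.1 = i then a else 0) + if l.1 = j then b else 0)) →
      (∀ l, v' l < 2 ^ Q) → (∀ l : Fin P, l.1 < i → v' l = v l) → v ⟨i, hi⟩ < v' ⟨i, hi⟩ →
      ¬ V (x, add2 P Q (vcode Q v) i a j b) = true := by
    intro i a j b hi v' h1 h2 h3 h4 h5
    rw [add2_eq (v' := v') (by rw [hdv]; exact h1)] at h5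
    have h6 : v' ∈ vsols V p q x := ⟨h2, h5⟩
    have h7 := hmax v' h6
    have h8 := lex_lt ⟨i, hi⟩ (fun l hl => (h3 l hl).symm) h4
    exact absurd h7 (not_le.2 h8)
  refine ⟨vcode Q v, ?_⟩
  unfold jvb
  rw [decide_eq_true_iff]
  refine ⟨length_vcode _ _, hv.2, fun i hi => ⟨fun h1 => ?_, fun h1 => ?_,
    fun j hj hij h1 => ⟨fun h2 => ?_, fun h2 => ?_⟩⟩⟩
  · rw [hval i hi] at h1
    refine key i 1 i 0 hi (fun l => if l.1 = i then v l + 1 else v l) (fun l => ?_) (fun l => ?_)
      (fun l hl => if_neg hl.ne) ?_
    · left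
      split_ifs <;> omega
    · have : v l < 2 ^ Q := hv.1 l
      split_ifs with h
      · have : l = ⟨i, hi⟩ := Fin.ext h
        rw [this]
        exact h1
      · exact this
    · simp
  · rw [hval i hi] at h1
    refine key i 2 i 0 hi (fun l => if l.1 = i then v l + 2 else v l) (fun l => ?_) (fun l => ?_)
      (fun l hl => if_neg hl.ne) ?_
    · left
      split_ifs <;> omega
    · have : v l < 2 ^ Q := hv.1 l
      split_ifs with h
      · have : l = ⟨i, hi⟩ := Fin.ext h
        rw [this]
        exact h1
      · exact this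
    · simp
  · rw [hval i hi] at h1
    rw [hval j hj] at h2
    refine key i 1 j 1 hi (fun l => if l.1 = i then v l + 1 else if l.1 = j then v l + 1 else v l)
      (fun l => ?_) (fun l => ?_) (fun l hl => ?_) ?_
    · left
      split_ifs <;> omega
    · have : v l < 2 ^ Q := hv.1 l
      split_ifs with h h'
      · have : l = ⟨i, hi⟩ := Fin.ext h
        rw [this]
        exact h1
      · have : l = ⟨j, hj⟩ := Fin.ext h'
        rw [this]
        exact h2
      · exact this
    · rw [if_neg hl.ne, if_neg (by omega)]
    · simp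
  · rw [hval i hi] at h1
    rw [hval j hj] at h2
    refine key i 1 j (2 ^ Q - 1) hi (fun l => if l.1 = i then v l + 1 else if l.1 = j then v l - 1
      else v l) (fun l => ?_) (fun l => ?_) (fun l hl => ?_) ?_
    · have h3 : 0 < 2 ^ Q := by positivity
      by_cases h : l.1 = i
      · left
        rw [if_pos h, if_pos h, if_neg (by omega)]
      · by_cases h' : l.1 = j
        · right
          have : l = ⟨j, hj⟩ := Fin.ext h'
          rw [if_neg h, if_pos h', if_neg h, if_pos h', this]
          omega
        · left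
          rw [if_neg h, if_neg h', if_neg h, if_neg h']
          omega
    · have : v l < 2 ^ Q := hv.1 l
      split_ifs with h h'
      · have : l = ⟨i, hi⟩ := Fin.ext h
        rw [this]
        exact h1
      · omega
      · exact this
    · rw [if_neg hl.ne, if_neg (by omega)]
    · simp

/-- **Jump systems.** -/
theorem jump_main (L : Set Word) (V : Word × Word → Bool) (p q : Polynomial ℕ)
    (h : IsVecVerifier L V p q) (hD : ∀ x ∈ L, IsJumpSystem (vsols V p q x)) :
    ∃ (V' : Word × Word → Bool) (r : Polynomial ℕ), PolyPair V' ∧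
      (∀ x ∈ L, (witnesses V' r x).ncard = 1) ∧ ∀ x, x ∉ L → witnesses V' r x = ∅ := by
  classical
  obtain ⟨hV, hL⟩ := h
  refine ⟨fun z => jvb V (p.eval z.1.length) (q.eval z.1.length) z.1 z.2, p * q,
    polyPair_of' (g := fun x y => jvb V (p.eval x.length) (q.eval x.length) x y)
      (good_jvb hV p q), fun x hx => ?_, fun x hx => ?_⟩
  · obtain ⟨y, hy⟩ := jvb_exists ((hL x).1 hx)
    rw [Set.ncard_eq_one]
    refine ⟨y, ?_⟩
    ext z
    constructor
    · rintro ⟨-, hz⟩
      exact jvb_unique (hD x hx) hz hy
    · intro hz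
      rw [Set.mem_singleton_iff] at hz
      subst hz
      refine ⟨?_, hy⟩
      unfold jvb at hy
      rw [decide_eq_true_iff] at hy
      rw [Polynomial.eval_mul]
      exact hy.1.le
  · ext z
    simp only [Set.mem_empty_iff_false, iff_false]
    rintro ⟨-, hz⟩
    apply hx
    rw [hL x]
    have hz' : jvb V (p.eval x.length) (q.eval x.length) x z = true := hz
    unfold jvb at hz'
    rw [decide_eq_true_iff] at hz'
    refine ⟨dec _ _ z, fun i => dec_lt _ _, ?_⟩
    rw [vcode_dec hz'.1]
    exact hz'.2.1

end Pool.Agent.PAR
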