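import Pool.Agent.Helper7_PAR.Core

/-!
# Parity-P: certificates ordered by a key
-/

set_option autoImplicit false

namespace Pool.Agent.PAR

open Turing Computability Pool.Agent.UT.Num Pool.Agent.H2XG
open Pool.Agent.Helper53_CookLevin (size)

/-- coordinatewise order -/
def le (u w : Word) : Bool := decide (∀ i < u.length, (!u.getD i false || w.getD i false) = true)

/-- strict coordinatewise order -/
def lt (u w : Word) : Bool := le u w && !decide (u = w)

theorem le_iff {u w : Word} : le u w = true ↔
    ∀ i < u.length, u.getD i false = true → w.getD i false = true := by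
  unfold le
  rw [decide_eq_true_iff]
  refine forall_congr' fun i => forall_congr' fun _ => ?_
  rcases u.getD i false with _ | _ <;> simp

theorem ext_getD {u w : Word} (hl : u.length = w.length)
    (h : ∀ i < u.length, u.getD i false = w.getD i false) : u = w := by
  refine List.ext_getElem hl fun i h1 h2 => ?_
  have := h i h1
  rwa [List.getD_eq_getElem _ _ h1, List.getD_eq_getElem _ _ h2] at this

theorem le_antisymm' {u w : Word} (hl : u.length = w.length) (h : le u w = true)
    (h' : le w u = true) : u = w := by
  rw [le_iff] at h h'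
  refine ext_getD hl fun i hi => ?_
  rcases hu : u.getD i false with _ | _
  · rcases hw : w.getD i false with _ | _
    · rfl
    · rw [h' i (hl ▸ hi) hw] at hu
      exact absurd hu (by simp)
  · exact (h i hi hu).symm

theorem le_trans' {u w z : Word} (hl : u.length = w.length) (h : le u w = true)
    (h' : le w z = true) : le u z = true := by
  rw [le_iff] at h h' ⊢
  exact fun i hi hu => h' i (hl ▸ hi) (h i hi hu)

theorem le_refl' (u : Word) : le u u = true := by
  rw [le_iff]
  exact fun _ _ h => h

theorem le_append {a b a' b' : Word} (hl : a.length = a'.length) (h : le a a' = true)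
    (h' : le b b' = true) : le (a ++ b) (a' ++ b') = true := by
  rw [le_iff] at h h' ⊢
  intro i hi hu
  rw [List.length_append] at hi
  by_cases hia : i < a.length
  · rw [List.getD_append _ _ _ _ hia] at hu
    rw [List.getD_append _ _ _ _ (hl ▸ hia)]
    exact h i hia hu
  · rw [List.getD_append_right _ _ _ _ (by omega)] at hu
    rw [List.getD_append_right _ _ _ _ (by omega), ← hl]
    exact h' _ (by omega) hu

theorem le_false (N : ℕ) (u : Word) : le (List.replicate N false) u = true := by
  rw [le_iff]
  intro i hi h
  rw [List.length_replicate] at hi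
  rw [List.getD_replicate _ hi] at h
  exact absurd h (by simp)

theorem le_true {N : ℕ} {u : Word} (h : u.length ≤ N) : le u (List.replicate N true) = true := by
  rw [le_iff]
  intro i hi _
  exact List.getD_replicate _ (by omega)

/-- number of letters `true` -/
def cnt (w : Word) : ℕ := ((Finset.range w.length).filter fun i => w.getD i false = true).card

theorem cnt_le (w : Word) : cnt w ≤ w.length := by
  unfold cnt
  exact (Finset.card_filter_le _ _).trans (by simp)

theorem cnt_lt {u w : Word} (hl : u.length = w.length) (h : lt u w = true) : cnt u < cnt w := by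
  unfold lt at h
  rw [Bool.and_eq_true, Bool.not_eq_true', decide_eq_false_iff_not] at h
  obtain ⟨h1, h2⟩ := h
  rw [le_iff] at h1
  unfold cnt
  have hex : ∃ i < u.length, u.getD i false ≠ w.getD i false := by
    by_contra hcon
    push Not at hcon
    exact h2 (ext_getD hl hcon)
  obtain ⟨i, hi, hne⟩ := hex
  refine Finset.card_lt_card (Finset.ssubset_iff_of_subset ?_ |>.2 ⟨i, ?_, ?_⟩)
  · intro j hj
    simp only [Finset.mem_filter, Finset.mem_range] at hj ⊢
    exact ⟨hl ▸ hj.1, h1 j hj.1 hj.2⟩
  · simp only [Finset.mem_filter, Finset.mem_range]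
    refine ⟨hl ▸ hi, ?_⟩
    rcases hu : u.getD i false with _ | _
    · rw [hu] at hne
      rcases hw : w.getD i false with _ | _
      · rw [hw] at hne
        exact absurd rfl hne
      · rfl
    · exact h1 i hi hu
  · simp only [Finset.mem_filter, Finset.mem_range, not_and]
    intro _ hu
    exact hne (hu.trans (h1 i hi hu).symm)

theorem length_inc {N : ℕ} {l : List ℕ} (h : l.Pairwise (· < ·)) (h' : ∀ a ∈ l, a ≤ N) :
    l.length ≤ N + 1 := by
  have h1 : l.Nodup := h.imp fun hab => ne_of_lt hab
  rw [← List.toFinset_card_of_nodup h1]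
  calc l.toFinset.card ≤ (Finset.range (N + 1)).card := Finset.card_le_card fun a ha => by
        rw [List.mem_toFinset] at ha
        rw [Finset.mem_range]
        have := h' a ha
        omega
    _ = N + 1 := Finset.card_range _

variable {m : ℕ}

theorem FPB.leW {A B : (Fin m → List K) → Word} (hA : FPW m A) (hB : FPW m B) :
    FPB m (fun ρ => le (A ρ) (B ρ)) :=
  FPB.all hA.len (b := fun i ρ => !(A ρ).getD i false || (B ρ).getD i false)
    ((FPW.getD hA.weak FPN.v0).not.or (FPW.getD hB.weak FPN.v0))

theorem FPB.ltW {A B : (Fin m → List K) → Word} (hA : FPW m A) (hB : FPW m B) :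
    FPB m (fun ρ => lt (A ρ) (B ρ)) := (FPB.leW hA hB).and (FPW.eq hA hB).not

theorem core_key (L : Set Word) (v : Word → Word → Bool) (hv : Good2 v) (q e : Polynomial ℕ)
    (hq : ∀ x c, v x c = true → c.length ≤ q.eval x.length)
    (he : ∀ x c, v x c = true → e.eval x.length ≤ c.length)
    (hcone : ∀ x ∈ L, ∃ t, v x t = true ∧ ∀ c, v x c = true → c = t ∨
      lt (c.take (e.eval x.length)) (t.take (e.eval x.length)) = true ∨
      lt (t.take (e.eval x.length)) (c.take (e.eval x.length)) = true)
    (hout : ∀ x, x ∉ L → ∀ c, v x c = false) : InParityP L := by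
  let r : Word → Word → Word → Bool := fun x c c' => decide (c = c') ||
    lt (c.take (e.eval x.length)) (c'.take (e.eval x.length))
  have hr : Good3 r := by
    intro m A B D hA hB hD
    exact (FPW.eq hB hD).or (FPB.ltW (hB.take (hA.len.poly e)) (hD.take (hA.len.poly e)))
  have hlen : ∀ x c, v x c = true → (c.take (e.eval x.length)).length = e.eval x.length :=
    fun x c hc => by rw [List.length_take, min_eq_left (he x c hc)]
  have hlt : ∀ {u w : Word}, lt u w = true ↔ le u w = true ∧ u ≠ w := by
    intro u w
    unfold lt
    rw [Bool.and_eq_true, Bool.not_eq_true', decide_eq_false_iff_not]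
  refine core L v r hv hr (q + e + 1) (fun x => {c | v x c = true}) ?_ ?_ ?_ ?_ ?_ ?_
  · intro x
    ext c
    simp only [Set.mem_ofPred_eq]
    refine ⟨fun h => ⟨?_, h⟩, fun h => h.2⟩
    have := hq x c h
    simp only [Polynomial.eval_add, Polynomial.eval_one]
    omega
  · intro x y hy z hz h1 h2
    simp only [r, Bool.or_eq_true, decide_eq_true_eq] at h1 h2
    rcases h1 with h1 | h1
    · exact h1
    · rcases h2 with h2 | h2
      · exact h2.symm
      · exfalso
        rw [hlt] at h1 h2
        exact h1.2 (le_antisymm' (by rw [hlen x y hy, hlen x z hz]) h1.1 h2.1)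
  · intro x y hy z hz w hw h1 h2
    simp only [r, Bool.or_eq_true, decide_eq_true_eq] at h1 h2 ⊢
    rcases h1 with rfl | h1
    · exact h2
    · rcases h2 with rfl | h2
      · exact Or.inr h1
      · right
        rw [hlt] at h1 h2 ⊢
        refine ⟨le_trans' (by rw [hlen x y hy, hlen x z hz]) h1.1 h2.1, fun h => ?_⟩
        rw [← h] at h2
        exact h1.2 (le_antisymm' (by rw [hlen x y hy, hlen x z hz]) h1.1 h2.1)
  · intro x l hl hp
    have h1 : (l.map fun c => cnt (c.take (e.eval x.length))).Pairwise (· < ·) := by
      rw [List.pairwise_map]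
      refine List.Pairwise.imp_of_mem ?_ hp
      intro a b ha hb hab
      have h2 := hab.1
      simp only [r, Bool.or_eq_true, decide_eq_true_eq] at h2
      exact cnt_lt (by rw [hlen x a (hl a ha), hlen x b (hl b hb)]) (h2.resolve_left hab.2)
    have h2 := length_inc (N := e.eval x.length) h1 (by
      intro a ha
      obtain ⟨c, hc, rfl⟩ := List.mem_map.1 ha
      have := cnt_le (c.take (e.eval x.length))
      rwa [hlen x c (hl c hc)] at this)
    rw [List.length_map] at h2
    simp only [Polynomial.eval_add, Polynomial.eval_one]
    omega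
  · intro x hx
    obtain ⟨t, ht, h⟩ := hcone x hx
    refine ⟨t, ht, fun c hc => ?_⟩
    simp only [r, Bool.or_eq_true, decide_eq_true_eq]
    rcases h c hc with h | h | h
    · exact Or.inl (Or.inl h)
    · exact Or.inl (Or.inr h)
    · exact Or.inr (Or.inr h)
  · intro x hx
    ext c
    simp [hout x hx c]

end Pool.Agent.PAR
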