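import Pool.Agent.Helper7_PAR.Ops

/-!
# Parity-P: witness sets closed under a Boolean operation, main theorem
-/

set_option autoImplicit false

namespace Pool.Agent.PAR

variable {V : Word × Word → Bool} {p : Polynomial ℕ} {x : Word}

/-- the third kind, without the rows -/
def k3 (n : ℕ) (Q : Word) : Word := [true, true] ++ (rep n true ++
  (rep (2 * n * (2 * n)) true ++ Q))

theorem ext1 {n : ℕ} {a : Word} (ha : a.length = n) : ((c1 n a).drop 2).take n = a := by
  unfold c1
  rw [List.drop_left' (by rfl), List.take_left' ha]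

theorem ext2 {n : ℕ} {T : Word} (hT : T.length = 2 * n * (2 * n)) :
    ((c2 n T).drop (2 + n)).take (2 * n * (2 * n)) = T := by
  have e : c2 n T = ([false, true] ++ rep n true) ++ (T ++ rep n false) := by
    simp [c2]
  rw [e, List.drop_left' (by simp; omega), List.take_left' hT]

theorem ext3 {n : ℕ} {Q y z : Word} (hQ : Q.length = n) (hy : y.length = n) :
    ((c3 n Q y z).drop (2 + n + 2 * n * (2 * n))).take n = Q ∧
    ((c3 n Q y z).drop (2 + n + 2 * n * (2 * n) + n)).take n = y ∧
    (c3 n Q y z).drop (2 + n + 2 * n * (2 * n) + n + n) = z := by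
  have e1 : c3 n Q y z = ([true, true] ++ rep n true ++ rep (2 * n * (2 * n)) true) ++
      (Q ++ (y ++ z)) := by
    simp only [c3, List.append_assoc]
  have e2 : c3 n Q y z = ([true, true] ++ rep n true ++ rep (2 * n * (2 * n)) true ++ Q) ++
      (y ++ z) := by
    simp only [c3, List.append_assoc]
  have e3 : c3 n Q y z = ([true, true] ++ rep n true ++ rep (2 * n * (2 * n)) true ++ Q ++ y) ++
      z := by
    simp only [c3, List.append_assoc]
  refine ⟨?_, ?_, ?_⟩
  · rw [e1, List.drop_left' (by simp; omega), List.take_left' hQ]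
  · rw [e2, List.drop_left' (by simp [hQ]; omega), List.take_left' hy]
  · rw [e3, List.drop_left' (by simp [hQ, hy]; omega)]

theorem ver_iff (c : Word) : ver V p x c = true ↔
    (∃ a, a.length = p.eval x.length ∧ V (x, a) = true ∧ c = c1 (p.eval x.length) a) ∨
    (∃ T, val2 V (p.eval x.length) x T = true ∧ c = c2 (p.eval x.length) T) ∨
    ∃ Q y z, val3 V (p.eval x.length) x Q y z = true ∧ c = c3 (p.eval x.length) Q y z := by
  unfold ver
  generalize p.eval x.length = n
  simp only [Bool.or_eq_true, Bool.and_eq_true, decide_eq_true_eq]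
  constructor
  · rintro ((⟨⟨h1, h2⟩, h3⟩ | ⟨h1, h2⟩) | ⟨h1, h2⟩)
    · exact Or.inl ⟨_, h2, h3, h1⟩
    · exact Or.inr (Or.inl ⟨_, h2, h1⟩)
    · exact Or.inr (Or.inr ⟨_, _, _, h2, h1⟩)
  · rintro (⟨a, h1, h2, rfl⟩ | ⟨T, h1, rfl⟩ | ⟨Q, y, z, h1, rfl⟩)
    · rw [ext1 h1]
      exact Or.inl (Or.inl ⟨⟨rfl, h1⟩, h2⟩)
    · rw [ext2 (val2_le h1).1]
      exact Or.inl (Or.inr ⟨rfl, h1⟩)
    · obtain ⟨hQ, hy, -, -⟩ := val3_iff.1 h1
      obtain ⟨e1, e2, e3⟩ := ext3 (n := n) (z := z) hQ hy
      rw [e1, e2, e3]
      exact Or.inr ⟨rfl, h1⟩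

theorem length_c1 {n : ℕ} {a : Word} (ha : a.length = n) :
    (c1 n a).length = 2 + n + 2 * n * (2 * n) + n := by
  simp [c1, ha]
  omega

theorem length_c2 {n : ℕ} {T : Word} (hT : T.length = 2 * n * (2 * n)) :
    (c2 n T).length = 2 + n + 2 * n * (2 * n) + n := by
  simp [c2, hT]
  omega

theorem length_c3 {n : ℕ} {Q y z : Word} (hQ : Q.length = n) (hy : y.length = n)
    (hz : z.length = n * n) :
    (c3 n Q y z).length = 2 + n + 2 * n * (2 * n) + n + (n + n * n) := by
  simp [c3, hQ, hy, hz]
  omega

theorem take_c3 {n : ℕ} {Q y z : Word} (hQ : Q.length = n) :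
    (c3 n Q y z).take (2 + n + 2 * n * (2 * n) + n) = k3 n Q := by
  have e : c3 n Q y z = k3 n Q ++ (y ++ z) := by simp [c3, k3]
  rw [e, List.take_left']
  simp [k3, hQ]
  omega

theorem lt_of {u w : Word} (h : le u w = true) (h' : u ≠ w) : lt u w = true := by
  unfold lt
  rw [h]
  simp [h']

theorem le_pair {a b a' b' : Bool} (h : a = false ∨ a' = true) (h' : b = false ∨ b' = true) :
    le [a, b] [a', b'] = true := by
  rcases h with rfl | rfl <;> rcases h' with rfl | rfl
  · cases a' <;> cases b' <;> rfl
  · cases a' <;> cases b <;> rfl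
  · cases a <;> cases b' <;> rfl
  · cases a <;> cases b <;> rfl

theorem le_c1 {n : ℕ} {a b : Word} (hl : a.length = b.length) (h : le a b = true) :
    le (c1 n a) (c1 n b) = true :=
  le_append rfl (le_refl' _) (le_append hl h (le_refl' _))

theorem le_c2 {n : ℕ} {T U : Word} (hl : T.length = U.length) (h : le T U = true) :
    le (c2 n T) (c2 n U) = true :=
  le_append rfl (le_refl' _) (le_append rfl (le_refl' _) (le_append hl h (le_refl' _)))

theorem le_k3 {n : ℕ} {Q R : Word} (h : le Q R = true) : le (k3 n Q) (k3 n R) = true :=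
  le_append rfl (le_refl' _) (le_append rfl (le_refl' _) (le_append rfl (le_refl' _) h))

theorem lt12 {n : ℕ} {a T : Word} (ha : a.length = n) (hT : T.length = 2 * n * (2 * n)) :
    lt (c1 n a) (c2 n T) = true := by
  refine lt_of ?_ (fun h => ?_)
  · refine le_append rfl (le_pair (Or.inl rfl) (Or.inl rfl)) (le_append (by simp [ha])
      (le_true ha.le) (le_append (by simp [hT]) (le_false _ _) (le_refl' _)))
  · simp [c1, c2] at h

theorem lt13 {n : ℕ} {a Q : Word} (ha : a.length = n) : lt (c1 n a) (k3 n Q) = true := by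
  refine lt_of ?_ (fun h => ?_)
  · refine le_append rfl (le_pair (Or.inl rfl) (Or.inl rfl)) (le_append (by simp [ha])
      (le_true ha.le) (le_append (by simp) (le_false _ _) (le_false _ _)))
  · simp [c1, k3] at h

theorem lt23 {n : ℕ} {T Q : Word} (hT : T.length = 2 * n * (2 * n)) :
    lt (c2 n T) (k3 n Q) = true := by
  refine lt_of ?_ (fun h => ?_)
  · refine le_append rfl (le_pair (Or.inl rfl) (Or.inr rfl)) (le_append rfl (le_refl' _)
      (le_append (by simp [hT]) (le_true hT.le) (le_false _ _)))
  · simp [c2, k3] at h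

theorem c1_inj {n : ℕ} {a b : Word} (ha : a.length = n) (hb : b.length = n)
    (h : c1 n a = c1 n b) : a = b := by
  rw [← ext1 ha, h, ext1 hb]

/-- **Main theorem.** -/
theorem closed_main (L : Set Word) (V : Word × Word → Bool) (p : Polynomial ℕ)
    (h : IsVerifier L V p)
    (hcl : ∀ x ∈ L, ∃ (k : ℕ) (f : (Fin k → Bool) → Bool), ¬ IsProj f ∧
      ClosedUnder f (sols V p x)) : InParityP L := by
  obtain ⟨hV, hL⟩ := h
  refine core_key L (ver V p) (good_ver hV p) (2 + p + 2 * p * (2 * p) + p + (p + p * p))
    (2 + p + 2 * p * (2 * p) + p) ?_ ?_ ?_ ?_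
  · intro x c hc
    simp only [Polynomial.eval_add, Polynomial.eval_mul, Polynomial.eval_ofNat]
    rcases (ver_iff c).1 hc with ⟨a, h1, h2, rfl⟩ | ⟨T, h1, rfl⟩ | ⟨Q, y, z, h1, rfl⟩
    · rw [length_c1 h1]
      omega
    · rw [length_c2 (val2_le h1).1]
      omega
    · obtain ⟨h2, h3, h4, -⟩ := val3_iff.1 h1
      rw [length_c3 h2 h3 h4]
  · intro x c hc
    simp only [Polynomial.eval_add, Polynomial.eval_mul, Polynomial.eval_ofNat]
    rcases (ver_iff c).1 hc with ⟨a, h1, h2, rfl⟩ | ⟨T, h1, rfl⟩ | ⟨Q, y, z, h1, rfl⟩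
    · rw [length_c1 h1]
    · rw [length_c2 (val2_le h1).1]
    · obtain ⟨h2, h3, h4, -⟩ := val3_iff.1 h1
      rw [length_c3 h2 h3 h4]
      omega
  · intro x hx
    simp only [Polynomial.eval_add, Polynomial.eval_mul, Polynomial.eval_ofNat]
    have hW : sols V p x = wit V x (p.eval x.length) := rfl
    obtain ⟨k, f, hf, hc⟩ := hcl x hx
    have hne := (hL x).1 hx
    rw [hW] at hne hc
    clear hW
    have hvi : ∀ c, ver V p x c = true ↔ _ := fun c => ver_iff c
    revert hvi
    generalize p.eval x.length = n at *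
    intro hvi
    have key1 : ∀ t : Fin n → Bool, t ∈ wit V x n → (∀ y ∈ wit V x n,
        (∀ i, y i = true → t i = true) ∨ (∀ i, t i = true → y i = true)) →
        ∃ t, ver V p x t = true ∧ ∀ c, ver V p x c = true → c = t ∨
          lt (c.take (2 + n + 2 * n * (2 * n) + n)) (t.take (2 + n + 2 * n * (2 * n) + n)) = true ∨
          lt (t.take (2 + n + 2 * n * (2 * n) + n))
            (c.take (2 + n + 2 * n * (2 * n) + n)) = true := by
      intro t ht hcomp
      have htl : (List.ofFn t).length = n := by simp
      refine ⟨c1 n (List.ofFn t), (hvi _).2 (Or.inl ⟨_, htl, ht, rfl⟩), fun c hc => ?_⟩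
      rw [List.take_of_length_le (length_c1 htl).le]
      rcases (hvi c).1 hc with ⟨a, h1, h2, rfl⟩ | ⟨T, h1, rfl⟩ | ⟨Q, y, z, h1, rfl⟩
      · rw [List.take_of_length_le (length_c1 h1).le]
        have ha : vec n a ∈ wit V x n := by
          show V (x, List.ofFn _) = true
          rw [ofFn_vec h1]
          exact h2
        by_cases hat : a = List.ofFn t
        · exact Or.inl (by rw [hat])
        · right
          rcases hcomp _ ha with h3 | h3
          · left
            refine lt_of (le_c1 (h1.trans htl.symm) (le_iff.2 fun i hi hai => ?_))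
              (fun h => hat (c1_inj h1 htl h))
            rw [getD_ofFn t (h1 ▸ hi)]
            exact h3 ⟨i, h1 ▸ hi⟩ hai
          · right
            refine lt_of (le_c1 (htl.trans h1.symm) (le_iff.2 fun i hi hai => ?_))
              (fun h => hat (c1_inj htl h1 h).symm)
            rw [htl] at hi
            rw [getD_ofFn t hi] at hai
            exact h3 ⟨i, hi⟩ hai
      · have hT := (val2_le h1).1
        rw [List.take_of_length_le (length_c2 hT).le]
        exact Or.inr (Or.inr (lt12 htl hT))
      · obtain ⟨hQ, -⟩ := val3_iff.1 h1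
        rw [take_c3 hQ]
        exact Or.inr (Or.inr (lt13 htl))
    rcases post f hf _ hne hc with (h0 | h0) | h0 | h0 | h0 | h0
    · exact key1 _ h0 fun y _ => Or.inr fun i hi => absurd hi (by simp)
    · exact key1 _ h0 fun y _ => Or.inl fun i _ => rfl
    · -- least element
      obtain ⟨t, ht, hmin⟩ : ∃ t ∈ wit V x n, ∀ y ∈ wit V x n, ∀ i, t i = true → y i = true := by
        classical
        have hfin : (wit V x n).Finite := Set.toFinite _
        have key : ∀ S : Finset (Fin n → Bool), S.Nonempty → (∀ y ∈ S, y ∈ wit V x n) →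
            ∃ t ∈ wit V x n, ∀ y ∈ S, ∀ i, t i = true → y i = true := by
          intro S hS
          induction hS using Finset.Nonempty.cons_induction with
          | singleton a => exact fun h => ⟨a, h a (by simp), by simp⟩
          | cons a S ha hS ih =>
            intro h
            obtain ⟨t, ht, ht'⟩ := ih fun y hy => h y (by simp [hy])
            refine ⟨_, h0 a (h a (by simp)) t ht, fun y hy i hi => ?_⟩
            simp only [Bool.and_eq_true] at hi
            rcases Finset.mem_cons.1 hy with rfl | hy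
            · exact hi.1
            · exact ht' y hy i hi.2
        obtain ⟨t, ht, ht'⟩ := key hfin.toFinset (by simpa using hne) (by simp)
        exact ⟨t, ht, fun y hy => ht' y (by simpa using hy)⟩
      exact key1 t ht fun y hy => Or.inr (hmin y hy)
    · -- greatest element
      obtain ⟨t, ht, hmax⟩ : ∃ t ∈ wit V x n, ∀ y ∈ wit V x n, ∀ i, y i = true → t i = true := by
        classical
        have hfin : (wit V x n).Finite := Set.toFinite _
        have key : ∀ S : Finset (Fin n → Bool), S.Nonempty → (∀ y ∈ S, y ∈ wit V x n) →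
            ∃ t ∈ wit V x n, ∀ y ∈ S, ∀ i, y i = true → t i = true := by
          intro S hS
          induction hS using Finset.Nonempty.cons_induction with
          | singleton a => exact fun h => ⟨a, h a (by simp), by simp⟩
          | cons a S ha hS ih =>
            intro h
            obtain ⟨t, ht, ht'⟩ := ih fun y hy => h y (by simp [hy])
            refine ⟨_, h0 a (h a (by simp)) t ht, fun y hy i hi => ?_⟩
            simp only [Bool.or_eq_true]
            rcases Finset.mem_cons.1 hy with rfl | hy
            · exact Or.inl hi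
            · exact Or.inr (ht' y hy i hi)
        obtain ⟨t, ht, ht'⟩ := key hfin.toFinset (by simpa using hne) (by simp)
        exact ⟨t, ht, fun y hy => ht' y (by simpa using hy)⟩
      exact key1 t ht fun y hy => Or.inl (hmax y hy)
    · -- majority
      rcases Nat.eq_zero_or_pos n with hn | hn
      · obtain ⟨t, ht⟩ := hne
        exact key1 t ht fun y _ => Or.inl fun i _ => absurd i.2 (by omega)
      · have hT := length_tab (wit V x n)
        refine ⟨c2 n (tab (wit V x n)), (hvi _).2 (Or.inr (Or.inl ⟨_, val2_tab h0 hne hn, rfl⟩)),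
          fun c hc => ?_⟩
        rw [List.take_of_length_le (length_c2 hT).le]
        rcases (hvi c).1 hc with ⟨a, h1, h2, rfl⟩ | ⟨T, h1, rfl⟩ | ⟨Q, y, z, h1, rfl⟩
        · rw [List.take_of_length_le (length_c1 h1).le]
          exact Or.inr (Or.inl (lt12 h1 hT))
        · obtain ⟨h2, -, h3⟩ := val2_le h1
          rw [List.take_of_length_le (length_c2 h2).le]
          by_cases he : T = tab (wit V x n)
          · exact Or.inl (by rw [he])
          · refine Or.inr (Or.inl (lt_of (le_c2 (h2.trans hT.symm) h3) fun h => he ?_))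
            rw [← ext2 h2, h, ext2 hT]
        · obtain ⟨hQ, -⟩ := val3_iff.1 h1
          rw [take_c3 hQ]
          exact Or.inr (Or.inr (lt23 hT))
    · -- minority
      classical
      obtain ⟨y, z, hF⟩ := exists_frame h0 hne
      let Q : Fin n → Bool := fun i => decide (Piv (wit V x n) i)
      have hQl : (List.ofFn Q).length = n := by simp
      have hzl : (zw z).length = n * n := by simp [zw]
      have hv3 : val3 V n x (List.ofFn Q) (List.ofFn y) (zw z) = true := by
        rw [val3_iff]
        refine ⟨hQl, by simp, hzl, ?_⟩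
        rw [vec_ofFn, vec_ofFn]
        have e : (fun i j : Fin n => (zw z).getD (i * n + j) false) = z := by
          funext i j
          exact zw_get z i j
        rw [e]
        exact hF
      refine ⟨c3 n (List.ofFn Q) (List.ofFn y) (zw z), (hvi _).2 (Or.inr (Or.inr
        ⟨_, _, _, hv3, rfl⟩)), fun c hc => ?_⟩
      rw [take_c3 hQl]
      rcases (hvi c).1 hc with ⟨a, h1, h2, rfl⟩ | ⟨T, h1, rfl⟩ | ⟨Q', y', z', h1, rfl⟩
      · rw [List.take_of_length_le (length_c1 h1).le]
        exact Or.inr (Or.inl (lt13 h1))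
      · have hT := (val2_le h1).1
        rw [List.take_of_length_le (length_c2 hT).le]
        exact Or.inr (Or.inl (lt23 hT))
      · obtain ⟨hQ', hy', hz', hF'⟩ := val3_iff.1 h1
        rw [take_c3 hQ']
        have hle : le Q' (List.ofFn Q) = true := by
          rw [le_iff]
          intro i hi hi'
          rw [hQ'] at hi
          rw [getD_ofFn Q hi]
          have := hF'.piv (i := ⟨i, hi⟩) hi'
          simpa [Q] using this
        by_cases he : Q' = List.ofFn Q
        · left
          subst he
          rw [vec_ofFn] at hF'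
          obtain ⟨e1, e2⟩ := hF.unique hF' (fun i hi => by simpa using hi)
          have e3 : y' = List.ofFn y := by
            rw [e1, ofFn_vec hy']
          have e4 : z' = zw z := by
            refine frame_word_ext hz' hzl ?_
            rw [← e2]
            funext i j
            exact (zw_get z i j).symm
          rw [e3, e4]
        · refine Or.inr (Or.inl (lt_of (le_k3 hle) fun h => he ?_))
          unfold k3 at h
          simpa using h
  · intro x hx c
    by_contra hcon
    rw [Bool.not_eq_false] at hcon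
    apply hx
    rw [hL x]
    rcases (ver_iff c).1 hcon with ⟨a, h1, h2, rfl⟩ | ⟨T, h1, rfl⟩ | ⟨Q, y, z, h1, rfl⟩
    · refine ⟨vec _ a, ?_⟩
      show V (x, List.ofFn _) = true
      rw [ofFn_vec h1]
      exact h2
    · exact (val2_le h1).2.1
    · exact ⟨_, (val3_iff.1 h1).2.2.2.mem⟩

end Pool.Agent.PAR
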