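import Pool.Agent.Helper7_PAR.Main

/-!
# Parity-P: verifiers whose witness sets are closed under negation
-/

set_option autoImplicit false

namespace Pool.Agent.PAR

open Turing Computability Pool.Agent.UT.Num Pool.Agent.H2XG
open Pool.Agent.Helper53_CookLevin (size)

/-- the letters after the first one, negated if the first one is true -/
def flipW (y : Word) : Word := (List.range (y.length - 1)).map fun i =>
  xor (y.getD (i + 1) false) (y.getD 0 false)

theorem FPW.flipW {m : ℕ} {A : (Fin m → List K) → Word} (hA : FPW m A) :
    FPW m (fun ρ => flipW (A ρ)) :=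
  FPW.range (hA.len.sub (FPN.const 1)) (b := fun i ρ => xor ((A ρ).getD (i + 1) false)
    ((A ρ).getD 0 false))
    ((FPW.getD hA.weak (FPN.v0.add (FPN.const 1))).xor (FPW.getD hA.weak (FPN.const 0)))

theorem flipW_not {y : Word} (hy : 0 < y.length) : flipW (y.map fun b => !b) = flipW y := by
  unfold flipW
  rw [List.length_map]
  refine List.map_congr_left fun i hi => ?_
  rw [List.mem_range] at hi
  have e : ∀ j < y.length, (y.map fun b => !b).getD j false = !(y.getD j false) := by
    intro j hj
    rw [List.getD_eq_getElem _ _ (by simpa using hj), List.getD_eq_getElem _ _ hj,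
      List.getElem_map]
  rw [e _ (by omega), e 0 hy]
  rcases y.getD (i + 1) false with _ | _ <;> rcases y.getD 0 false with _ | _ <;> rfl

theorem flipW_cons (y : Word) : flipW (false :: y) = y := by
  unfold flipW
  refine ext_getD (by simp) fun i hi => ?_
  have hi' : i < y.length := by simpa using hi
  rw [List.getD_eq_getElem _ _ hi, List.getElem_map, List.getElem_range]
  simp

/-- the new verifier -/
def negV (V : Word × Word → Bool) (z : Word × Word) : Bool := V (z.1, flipW z.2)

theorem neg_verifier {L : Set Word} {V : Word × Word → Bool} {p : Polynomial ℕ}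
    (h : IsVerifier L V p) : IsVerifier L (negV V) (p + 1) ∧
      ∀ x, ∀ y ∈ sols (negV V) (p + 1) x, (fun i => !(y i)) ∈ sols (negV V) (p + 1) x := by
  obtain ⟨hV, hL⟩ := h
  have hN : ∀ x : Word, (p + 1).eval x.length = p.eval x.length + 1 := by
    intro x
    simp
  refine ⟨⟨?_, fun x => ?_⟩, fun x y hy => ?_⟩
  · exact polyPair_of' (g := fun x y => negV V (x, y)) fun m A B hA hB =>
      FPB.call2 hV hA hB.flipW
  · rw [hL x]
    constructor
    · rintro ⟨y, hy⟩
      refine ⟨vec _ (false :: List.ofFn y), ?_⟩
      show V (x, flipW (List.ofFn _)) = true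
      rw [ofFn_vec (by simp), flipW_cons]
      exact hy
    · rintro ⟨y, hy⟩
      refine ⟨vec _ (flipW (List.ofFn y)), ?_⟩
      show V (x, List.ofFn _) = true
      rw [ofFn_vec (by simp [flipW])]
      exact hy
  · show V (x, flipW (List.ofFn _)) = true
    have e : List.ofFn (fun i => !(y i)) = (List.ofFn y).map fun b => !b := by
      rw [List.map_ofFn]
      rfl
    rw [e, flipW_not (by rw [List.length_ofFn, hN]; omega)]
    exact hy

theorem proj_case {k : ℕ} (f : (Fin k → Bool) → Bool) (hf : IsProj f)
    (h : ∀ (L : Set Word) (V : Word × Word → Bool) (p : Polynomial ℕ), IsVerifier L V p →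
      (∀ x, ClosedUnder f (sols V p x)) → InParityP L) (L : Set Word)
    (V : Word × Word → Bool) (p : Polynomial ℕ) (hL : IsVerifier L V p) : InParityP L := by
  obtain ⟨j, hj | hj⟩ := hf
  · refine h L V p hL fun x Y hY => ?_
    have e : (fun i => f (fun j => Y j i)) = Y j := by
      funext i
      rw [hj]
    rw [e]
    exact hY j
  · obtain ⟨h1, h2⟩ := neg_verifier hL
    refine h L (negV V) (p + 1) h1 fun x Y hY => ?_
    have e : (fun i => f (fun j => Y j i)) = fun i => !(Y j i) := by
      funext i
      rw [hj]
    rw [e]
    exact h2 x _ (hY j)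

end Pool.Agent.PAR
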