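import Pool.Agent.Helper7_PAR.Defs

/-!
# Parity-P: sets of Boolean vectors closed under a nontrivial operation (Post)
-/

set_option autoImplicit false

namespace Pool.Agent.PAR

/-- majority -/
def maj (x y z : Bool) : Bool := (x && y) || (x && z) || (y && z)

/-- minority -/
def mino (x y z : Bool) : Bool := xor (xor x y) z

variable {n : ℕ}

/-- closed under a binary operation -/
def Cl2 (g : Bool → Bool → Bool) (W : Set (Fin n → Bool)) : Prop :=
  ∀ a ∈ W, ∀ b ∈ W, (fun i => g (a i) (b i)) ∈ W

/-- closed under a ternary operation -/
def Cl3 (g : Bool → Bool → Bool → Bool) (W : Set (Fin n → Bool)) : Prop :=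
  ∀ a ∈ W, ∀ b ∈ W, ∀ c ∈ W, (fun i => g (a i) (b i) (c i)) ∈ W

theorem post_idem {k : ℕ} (f : (Fin k → Bool) → Bool) (h0 : f (fun _ => false) = false)
    (h1 : f (fun _ => true) = true) (hf : ¬ ∃ j, ∀ b, f b = b j) (W : Set (Fin n → Bool))
    (hc : ClosedUnder f W) :
    Cl2 (fun a b => a && b) W ∨ Cl2 (fun a b => a || b) W ∨ Cl3 maj W ∨ Cl3 mino W := by
  by_cases hs : ∃ b : Fin k → Bool, f b = f (fun j => !(b j))
  · obtain ⟨b, hb⟩ := hs
    have key : ∀ a ∈ W, ∀ a' ∈ W, (fun i => f (fun j => if b j then a i else a' i)) ∈ W := by
      intro a ha a' ha'
      have h := hc (fun j => if b j then a else a') (fun j => by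
        by_cases hj : b j = true
        · simp [hj, ha]
        · simp [hj, ha'])
      have e : (fun i => f (fun j => (if b j then a else a' : Fin n → Bool) i)) =
          fun i => f (fun j => if b j then a i else a' i) := by
        funext i
        congr 1
        funext j
        split_ifs <;> rfl
      rwa [e] at h
    have e1 : (fun j => if b j then true else false) = b := by
      funext j
      cases b j <;> rfl
    have e2 : (fun j => if b j then false else true) = fun j => !(b j) := by
      funext j
      cases b j <;> rfl
    have e3 : ∀ c : Bool, (fun j => if b j then c else c) = fun _ => c := by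
      intro c
      funext j
      cases b j <;> rfl
    rcases hfb : f b with _ | _
    · left
      intro a ha a' ha'
      have h := key a ha a' ha'
      have e : (fun i => f (fun j => if b j then a i else a' i)) = fun i => a i && a' i := by
        funext i
        rcases a i with _ | _ <;> rcases a' i with _ | _
        · rw [e3, h0]; rfl
        · rw [e2, ← hb, hfb]; rfl
        · rw [e1, hfb]; rfl
        · rw [e3, h1]; rfl
      rwa [e] at h
    · right; left
      intro a ha a' ha'
      have h := key a ha a' ha'
      have e : (fun i => f (fun j => if b j then a i else a' i)) = fun i => a i || a' i := by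
        funext i
        rcases a i with _ | _ <;> rcases a' i with _ | _
        · rw [e3, h0]; rfl
        · rw [e2, ← hb, hfb]; rfl
        · rw [e1, hfb]; rfl
        · rw [e3, h1]; rfl
      rwa [e] at h
  · right; right
    have hsd : ∀ b, f (fun j => !(b j)) = !(f b) := by
      intro b
      by_contra h
      apply hs
      refine ⟨b, ?_⟩
      rcases hx : f b with _ | _ <;> rcases hy : f (fun j => !(b j)) with _ | _
      · rfl
      · rw [hx, hy] at h; exact absurd rfl h
      · rw [hx, hy] at h; exact absurd rfl h
      · rfl
    -- ternary minors
    let m (σ : Fin k → Fin 3) (x y z : Bool) : Bool := f (fun j => ![x, y, z] (σ j))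
    have hm : ∀ σ, Cl3 (m σ) W := by
      intro σ a ha b hb c hc'
      have h := hc (fun j => ![a, b, c] (σ j)) (fun j => by
        generalize σ j = s
        fin_cases s <;> simp [ha, hb, hc'])
      have e : (fun i => f (fun j => (![a, b, c] (σ j)) i)) = fun i => m σ (a i) (b i) (c i) := by
        funext i
        show f _ = f _
        congr 1
        funext j
        generalize σ j = s
        fin_cases s <;> rfl
      rwa [e] at h
    have m000 : ∀ σ, m σ false false false = false := by
      intro σ
      have e : (fun j => ![false, false, false] (σ j)) = fun _ => false := by
        funext j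
        generalize σ j = s
        fin_cases s <;> rfl
      show f _ = _
      rw [e, h0]
    have mneg : ∀ σ x y z, m σ (!x) (!y) (!z) = !(m σ x y z) := by
      intro σ x y z
      have e : (fun j => ![!x, !y, !z] (σ j)) = fun j => !(![x, y, z] (σ j)) := by
        funext j
        generalize σ j = s
        fin_cases s <;> rfl
      show f _ = !(f _)
      rw [e, hsd]
    have m111 : ∀ σ, m σ true true true = true := by
      intro σ
      have := mneg σ false false false
      rw [m000] at this
      exact this
    by_cases h2 : ∀ σ, (m σ true false false = true ∧ m σ false true false = false ∧
        m σ false false true = false) ∨ (m σ true false false = false ∧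
        m σ false true false = true ∧ m σ false false true = false) ∨
        (m σ true false false = false ∧ m σ false true false = false ∧
        m σ false false true = true)
    · exfalso
      apply hf
      -- a vector with value true and minimal support
      let sz (b : Fin k → Bool) : ℕ := (Finset.univ.filter fun j => b j = true).card
      obtain ⟨b, hb, hmin⟩ : ∃ b, f b = true ∧ ∀ b', f b' = true → sz b ≤ sz b' := by
        have hex : ∃ N, ∃ b, f b = true ∧ sz b = N := ⟨_, _, h1, rfl⟩
        classical
        obtain ⟨b, hb1, hb2⟩ := Nat.find_spec hex
        refine ⟨b, hb1, fun b' hb' => ?_⟩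
        rw [hb2]
        exact Nat.find_min' hex ⟨b', hb', rfl⟩
      obtain ⟨j₀, hj₀⟩ : ∃ j, b j = true := by
        by_contra h
        push Not at h
        have : b = fun _ => false := by
          funext j
          simpa using h j
        rw [this, h0] at hb
        exact absurd hb (by simp)
      have hsingle : ∀ j, b j = true → j = j₀ := by
        intro j₁ hj₁
        by_contra hne
        have hlt : ∀ b' : Fin k → Bool, (∀ j, b' j = true → b j = true) →
            (∃ j, b j = true ∧ b' j = false) → f b' = false := by
          rintro b' hsub ⟨j, hj, hj'⟩
          by_contra h
          have h3 := hmin b' (by simpa using h)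
          have h4 : sz b' < sz b := by
            refine Finset.card_lt_card (Finset.ssubset_iff_of_subset ?_ |>.2 ⟨j, ?_, ?_⟩)
            · intro i hi
              simp only [Finset.mem_filter, Finset.mem_univ, true_and] at hi ⊢
              exact hsub i hi
            · simpa using hj
            · simp [hj']
          omega
        have h5 := h2 (fun j => if b j = true then (if j = j₀ then 0 else 1) else 2)
        have eA : m (fun j => if b j = true then (if j = j₀ then 0 else 1) else 2)
            true false false = false := by
          refine hlt _ (fun j hj => ?_) ⟨j₁, hj₁, ?_⟩
          · by_contra h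
            simp [h] at hj
          · simp [hj₁, hne]
        have eB : m (fun j => if b j = true then (if j = j₀ then 0 else 1) else 2)
            false true false = false := by
          refine hlt _ (fun j hj => ?_) ⟨j₀, hj₀, ?_⟩
          · by_contra h
            simp [h] at hj
          · simp [hj₀]
        have eC : m (fun j => if b j = true then (if j = j₀ then 0 else 1) else 2)
            false false true = false := by
          have e : (fun j => ![false, false, true] ((fun j => if b j = true then
              (if j = j₀ then 0 else 1) else 2 : Fin k → Fin 3) j)) = fun j => !(b j) := by
            funext j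
            by_cases hj : b j = true
            · by_cases hj' : j = j₀
              · subst hj'
                simp [hj]
              · simp [hj, hj']
            · simp [hj]
          show f _ = false
          rw [e, hsd, hb]
          rfl
        rw [eA, eB, eC] at h5
        simp at h5
      have hbe : b = fun j => decide (j = j₀) := by
        funext j
        by_cases hj : j = j₀
        · subst hj
          simp [hj₀]
        · have : b j = false := by
            by_contra h
            exact hj (hsingle j (by simpa using h))
          simp [this, hj]
      have hone : ∀ c : Fin k → Bool, c j₀ = true → f c = true := by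
        intro c hcj
        have h5 := h2 (fun j => if j = j₀ then 0 else if c j = true then 1 else 2)
        have eA : m (fun j => if j = j₀ then 0 else if c j = true then 1 else 2)
            true false false = true := by
          have e : (fun j => ![true, false, false] ((fun j => if j = j₀ then 0 else
              if c j = true then 1 else 2 : Fin k → Fin 3) j)) = b := by
            rw [hbe]
            funext j
            by_cases hj : j = j₀
            · simp [hj]
            · by_cases hj' : c j = true
              · simp [hj, hj']
              · simp [hj, hj']
          show f _ = true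
          rw [e, hb]
        have eC : m (fun j => if j = j₀ then 0 else if c j = true then 1 else 2)
            false false true = !(f c) := by
          have e : (fun j => ![false, false, true] ((fun j => if j = j₀ then 0 else
              if c j = true then 1 else 2 : Fin k → Fin 3) j)) = fun j => !(c j) := by
            funext j
            by_cases hj : j = j₀
            · subst hj
              simp [hcj]
            · by_cases hj' : c j = true
              · simp [hj, hj']
              · simp [hj, hj']
          show f _ = _
          rw [e, hsd]
        rw [eA, eC] at h5
        rcases hfc : f c with _ | _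
        · rw [hfc] at h5
          simp at h5
        · rfl
      refine ⟨j₀, fun c => ?_⟩
      rcases hcj : c j₀ with _ | _
      · have := hone (fun j => !(c j)) (by simp [hcj])
        rw [hsd] at this
        simpa using this
      · exact hone c hcj
    · push Not at h2
      obtain ⟨σ, hσ1, hσ2, hσ3⟩ := h2
      have hmσ := hm σ
      have q0 := m000 σ
      have q7 := m111 σ
      have n1 := mneg σ true false false
      have n2 := mneg σ false true false
      have n3 := mneg σ false false true
      simp only [Bool.not_true, Bool.not_false] at n1 n2 n3
      generalize m σ = g at hmσ q0 q7 n1 n2 n3 hσ1 hσ2 hσ3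
      have ext3 : ∀ g' : Bool → Bool → Bool → Bool, Cl3 g' W →
          (∀ x y z, g' x y z = maj x y z) → Cl3 maj W := by
        intro g' hg' he a ha b hb c hc'
        have h := hg' a ha b hb c hc'
        have e : (fun i => g' (a i) (b i) (c i)) = fun i => maj (a i) (b i) (c i) := by
          funext i
          rw [he]
        rwa [e] at h
      rcases v1 : g true false false with _ | _ <;> rcases v2 : g false true false with _ | _ <;>
        rcases v3 : g false false true with _ | _ <;>
        simp only [v1, v2, v3, Bool.not_true, Bool.not_false] at n1 n2 n3 hσ1 hσ2 hσ3
      · left
        refine ext3 g hmσ fun x y z => ?_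
        rcases x with _ | _ <;> rcases y with _ | _ <;> rcases z with _ | _ <;>
          simp [q0, q7, n1, n2, n3, v1, v2, v3, maj]
      · simp at hσ3
      · simp at hσ2
      · left
        refine ext3 (fun x y z => g (g x y z) y z)
          (fun a ha b hb c hc' => hmσ _ (hmσ a ha b hb c hc') b hb c hc') fun x y z => ?_
        rcases x with _ | _ <;> rcases y with _ | _ <;> rcases z with _ | _ <;>
          simp [q0, q7, n1, n2, n3, v1, v2, v3, maj]
      · simp at hσ1
      · left
        refine ext3 (fun x y z => g x (g x y z) z)
          (fun a ha b hb c hc' => hmσ a ha _ (hmσ a ha b hb c hc') c hc') fun x y z => ?_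
        rcases x with _ | _ <;> rcases y with _ | _ <;> rcases z with _ | _ <;>
          simp [q0, q7, n1, n2, n3, v1, v2, v3, maj]
      · left
        refine ext3 (fun x y z => g x y (g x y z))
          (fun a ha b hb c hc' => hmσ a ha b hb _ (hmσ a ha b hb c hc')) fun x y z => ?_
        rcases x with _ | _ <;> rcases y with _ | _ <;> rcases z with _ | _ <;>
          simp [q0, q7, n1, n2, n3, v1, v2, v3, maj]
      · right
        intro a ha b hb c hc'
        have h := hmσ a ha b hb c hc'
        have e : (fun i => g (a i) (b i) (c i)) = fun i => mino (a i) (b i) (c i) := by
          funext i
          rcases a i with _ | _ <;> rcases b i with _ | _ <;> rcases c i with _ | _ <;>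
            simp [q0, q7, n1, n2, n3, v1, v2, v3, mino]
        rwa [e] at h

/-- A nonempty set of Boolean vectors which is closed under an operation other than a projection
or a negated projection contains a constant vector or is closed under and, or, majority or
minority. -/
theorem post {k : ℕ} (f : (Fin k → Bool) → Bool) (hf : ¬ IsProj f) (W : Set (Fin n → Bool))
    (hW : W.Nonempty) (hc : ClosedUnder f W) :
    ((fun _ => false) ∈ W ∨ (fun _ => true) ∈ W) ∨ Cl2 (fun a b => a && b) W ∨
      Cl2 (fun a b => a || b) W ∨ Cl3 maj W ∨ Cl3 mino W := by
  obtain ⟨w, hw⟩ := hW
  have hu := hc (fun _ => w) (fun _ => hw)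
  rcases h0 : f (fun _ => false) with _ | _ <;> rcases h1 : f (fun _ => true) with _ | _
  · left; left
    have e : (fun i => f (fun _ => w i)) = fun _ => false := by
      funext i
      rcases w i with _ | _
      · exact h0
      · exact h1
    rwa [e] at hu
  · right
    exact post_idem f h0 h1 (fun ⟨j, hj⟩ => hf ⟨j, Or.inl hj⟩) W hc
  · right
    have hneg : ∀ a ∈ W, (fun i => !(a i)) ∈ W := by
      intro a ha
      have h := hc (fun _ => a) (fun _ => ha)
      have e : (fun i => f (fun _ => a i)) = fun i => !(a i) := by
        funext i
        rcases a i with _ | _
        · exact h0
        · exact h1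
      rwa [e] at h
    refine post_idem (fun b => !(f b)) (by rw [h0]; rfl) (by rw [h1]; rfl) ?_ W ?_
    · rintro ⟨j, hj⟩
      refine hf ⟨j, Or.inr fun b => ?_⟩
      rw [← hj b, Bool.not_not]
    · intro Y hY
      exact hneg _ (hc Y hY)
  · left; right
    have e : (fun i => f (fun _ => w i)) = fun _ => true := by
      funext i
      rcases w i with _ | _
      · exact h0
      · exact h1
    rwa [e] at hu

end Pool.Agent.PAR
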