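import Pool.Agent.Helper7_PAR.Cliq

/-!
# Sets of integer vectors which are closed under a step operation

A finite nonempty set of vectors of natural numbers which is closed under the step
`v ↦ v - 1` where `v > w`, or under the step `v ↦ v + 1` where `v < w`, or under one of the two
rounded midpoints, is dismantlable for the graph `v ≤ w ≤ v + 1`.
-/

set_option autoImplicit false

namespace Pool.Agent.PAR

/-- `a - 1` if `b < a`, otherwise `a` -/
def dn (a b : ℕ) : ℕ := if b < a then a - 1 else a

/-- `a + 1` if `a < b`, otherwise `a` -/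
def up (a b : ℕ) : ℕ := if a < b then a + 1 else a

/-- The set `W` of vectors of natural numbers is closed under the binary operation `f`, applied
coordinate by coordinate. -/
def Closed2 {n : ℕ} (f : ℕ → ℕ → ℕ) (W : Set (Fin n → ℕ)) : Prop :=
  ∀ v ∈ W, ∀ w ∈ W, (fun i => f (v i) (w i)) ∈ W

/-- adjacency: `v ≤ w ≤ v + 1` or `w ≤ v ≤ w + 1` -/
def near {n : ℕ} (v w : Fin n → ℕ) : Prop := ∀ i, v i ≤ w i ∧ w i ≤ v i + 1

section iterate

theorem iter_mid_dn (a : ℕ) : ∀ (N b : ℕ), b ≤ a + N → a ≤ b + N + 1 →
    ((fun b => (a + b) / 2)^[N + 1] b) = dn a b := by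
  intro N
  induction N with
  | zero =>
    intro b h1 h2
    simp only [zero_add, Function.iterate_one]
    unfold dn
    split_ifs <;> omega
  | succ N ih =>
    intro b h1 h2
    rw [Function.iterate_succ_apply, ih ((a + b) / 2) (by omega) (by omega)]
    unfold dn
    split_ifs <;> omega

theorem iter_mid_up (a : ℕ) : ∀ (N b : ℕ), b ≤ a + N + 1 → a ≤ b + N →
    ((fun b => (a + b + 1) / 2)^[N + 1] b) = up a b := by
  intro N
  induction N with
  | zero =>
    intro b h1 h2
    simp only [zero_add, Function.iterate_one]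
    unfold up
    split_ifs <;> omega
  | succ N ih =>
    intro b h1 h2
    rw [Function.iterate_succ_apply, ih ((a + b + 1) / 2) (by omega) (by omega)]
    unfold up
    split_ifs <;> omega

variable {n : ℕ} {W : Set (Fin n → ℕ)}

theorem iterate_mem {f : ℕ → ℕ → ℕ} (h : Closed2 f W) {v w : Fin n → ℕ} (hv : v ∈ W)
    (hw : w ∈ W) (N : ℕ) : (fun i => (f (v i))^[N] (w i)) ∈ W := by
  induction N with
  | zero => exact hw
  | succ N ih =>
    have := h v hv _ ih
    refine (congrArg (· ∈ W) ?_).mp this
    funext i
    rw [Function.iterate_succ_apply']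

theorem exists_bound (v w : Fin n → ℕ) : ∃ N, ∀ i, v i ≤ N ∧ w i ≤ N := by
  classical
  refine ⟨Finset.univ.sup v + Finset.univ.sup w, fun i => ⟨?_, ?_⟩⟩
  · have := Finset.le_sup (f := v) (Finset.mem_univ i)
    omega
  · have := Finset.le_sup (f := w) (Finset.mem_univ i)
    omega

/-- sets which are closed under the lower midpoint are closed under the step down -/
theorem closed_dn_of_mid (h : Closed2 (fun a b => (a + b) / 2) W) : Closed2 dn W := by
  intro v hv w hw
  obtain ⟨N, hN⟩ := exists_bound v w
  have := iterate_mem h hv hw (N + 1)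
  refine (congrArg (· ∈ W) ?_).mp this
  funext i
  have := hN i
  exact iter_mid_dn (v i) N (w i) (by omega) (by omega)

/-- sets which are closed under the upper midpoint are closed under the step up -/
theorem closed_up_of_mid (h : Closed2 (fun a b => (a + b + 1) / 2) W) : Closed2 up W := by
  intro v hv w hw
  obtain ⟨N, hN⟩ := exists_bound v w
  have := iterate_mem h hv hw (N + 1)
  refine (congrArg (· ∈ W) ?_).mp this
  funext i
  have := hN i
  exact iter_mid_up (v i) N (w i) (by omega) (by omega)

theorem iter_dn (b : ℕ) : ∀ (N a : ℕ), a ≤ b + N → ((fun a => dn a b)^[N] a) = min a b := by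
  intro N
  induction N with
  | zero =>
    intro a h
    simp only [Function.iterate_zero, id]
    omega
  | succ N ih =>
    intro a h
    rw [Function.iterate_succ_apply, ih (dn a b) (by unfold dn; split_ifs <;> omega)]
    unfold dn
    split_ifs <;> omega

theorem iter_up (b : ℕ) : ∀ (N a : ℕ), b ≤ a + N → ((fun a => up a b)^[N] a) = max a b := by
  intro N
  induction N with
  | zero =>
    intro a h
    simp only [Function.iterate_zero, id]
    omega
  | succ N ih =>
    intro a h
    rw [Function.iterate_succ_apply, ih (up a b) (by unfold up; split_ifs <;> omega)]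
    unfold up
    split_ifs <;> omega

theorem iterate_mem' {f : ℕ → ℕ → ℕ} (h : Closed2 f W) {v w : Fin n → ℕ} (hv : v ∈ W)
    (hw : w ∈ W) (N : ℕ) : (fun i => (fun a => f a (w i))^[N] (v i)) ∈ W := by
  induction N with
  | zero => exact hv
  | succ N ih =>
    have := h _ ih w hw
    refine (congrArg (· ∈ W) ?_).mp this
    funext i
    rw [Function.iterate_succ_apply']

theorem closed_min (h : Closed2 dn W) : Closed2 min W := by
  intro v hv w hw
  obtain ⟨N, hN⟩ := exists_bound v w
  have := iterate_mem' h hv hw N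
  refine (congrArg (· ∈ W) ?_).mp this
  funext i
  have := hN i
  exact iter_dn (w i) N (v i) (by omega)

theorem closed_max (h : Closed2 up W) : Closed2 max W := by
  intro v hv w hw
  obtain ⟨N, hN⟩ := exists_bound v w
  have := iterate_mem' h hv hw N
  refine (congrArg (· ∈ W) ?_).mp this
  funext i
  have := hN i
  exact iter_up (w i) N (v i) (by omega)

theorem exists_least (hW : W.Finite) (hne : W.Nonempty) (h : Closed2 min W) :
    ∃ m ∈ W, ∀ v ∈ W, ∀ i, m i ≤ v i := by
  obtain ⟨m, hm, hmin⟩ := Set.exists_min_image W (fun v => ∑ i, v i) hW hne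
  refine ⟨m, hm, fun v hv i => ?_⟩
  by_contra hi
  have h1 := hmin _ (h m hm v hv)
  have h2 : ∑ i, min (m i) (v i) < ∑ i, m i :=
    Finset.sum_lt_sum (fun j _ => min_le_left _ _) ⟨i, Finset.mem_univ i, by
      have : v i < m i := not_le.1 hi
      omega⟩
  exact absurd h1 (not_le.2 h2)

theorem exists_greatest (hW : W.Finite) (hne : W.Nonempty) (h : Closed2 max W) :
    ∃ m ∈ W, ∀ v ∈ W, ∀ i, v i ≤ m i := by
  obtain ⟨m, hm, hmax⟩ := Set.exists_max_image W (fun v => ∑ i, v i) hW hne
  refine ⟨m, hm, fun v hv i => ?_⟩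
  by_contra hi
  have h1 := hmax _ (h m hm v hv)
  have h2 : ∑ i, m i < ∑ i, max (m i) (v i) :=
    Finset.sum_lt_sum (fun j _ => le_max_left _ _) ⟨i, Finset.mem_univ i, by
      have : m i < v i := not_le.1 hi
      omega⟩
  exact absurd h1 (not_le.2 h2)

theorem near_eq_of_sum {v y : Fin n → ℕ} (h : ∀ i, v i ≤ y i) (hs : ∑ i, y i ≤ ∑ i, v i) :
    v = y := by
  funext i
  by_contra hne
  have : ∑ i, v i < ∑ i, y i :=
    Finset.sum_lt_sum (fun j _ => h j) ⟨i, Finset.mem_univ i, lt_of_le_of_ne (h i) hne⟩
  exact absurd hs (not_le.2 this)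

/-- **A finite nonempty set of vectors closed under the step down is dismantlable.** -/
theorem dismantlable_dn (hW : W.Finite) (hne : W.Nonempty) (h : Closed2 dn W) :
    Dismantlable W (fun v w => (near v w ∨ near w v) ∧ v ≠ w) := by
  obtain ⟨m, hm, hleast⟩ := exists_least hW hne (closed_min h)
  refine ⟨m, fun v => ∑ i, v i, hm, ?_⟩
  intro v hv hvm
  have hle := hleast v hv
  have hu := h v hv m hm
  set u : Fin n → ℕ := fun i => dn (v i) (m i) with hudef
  have hui : ∀ i, u i = dn (v i) (m i) := fun i => rfl
  obtain ⟨i, hi⟩ : ∃ i, v i ≠ m i := by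
    by_contra hc
    push Not at hc
    exact hvm (funext hc)
  have hlt : ∑ i, u i < ∑ i, v i := by
    refine Finset.sum_lt_sum (fun j _ => ?_) ⟨i, Finset.mem_univ i, ?_⟩
    · rw [hui]
      unfold dn
      split_ifs <;> omega
    · rw [hui]
      have := hle i
      unfold dn
      split_ifs <;> omega
  refine ⟨u, hu, hlt, ⟨Or.inr fun j => ?_, ?_⟩, ?_⟩
  · rw [hui]
    unfold dn
    split_ifs <;> omega
  · intro e
    rw [← e] at hlt
    exact absurd hlt (lt_irrefl _)
  · intro y hy hys hvy hyu
    refine ⟨?_, hyu⟩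
    have hym := hleast y hy
    rcases hvy.1 with h1 | h1
    · exact absurd (near_eq_of_sum (fun i => (h1 i).1) hys) hvy.2
    · refine Or.inr fun j => ?_
      have h2 := h1 j
      have h3 := hym j
      have h4 := hle j
      rw [hui]
      unfold dn
      split_ifs <;> omega

/-- **A finite nonempty set of vectors closed under the step up is dismantlable.** -/
theorem dismantlable_up (hW : W.Finite) (hne : W.Nonempty) (h : Closed2 up W) :
    Dismantlable W (fun v w => (near v w ∨ near w v) ∧ v ≠ w) := by
  obtain ⟨m, hm, hgr⟩ := exists_greatest hW hne (closed_max h)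
  have hms : ∀ v ∈ W, ∑ i, v i ≤ ∑ i, m i := fun v hv =>
    Finset.sum_le_sum fun i _ => hgr v hv i
  refine ⟨m, fun v => ∑ i, m i - ∑ i, v i, hm, ?_⟩
  intro v hv hvm
  have hle := hgr v hv
  have hu := h v hv m hm
  set u : Fin n → ℕ := fun i => up (v i) (m i) with hudef
  have hui : ∀ i, u i = up (v i) (m i) := fun i => rfl
  obtain ⟨i, hi⟩ : ∃ i, v i ≠ m i := by
    by_contra hc
    push Not at hc
    exact hvm (funext hc)
  have hlt : ∑ i, v i < ∑ i, u i := by
    refine Finset.sum_lt_sum (fun j _ => ?_) ⟨i, Finset.mem_univ i, ?_⟩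
    · rw [hui]
      unfold up
      split_ifs <;> omega
    · rw [hui]
      have := hle i
      unfold up
      split_ifs <;> omega
  have hu1 := hms u hu
  have hv1 := hms v hv
  refine ⟨u, hu, by dsimp only; omega, ⟨Or.inl fun j => ?_, ?_⟩, ?_⟩
  · rw [hui]
    unfold up
    split_ifs <;> omega
  · intro e
    rw [← e] at hlt
    exact absurd hlt (lt_irrefl _)
  · intro y hy hys hvy hyu
    refine ⟨?_, hyu⟩
    have hym := hgr y hy
    have hy1 := hms y hy
    dsimp only at hys
    rcases hvy.1 with h1 | h1
    · refine Or.inl fun j => ?_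
      have h2 := h1 j
      have h3 := hym j
      have h4 := hle j
      rw [hui]
      unfold up
      split_ifs <;> omega
    · exact absurd (near_eq_of_sum (fun i => (h1 i).1) (by omega)).symm hvy.2

end iterate

/-- The four closure conditions. -/
def StepClosed {n : ℕ} (W : Set (Fin n → ℕ)) : Prop :=
  Closed2 (fun a b => (a + b) / 2) W ∨ Closed2 (fun a b => (a + b + 1) / 2) W ∨
    Closed2 dn W ∨ Closed2 up W

theorem dismantlable_step {n : ℕ} {W : Set (Fin n → ℕ)} (hW : W.Finite) (hne : W.Nonempty)
    (h : StepClosed W) : Dismantlable W (fun v w => (near v w ∨ near w v) ∧ v ≠ w) := by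
  rcases h with h | h | h | h
  · exact dismantlable_dn hW hne (closed_dn_of_mid h)
  · exact dismantlable_up hW hne (closed_up_of_mid h)
  · exact dismantlable_dn hW hne h
  · exact dismantlable_up hW hne h

end Pool.Agent.PAR
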