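import Pool.Agent.Helper7_PAR.Vec
import Pool.Agent.Helper7_PAR.Step

/-!
# Parity-P: witness sets which are closed under rounded midpoints
-/

set_option autoImplicit false

namespace Pool.Agent.PAR

open Turing Computability Pool.Agent.UT.Num Pool.Agent.H2XG Pool.Agent.LATM
open Pool.Agent.PAR.H58 (core_odd)

open Classical in
/-- the relation `y ≤ z ≤ y + 1` for codes of vectors -/
noncomputable def nrb (P Q : ℕ) (y z : Word) : Bool :=
  decide (∀ i < P, nval (blk' Q y i) ≤ nval (blk' Q z i) ∧
    nval (blk' Q z i) ≤ nval (blk' Q y i) + 1)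

theorem nrb_iff {P Q : ℕ} {y z : Word} : nrb P Q y z = true ↔ near (dec P Q y) (dec P Q z) := by
  unfold nrb near dec
  rw [decide_eq_true_iff]
  exact ⟨fun h i => h i i.2, fun h i hi => h ⟨i, hi⟩⟩

theorem good_nrb (p q : Polynomial ℕ) :
    Good3 (fun x y z => nrb (p.eval x.length) (q.eval x.length) y z) := by
  intro m A B D hA hB hD
  have h : FPP m (fun ρ => ∀ i < p.eval (A ρ).length,
      nval (blk' (q.eval (A ρ).length) (B ρ) i) ≤ nval (blk' (q.eval (A ρ).length) (D ρ) i) ∧
      nval (blk' (q.eval (A ρ).length) (D ρ) i) ≤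
        nval (blk' (q.eval (A ρ).length) (B ρ) i) + 1) :=
    FPP.all (hA.len.poly p)
      ((FPP.leV (FPV.blkV hB.weak (hA.weak.len.poly q) FPN.v0)
        (FPV.blkV hD.weak (hA.weak.len.poly q) FPN.v0)).and
      (FPP.leV (FPV.blkV hD.weak (hA.weak.len.poly q) FPN.v0)
        ((FPV.blkV hB.weak (hA.weak.len.poly q) FPN.v0).add (FPV.const 1))))
  exact FPP.decide' h fun ρ => by simp [nrb]

/-- dismantlable sets of vectors -/
theorem near_main (L : Set Word) (V : Word × Word → Bool) (p q : Polynomial ℕ)
    (h : IsVecVerifier L V p q) (hc : ∀ x ∈ L, Dismantlable (vsols V p q x)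
      (fun v w => (near v w ∨ near w v) ∧ v ≠ w)) : InParityP L := by
  classical
  obtain ⟨hV, hL⟩ := h
  let v : Word → Word → Bool := fun x y =>
    decide (y.length = p.eval x.length * q.eval x.length) && V (x, y)
  have hv : Good2 v := fun m A B hA hB =>
    (FPB.eqN hB.len ((hA.len.poly p).mul (hA.len.poly q))).and (FPB.call2 hV hA hB)
  let r : Word → Word → Word → Bool := fun x y z => nrb (p.eval x.length) (q.eval x.length) y z
  let qq : Polynomial ℕ := p * q + p + 1
  have hqq : ∀ n : ℕ, qq.eval n = p.eval n * q.eval n + p.eval n + 1 := by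
    intro n
    simp [qq]
  let W : Word → Set Word := fun x => {y | y.length ≤ qq.eval x.length ∧ v x y = true}
  have mem_W : ∀ x y, y ∈ W x ↔ y.length = p.eval x.length * q.eval x.length ∧
      dec (p.eval x.length) (q.eval x.length) y ∈ vsols V p q x := by
    intro x y
    constructor
    · rintro ⟨-, h2⟩
      simp only [v, Bool.and_eq_true, decide_eq_true_eq] at h2
      refine ⟨h2.1, fun i => dec_lt _ _, ?_⟩
      rw [vcode_dec h2.1]
      exact h2.2
    · rintro ⟨h1, h2⟩
      refine ⟨?_, ?_⟩
      · rw [hqq, h1]
        omega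
      · simp only [v, Bool.and_eq_true, decide_eq_true_eq]
        refine ⟨h1, ?_⟩
        have := h2.2
        rw [vcode_dec h1] at this
        exact this
  have code_mem : ∀ x, ∀ w ∈ vsols V p q x, vcode (q.eval x.length) w ∈ W x := by
    intro x w hw
    rw [mem_W]
    refine ⟨length_vcode _ _, ?_⟩
    rw [dec_vcode hw.1]
    exact hw
  -- the sum of the coordinates
  let f : ∀ x : Word, Word → ℕ := fun x y =>
    ∑ i, dec (p.eval x.length) (q.eval x.length) y i
  have hinj : ∀ x, ∀ y ∈ W x, ∀ z ∈ W x, dec (p.eval x.length) (q.eval x.length) y =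
      dec (p.eval x.length) (q.eval x.length) z → y = z := by
    intro x y hy z hz he
    rw [← vcode_dec ((mem_W x y).1 hy).1, ← vcode_dec ((mem_W x z).1 hz).1, he]
  have hf : ∀ x, ∀ y ∈ W x, ∀ z ∈ W x, r x y z = true → y ≠ z → f x y < f x z := by
    intro x y hy z hz hr hne
    have h1 := nrb_iff.1 hr
    by_contra hcon
    exact hne (hinj x y hy z hz (near_eq_of_sum (fun i => (h1 i).1) (not_lt.1 hcon)))
  refine core_odd L v r hv (good_nrb p q) qq W (fun x => rfl) ?_ ?_ ?_
  · -- lengths of chains
    rintro x l ⟨h1, h2⟩
    rcases l with _ | ⟨y, l⟩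
    · exact Nat.zero_le _
    have hmono : ∀ i (hi : i < (y :: l).length), f x y + i ≤ f x ((y :: l)[i]) := by
      intro i
      induction i with
      | zero =>
        intro hi
        simp
      | succ i ih =>
        intro hi
        have h3 := ih (by omega)
        have h4 := List.pairwise_iff_getElem.1 h2 i (i + 1) (by omega) hi (by omega)
        have h5 := hf x _ (h1 _ (List.getElem_mem (by omega))) _ (h1 _ (List.getElem_mem hi))
          h4.1 h4.2
        omega
    have h3 := hmono (y :: l).length.pred (by simp)
    have hlast : f x ((y :: l)[(y :: l).length.pred]) ≤ f x y + p.eval x.length := by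
      rcases Nat.eq_zero_or_pos (y :: l).length.pred with h0 | h0
      · have : (y :: l)[(y :: l).length.pred]'(by simp) = y := by
          simp only [h0]
          rfl
        rw [this]
        omega
      · have h4 := List.pairwise_iff_getElem.1 h2 0 (y :: l).length.pred (by simp) (by simp) h0
        have h5 := nrb_iff.1 h4.1
        have h6 : f x ((y :: l)[(y :: l).length.pred]) ≤ ∑ i : Fin (p.eval x.length),
            (dec (p.eval x.length) (q.eval x.length) y i + 1) :=
          Finset.sum_le_sum fun i _ => (h5 i).2
        rw [Finset.sum_add_distrib] at h6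
        simpa using h6
    rw [hqq]
    simp only [List.length_cons, Nat.pred_succ] at h3 hlast ⊢
    omega
  · -- the number of the chains
    intro x hx
    have hfin : (W x).Finite :=
      (List.finite_length_le Bool (qq.eval x.length)).subset fun y hy => hy.1
    obtain ⟨m, rank, hm, hd⟩ := hc x hx
    refine odd_chains_of_dismantlable hfin (f x) (hf x) ⟨vcode (q.eval x.length) m,
      fun y => rank (dec (p.eval x.length) (q.eval x.length) y), code_mem x m hm, ?_⟩
    intro y hy hym
    have hy' := (mem_W x y).1 hy
    obtain ⟨u, hu, hlt, had, hdom⟩ := hd _ hy'.2 (by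
      intro he
      apply hym
      rw [← he, vcode_dec hy'.1])
    have hdu := dec_vcode hu.1
    refine ⟨vcode (q.eval x.length) u, code_mem x u hu, ?_, ⟨?_, ?_⟩, ?_⟩
    · dsimp only
      rw [hdu]
      exact hlt
    · rcases had.1 with h1 | h1
      · left
        refine nrb_iff.2 ?_
        rw [hdu]
        exact h1
      · right
        refine nrb_iff.2 ?_
        rw [hdu]
        exact h1
    · intro he
      apply had.2
      rw [he, hdu]
    · intro z hz hzr hyz hzu
      have hz' := (mem_W x z).1 hz
      refine ⟨?_, hzu⟩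
      have h1 := hdom _ hz'.2 hzr ⟨?_, ?_⟩ ?_
      · rcases h1.1 with h2 | h2
        · left
          refine nrb_iff.2 ?_
          rw [hdu]
          exact h2
        · right
          refine nrb_iff.2 ?_
          rw [hdu]
          exact h2
      · rcases hyz.1 with h2 | h2
        · exact Or.inl (nrb_iff.1 h2)
        · exact Or.inr (nrb_iff.1 h2)
      · exact fun he => hyz.2 (hinj x y hy z hz he)
      · intro he
        apply hzu
        rw [← he, vcode_dec hz'.1]
  · intro x hx
    ext y
    simp only [Set.mem_empty_iff_false, iff_false]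
    intro hy
    exact hx ((hL x).2 ⟨_, ((mem_W x y).1 hy).2⟩)

theorem vsols_finite (V : Word × Word → Bool) (p q : Polynomial ℕ) (x : Word) :
    (vsols V p q x).Finite := by
  have h := Set.Finite.pi' (ι := Fin (p.eval x.length))
    (t := fun _ => {a : ℕ | a < 2 ^ q.eval x.length}) fun _ => Set.finite_lt_nat _
  exact h.subset fun v hv i => hv.1 i

/-- **Rounded midpoints.** -/
theorem step_main (L : Set Word) (V : Word × Word → Bool) (p q : Polynomial ℕ)
    (h : IsVecVerifier L V p q) (hc : ∀ x ∈ L, StepClosed (vsols V p q x)) : InParityP L :=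
  near_main L V p q h fun x hx =>
    dismantlable_step (vsols_finite V p q x) ((h.2 x).1 hx) (hc x hx)

end Pool.Agent.PAR
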