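import Pool.Agent.Helper7_PAR.VecDefs
import Pool.Agent.Helper7_LAT.FPP
import Pool.Agent.Helper58_PAR.CoreOdd

/-!
# Vectors of natural numbers and words
-/

set_option autoImplicit false

namespace Pool.Agent.PAR

open Turing Computability Pool.Agent.UT.Num Pool.Agent.H2XG Pool.Agent.LATM

/-! ### Words which consist of blocks of equal lengths -/

/-- concatenation of blocks -/
def cat (P : ℕ) (g : ℕ → Word) : Word := (List.range P).flatMap g

theorem cat_succ (P : ℕ) (g : ℕ → Word) : cat (P + 1) g = cat P g ++ g P := by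
  simp [cat, List.range_succ, List.flatMap_append]

theorem length_cat {P Q : ℕ} {g : ℕ → Word} (hg : ∀ i < P, (g i).length = Q) :
    (cat P g).length = P * Q := by
  induction P with
  | zero => simp [cat]
  | succ P ih =>
    rw [cat_succ, List.length_append, ih fun i hi => hg i (by omega), hg P (by omega)]
    ring

theorem cat_congr {P : ℕ} {g g' : ℕ → Word} (h : ∀ i < P, g i = g' i) : cat P g = cat P g' := by
  unfold cat
  exact List.flatMap_congr fun i hi => h i (List.mem_range.1 hi)

/-- the block with the number `i` -/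
def blk' (Q : ℕ) (y : Word) (i : ℕ) : Word := (y.drop (i * Q)).take Q

theorem blk_cat {P Q : ℕ} {g : ℕ → Word} (hg : ∀ i < P, (g i).length = Q) {i : ℕ} (hi : i < P) :
    blk' Q (cat P g) i = g i := by
  induction P with
  | zero => omega
  | succ P ih =>
    have hl := length_cat (P := P) (Q := Q) (g := g) fun i hi => hg i (by omega)
    unfold blk'
    rw [cat_succ]
    rcases Nat.lt_or_ge i P with h | h
    · have h1 : (i + 1) * Q ≤ P * Q := Nat.mul_le_mul_right _ h
      have h2 : (i + 1) * Q = i * Q + Q := by ring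
      rw [List.drop_append_of_le_length (by rw [hl]; omega), List.take_append_of_le_length
        (by rw [List.length_drop, hl]; omega)]
      exact ih (fun i hi => hg i (by omega)) h
    · have : i = P := by omega
      subst this
      rw [← hl, List.drop_left, List.take_of_length_le (hg i (by omega)).le]

theorem cat_blk {P Q : ℕ} {y : Word} (h : y.length = P * Q) : cat P (blk' Q y) = y := by
  induction P generalizing y with
  | zero =>
    rw [zero_mul] at h
    rw [List.eq_nil_of_length_eq_zero h]
    simp [cat]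
  | succ P ih =>
    have h0 : (P + 1) * Q = P * Q + Q := by ring
    rw [cat_succ]
    have h1 : (y.take (P * Q)).length = P * Q := by
      rw [List.length_take]
      omega
    have h2 := ih h1
    have h3 : cat P (blk' Q (y.take (P * Q))) = cat P (blk' Q y) := by
      refine cat_congr fun i hi => ?_
      unfold blk'
      have h4 : (i + 1) * Q ≤ P * Q := Nat.mul_le_mul_right _ hi
      have h5 : (i + 1) * Q = i * Q + Q := by ring
      rw [List.drop_take, List.take_take, min_eq_left (by omega)]
    rw [← h3, h2]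
    have h6 : blk' Q y P = y.drop (P * Q) := by
      unfold blk'
      exact List.take_of_length_le (by rw [List.length_drop]; omega)
    rw [h6, List.take_append_drop]

theorem length_blk {P Q : ℕ} {y : Word} (h : y.length = P * Q) {i : ℕ} (hi : i < P) :
    (blk' Q y i).length = Q := by
  unfold blk'
  have h4 : (i + 1) * Q ≤ P * Q := Nat.mul_le_mul_right _ hi
  have h5 : (i + 1) * Q = i * Q + Q := by ring
  rw [List.length_take, List.length_drop]
  omega

/-! ### Codes of vectors -/

/-- digits of a natural number -/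
def dig (Q n : ℕ) : Word := List.ofFn fun j : Fin Q => n.testBit j

theorem length_dig (Q n : ℕ) : (dig Q n).length = Q := by simp [dig]

theorem nval_dig {Q n : ℕ} (h : n < 2 ^ Q) : nval (dig Q n) = n := by
  refine Nat.eq_of_testBit_eq fun i => ?_
  rw [testBit_nval]
  rcases Nat.lt_or_ge i Q with hi | hi
  · rw [List.getD_eq_getElem _ _ (by rw [length_dig]; exact hi)]
    simp [dig]
  · rw [List.getD_eq_default _ _ (by rw [length_dig]; exact hi)]
    exact (Nat.testBit_lt_two_pow (h.trans_le (Nat.pow_le_pow_right two_pos hi))).symm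

theorem dig_nval {Q : ℕ} {u : Word} (h : u.length = Q) : dig Q (nval u) = u := by
  refine List.ext_getElem (by rw [length_dig, h]) fun i h1 h2 => ?_
  simp only [dig, List.getElem_ofFn]
  rw [testBit_nval, List.getD_eq_getElem _ _ h2]

theorem vcode_eq (Q : ℕ) {P : ℕ} (v : Fin P → ℕ) :
    vcode Q v = cat P (fun i => dig Q (if h : i < P then v ⟨i, h⟩ else 0)) := by
  unfold vcode cat
  rw [List.ofFn_eq_map, ← List.flatMap_def, ← List.map_coe_finRange_eq_range, List.flatMap_map]
  refine List.flatMap_congr fun i _ => ?_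
  rw [dif_pos i.2]
  rfl

/-- the vector with the code `y` -/
def dec (P Q : ℕ) (y : Word) : Fin P → ℕ := fun i => nval (blk' Q y i)

theorem length_vcode (Q : ℕ) {P : ℕ} (v : Fin P → ℕ) : (vcode Q v).length = P * Q := by
  rw [vcode_eq]
  exact length_cat fun i _ => length_dig _ _

theorem dec_vcode {Q P : ℕ} {v : Fin P → ℕ} (h : ∀ i, v i < 2 ^ Q) : dec P Q (vcode Q v) = v := by
  funext i
  unfold dec
  rw [vcode_eq, blk_cat (fun i _ => length_dig _ _) i.2, dif_pos i.2]
  exact nval_dig (h _)

theorem dec_lt {P Q : ℕ} (y : Word) (i : Fin P) : dec P Q y i < 2 ^ Q := by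
  unfold dec
  refine (nval_lt _).trans_le (Nat.pow_le_pow_right two_pos ?_)
  unfold blk'
  exact List.length_take_le _ _

theorem vcode_dec {P Q : ℕ} {y : Word} (h : y.length = P * Q) : vcode Q (dec P Q y) = y := by
  rw [vcode_eq]
  conv_rhs => rw [← cat_blk h]
  refine cat_congr fun i hi => ?_
  rw [dif_pos hi]
  exact dig_nval (length_blk h hi)

/-! ### The calculus -/

variable {m : ℕ}

theorem FPV.blkV {A : (Fin m → List K) → Word} (hA : FPW m A) {Q i : (Fin m → List K) → ℕ}
    (hQ : FPN m Q) (hi : FPN m i) : FPV m (fun ρ => nval (blk' (Q ρ) (A ρ) (i ρ))) :=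
  FPV.ofW ((hA.drop (hi.mul hQ)).take hQ)

theorem FPP.leV {e e' : (Fin m → List K) → ℕ} (h : FPV m e) (h' : FPV m e') :
    FPP m (fun ρ => e ρ ≤ e' ρ) := ⟨_, FPB.leV h h', fun ρ => by simp⟩

theorem FPP.ltV {e e' : (Fin m → List K) → ℕ} (h : FPV m e) (h' : FPV m e') :
    FPP m (fun ρ => e ρ < e' ρ) := ⟨_, FPB.ltV h h', fun ρ => by simp⟩

theorem FPP.eqV {e e' : (Fin m → List K) → ℕ} (h : FPV m e) (h' : FPV m e') :
    FPP m (fun ρ => e ρ = e' ρ) := ⟨_, FPB.eqV h h', fun ρ => by simp⟩

/-- the code of a vector whose coordinates are computed -/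
theorem FPW.vcode' {P Q : (Fin m → List K) → ℕ} (hP : FPN m P) (hQ : FPN m Q)
    {c : ℕ → (Fin m → List K) → ℕ} (hc : FPV (m + 1) (fun σ => c (σ 0).length (fun i => σ i.succ))) :
    FPW m (fun ρ => cat (P ρ) (fun i => dig (Q ρ) (c i ρ))) := by
  have h1 : FPW (m + 1) (fun σ => (List.range (Q (fun i => σ i.succ))).map fun j =>
      (c (σ 0).length (fun i => σ i.succ)).testBit j) :=
    FPW.range hQ.weak (b := fun j σ => (c (σ 0).length (fun i => σ i.succ)).testBit j)
      (FPB.testBitV hc.weak FPN.v0)
  refine FP.congr (FP.rangeFlatMap hP (F := fun i ρ => ((List.range (Q ρ)).map fun j =>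
      (c i ρ).testBit j).map K.a) h1) fun ρ => ?_
  unfold cat
  rw [List.map_flatMap]
  refine List.flatMap_congr fun i _ => ?_
  congr 1
  unfold dig
  rw [List.ofFn_eq_map, ← List.map_coe_finRange_eq_range, List.map_map]
  rfl

end Pool.Agent.PAR
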