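import Pool.Agent.Helper7_PAR.Defs

/-!
# Parity-P: witnesses which are vectors of natural numbers (MP_0fc649_lc), definitions
-/

set_option autoImplicit false

namespace Pool.Agent.PAR

/-- The code of a vector of natural numbers: for each coordinate its `q` lowest binary digits, the
lowest digit first. -/
def vcode (q : ℕ) {p : ℕ} (v : Fin p → ℕ) : Word :=
  (List.ofFn fun i => List.ofFn fun j : Fin q => (v i).testBit j).flatten

/-- The set of the vectors with `p |x|` coordinates in `{0, …, 2 ^ (q |x|) - 1}` whose codes are
accepted by `V` together with `x`. -/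
def vsols (V : Word × Word → Bool) (p q : Polynomial ℕ) (x : Word) :
    Set (Fin (p.eval x.length) → ℕ) :=
  {v | (∀ i, v i < 2 ^ q.eval x.length) ∧ V (x, vcode (q.eval x.length) v) = true}

/-- `V` is an NP verifier for the language `L` whose witnesses are vectors with `p |x|` coordinates
in `{0, …, 2 ^ (q |x|) - 1}`. -/
def IsVecVerifier (L : Set Word) (V : Word × Word → Bool) (p q : Polynomial ℕ) : Prop :=
  PolyPair V ∧ ∀ x, x ∈ L ↔ (vsols V p q x).Nonempty

end Pool.Agent.PAR
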